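import Pool.Agent.ArcVis.Line

/-! # Numerical combination of the near and far bounds of one event -/

namespace Pool.Agent.ArcVis

open Finset

variable {n : ℕ}

theorem up_swap (P Q : Finset (Fin n)) (C : Fin n) : up Q P C = up P Q C := by
  unfold up
  rw [Finset.union_comm]

theorem card_lo_le (P : Finset (Fin n)) (C : Fin n) : (lo P C).card ≤ C.val := by
  have : lo P C ⊆ Finset.Iio C := by
    intro a ha
    rw [lo, Finset.mem_filter] at ha
    rw [Finset.mem_Iio]
    exact ha.2
  calc (lo P C).card ≤ (Finset.Iio C).card := Finset.card_le_card this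
    _ = C.val := Fin.card_Iio C

/-- near + far births of an end event, together with the losses -/
theorem end_combo {K : ℕ} {P Q : Finset (Fin n)} {C : Fin n}
    (hfat : K + 1 ≤ (P ∪ Q).card) :
    ((lo P C).filter (fun a => (mid P a C).card < K ∧ K + 1 ≤ (up P Q a).card)).card +
      ((lo Q C).filter (fun a => (mid Q a C).card + (up P Q C).card < K ∧
        K + 1 ≤ (up P Q a).card)).card +
      (K - (lo P C).card) + (K - (lo Q C).card - (up P Q C).card) ≤ K := by
  classical
  set m := (up P Q C).card with hm
  set N1 := (lo P C).filter (fun a => (mid P a C).card < K ∧ K + 1 ≤ (up P Q a).card) with hN1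
  set N2 := (lo Q C).filter (fun a => (mid Q a C).card + m < K ∧ K + 1 ≤ (up P Q a).card)
    with hN2
  have hN1' : N1.card ≤ min K (lo P C).card := by
    rw [← card_lo_mid]
    apply Finset.card_le_card
    intro a ha
    rw [hN1, Finset.mem_filter] at ha
    rw [Finset.mem_filter]
    exact ⟨ha.1, ha.2.1⟩
  by_cases hmK : K ≤ m
  · have : N2.card = 0 := by
      rw [Finset.card_eq_zero, hN2]
      apply Finset.filter_false_of_mem
      intro a _ h
      omega
    omega
  · rw [not_le] at hmK
    -- the union of the low arcs, ranked from `C` downwards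
    set A := lo (P ∪ Q) C with hA
    set Q0 := A.filter (fun a => (mid (P ∪ Q) a C).card < K - m) with hQ0
    have hQ0c : Q0.card = min (K - m) A.card := card_lo_mid _ _ _
    -- decomposition of the line: `P ∪ Q = A ∪ {C} ∪ up`
    have hsplit : (P ∪ Q).card ≤ A.card + 1 + m := by
      have hs : P ∪ Q ⊆ A ∪ {C} ∪ up P Q C := by
        intro c hc
        rcases lt_trichotomy c C with h | h | h
        · apply Finset.mem_union_left
          apply Finset.mem_union_left
          rw [hA, lo, Finset.mem_filter]
          exact ⟨hc, h⟩
        · apply Finset.mem_union_left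
          apply Finset.mem_union_right
          rw [Finset.mem_singleton]; exact h
        · apply Finset.mem_union_right
          rw [mem_up]
          rw [Finset.mem_union] at hc
          exact ⟨hc, h⟩
      calc (P ∪ Q).card ≤ (A ∪ {C} ∪ up P Q C).card := Finset.card_le_card hs
        _ ≤ (A ∪ {C}).card + m := Finset.card_union_le _ _
        _ ≤ A.card + 1 + m := by
          have := Finset.card_union_le A ({C} : Finset (Fin n))
          rw [Finset.card_singleton] at this
          omega
    have hup : ∀ a, a < C → (up P Q a).card ≤ (mid (P ∪ Q) a C).card + 1 + m := by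
      intro a haC
      have hs : up P Q a ⊆ mid (P ∪ Q) a C ∪ {C} ∪ up P Q C := by
        intro c hc
        rw [mem_up] at hc
        rcases lt_trichotomy c C with h | h | h
        · apply Finset.mem_union_left
          apply Finset.mem_union_left
          rw [mid, Finset.mem_filter, Finset.mem_union]
          exact ⟨hc.1, hc.2, h⟩
        · apply Finset.mem_union_left
          apply Finset.mem_union_right
          rw [Finset.mem_singleton]; exact h
        · apply Finset.mem_union_right
          rw [mem_up]
          exact ⟨hc.1, h⟩
      calc (up P Q a).card ≤ (mid (P ∪ Q) a C ∪ {C} ∪ up P Q C).card := Finset.card_le_card hs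
        _ ≤ (mid (P ∪ Q) a C ∪ {C}).card + m := Finset.card_union_le _ _
        _ ≤ (mid (P ∪ Q) a C).card + 1 + m := by
          have := Finset.card_union_le (mid (P ∪ Q) a C) ({C} : Finset (Fin n))
          rw [Finset.card_singleton] at this
          omega
    have hmidP : ∀ a, (mid P a C).card ≤ (mid (P ∪ Q) a C).card := by
      intro a
      apply Finset.card_le_card
      intro c hc
      rw [mid, Finset.mem_filter] at hc ⊢
      exact ⟨Finset.mem_union_left _ hc.1, hc.2⟩
    have hmidQ : ∀ a, (mid Q a C).card ≤ (mid (P ∪ Q) a C).card := by
      intro a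
      apply Finset.card_le_card
      intro c hc
      rw [mid, Finset.mem_filter] at hc ⊢
      exact ⟨Finset.mem_union_right _ hc.1, hc.2⟩
    have hd1 : Disjoint N1 (lo P C ∩ Q0) := by
      rw [Finset.disjoint_left]
      intro a ha ha2
      rw [hN1, Finset.mem_filter] at ha
      rw [Finset.mem_inter, hQ0, Finset.mem_filter] at ha2
      have haC : a < C := by
        have := ha.1
        rw [lo, Finset.mem_filter] at this
        exact this.2
      have := hup a haC
      omega
    have hd2 : Disjoint N2 (lo Q C ∩ Q0) := by
      rw [Finset.disjoint_left]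
      intro a ha ha2
      rw [hN2, Finset.mem_filter] at ha
      rw [Finset.mem_inter, hQ0, Finset.mem_filter] at ha2
      have haC : a < C := by
        have := ha.1
        rw [lo, Finset.mem_filter] at this
        exact this.2
      have := hup a haC
      omega
    have h1 : N1.card + (lo P C ∩ Q0).card ≤ min K (lo P C).card := by
      rw [← Finset.card_union_of_disjoint hd1, ← card_lo_mid]
      apply Finset.card_le_card
      intro a ha
      rw [Finset.mem_union] at ha
      rw [Finset.mem_filter]
      rcases ha with h | h
      · rw [hN1, Finset.mem_filter] at h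
        exact ⟨h.1, h.2.1⟩
      · rw [Finset.mem_inter, hQ0, Finset.mem_filter] at h
        have := hmidP a
        exact ⟨h.1, by omega⟩
    have h2 : N2.card + (lo Q C ∩ Q0).card ≤ min (K - m) (lo Q C).card := by
      rw [← Finset.card_union_of_disjoint hd2, ← card_lo_mid]
      apply Finset.card_le_card
      intro a ha
      rw [Finset.mem_union] at ha
      rw [Finset.mem_filter]
      rcases ha with h | h
      · rw [hN2, Finset.mem_filter] at h
        exact ⟨h.1, by omega⟩
      · rw [Finset.mem_inter, hQ0, Finset.mem_filter] at h
        have := hmidQ a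
        exact ⟨h.1, by omega⟩
    have h3 : Q0.card ≤ (lo P C ∩ Q0).card + (lo Q C ∩ Q0).card := by
      have hs : Q0 ⊆ (lo P C ∩ Q0) ∪ (lo Q C ∩ Q0) := by
        intro a ha
        have ha' := ha
        rw [hQ0, Finset.mem_filter, hA, lo, Finset.mem_filter, Finset.mem_union] at ha
        rw [Finset.mem_union, Finset.mem_inter, Finset.mem_inter]
        rcases ha.1.1 with h | h
        · left
          refine ⟨?_, ha'⟩
          rw [lo, Finset.mem_filter]
          exact ⟨h, ha.1.2⟩
        · right
          refine ⟨?_, ha'⟩
          rw [lo, Finset.mem_filter]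
          exact ⟨h, ha.1.2⟩
      exact (Finset.card_le_card hs).trans (Finset.card_union_le _ _)
    omega

/-- near + far births of a start event, together with the losses -/
theorem start_combo (K m d d' : ℕ) :
    (min K m + min K d) + min (K - m) d' + (K - d) + (K - d' - m) ≤ 2 * K := by
  omega

/-- the claims of the top arcs on one event -/
theorem claims_le {K : ℕ} (P : Finset (Fin n)) (C : Fin n) (m : ℕ) :
    ((Finset.univ : Finset (Fin n)).filter (fun j => j < C ∧ j.val < K ∧ j ∉ P ∧
      (mid P j C).card + m < K - j.val)).card + (K - C.val - m) ≤ K - (lo P C).card - m := by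
  classical
  set X := (Finset.univ : Finset (Fin n)).filter (fun j => j < C ∧ j.val < K ∧ j ∉ P ∧
      (mid P j C).card + m < K - j.val) with hX
  -- absent arcs below `C`
  set Ab := (Finset.univ : Finset (Fin n)).filter (fun j => j < C ∧ j ∉ P) with hAb
  have hAbc : Ab.card + (lo P C).card = C.val := by
    have h : Finset.Iio C = Ab ∪ lo P C := by
      ext a
      simp only [hAb, lo, Finset.mem_Iio, Finset.mem_union, Finset.mem_filter, Finset.mem_univ,
        true_and]
      tauto
    rw [← Fin.card_Iio C, h, Finset.card_union_of_disjoint]
    rw [Finset.disjoint_left]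
    intro a ha ha2
    rw [hAb, Finset.mem_filter] at ha
    rw [lo, Finset.mem_filter] at ha2
    exact ha.2.2 ha2.1
  have hXAb : X ⊆ Ab := by
    intro j hj
    rw [hX, Finset.mem_filter] at hj
    rw [hAb, Finset.mem_filter]
    exact ⟨hj.1, hj.2.1, hj.2.2.2.1⟩
  have h1 : X.card ≤ Ab.card := Finset.card_le_card hXAb
  -- rank of absent arcs
  have h2 : (Ab.filter (fun x => (Ab.filter (fun y => y.val < x.val)).card <
      K - (lo P C).card - m)).card = min (K - (lo P C).card - m) Ab.card :=
    card_rank_lt Ab (fun x => x.val) (fun x _ y _ h => Fin.ext h) _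
  have h3 : X.card ≤ K - (lo P C).card - m := by
    refine le_trans ?_ (le_trans h2.le (min_le_left _ _))
    apply Finset.card_le_card
    intro j hj
    rw [Finset.mem_filter]
    refine ⟨hXAb hj, ?_⟩
    rw [hX, Finset.mem_filter] at hj
    obtain ⟨_, hjC, hjK, hjP, hjm⟩ := hj
    -- |lo P C| = |lo P j| + |mid P j C|
    have e1 : (lo P C).card = (lo P j).card + (mid P j C).card := by
      have h : lo P C = lo P j ∪ mid P j C := by
        ext a
        simp only [lo, mid, Finset.mem_union, Finset.mem_filter]
        constructor
        · rintro ⟨ha, haC⟩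
          rcases lt_trichotomy a j with h | h | h
          · exact Or.inl ⟨ha, h⟩
          · exact absurd (h ▸ ha) hjP
          · exact Or.inr ⟨ha, h, haC⟩
        · rintro (⟨ha, h⟩ | ⟨ha, h, h'⟩)
          · exact ⟨ha, h.trans hjC⟩
          · exact ⟨ha, h'⟩
      rw [h, Finset.card_union_of_disjoint]
      rw [Finset.disjoint_left]
      intro a ha ha2
      rw [lo, Finset.mem_filter] at ha
      rw [mid, Finset.mem_filter] at ha2
      exact lt_asymm ha.2 ha2.2.1
    -- j = |lo P j| + (absent below j)
    have e2 : (Ab.filter (fun y => y.val < j.val)).card + (lo P j).card = j.val := by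
      have h : Finset.Iio j = Ab.filter (fun y => y.val < j.val) ∪ lo P j := by
        ext a
        simp only [hAb, lo, Finset.mem_Iio, Finset.mem_union, Finset.mem_filter,
          Finset.mem_univ, true_and]
        constructor
        · intro h
          by_cases haP : a ∈ P
          · exact Or.inr ⟨haP, h⟩
          · exact Or.inl ⟨⟨h.trans hjC, haP⟩, h⟩
        · rintro (⟨_, h⟩ | ⟨_, h⟩)
          · exact h
          · exact h
      have hdisj : Disjoint (Ab.filter (fun y => y.val < j.val)) (lo P j) := by
        rw [Finset.disjoint_left]
        intro a ha ha2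
        rw [hAb, Finset.mem_filter, Finset.mem_filter] at ha
        rw [lo, Finset.mem_filter] at ha2
        exact ha.1.2.2 ha2.1
      have hcard := Fin.card_Iio j
      rw [h, Finset.card_union_of_disjoint hdisj] at hcard
      exact hcard
    omega
  omega

end Pool.Agent.ArcVis
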