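import Pool.Agent.ArcVis.Timeline

/-! # The edge bound for separated families -/

namespace Pool.Agent.ArcVis

open Finset

namespace Sep

variable {n : ℕ} {H : ℤ} (F : Sep n H)

/-- the arcs of rank `< K` -/
def J (n K : ℕ) : Finset (Fin n) := Finset.univ.filter (fun j => j.val < K)

/-- an event counted in a gap of `j` -/
def EvE (K : ℕ) (j : Fin n) (t : ℤ) : Prop := ¬ F.pres j t ∧ F.EvT (K - j.val) j t

open Classical in
noncomputable def c1 (K : ℕ) (j : Fin n) (t : ℤ) : ℕ := if F.Ev j t then K - j.val else 0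

open Classical in
noncomputable def c2 (K : ℕ) (j : Fin n) (t : ℤ) : ℕ := if F.EvE K j t then 1 else 0

open Classical in
noncomputable def c3 (K : ℕ) (j : Fin n) (t : ℤ) : ℕ :=
  if F.EndAt j (t + H) then K - j.val - (up (F.P t) (F.P (t + H)) j).card else 0

/-- losses at time `t` dominate the claims at time `t` -/
theorem claims_point (K : ℕ) (t : ℤ) :
    ∑ j ∈ J n K, (F.c1 K j t + F.c2 K j t + F.c3 K j t) ≤
      ∑ C : Fin n, (F.nl K C t + F.fl K C t) := by
  classical
  by_cases h1 : ∃ C, F.Ev C t
  · obtain ⟨C, hC⟩ := h1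
    have hnofar : ∀ j, ¬ F.Ev j (t + H) := by
      intro j hj
      have := F.ev_uniq (m := 1) hC (by rw [mul_one]; exact hj)
      obtain ⟨_, m', hm'⟩ := this
      omega
    have huniq : ∀ j, F.Ev j t → j = C := by
      intro j hj
      exact (F.ev_uniq (m := 0) hj (by rw [mul_zero, add_zero]; exact hC)).1
    have hcl := claims_le (K := K) (F.P t) C 0
    set X := (Finset.univ : Finset (Fin n)).filter (fun j => j < C ∧ j.val < K ∧ j ∉ F.P t ∧
      (mid (F.P t) j C).card + 0 < K - j.val) with hX
    have s1 : ∑ j ∈ J n K, F.c1 K j t ≤ K - C.val := by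
      calc ∑ j ∈ J n K, F.c1 K j t ≤ ∑ j ∈ J n K, (if j = C then K - C.val else 0) := by
            apply Finset.sum_le_sum
            intro j _
            unfold c1
            by_cases hj : F.Ev j t
            · have := huniq j hj
              subst this
              rw [if_pos hj, if_pos rfl]
            · rw [if_neg hj]
              exact Nat.zero_le _
        _ ≤ K - C.val := by
            rw [Finset.sum_ite_eq']
            split_ifs
            · exact le_rfl
            · exact Nat.zero_le _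
    have s2 : ∑ j ∈ J n K, F.c2 K j t ≤ X.card := by
      unfold c2
      rw [← Finset.sum_filter, Finset.sum_const, smul_eq_mul, mul_one]
      apply Finset.card_le_card
      intro j hj
      rw [Finset.mem_filter, J, Finset.mem_filter] at hj
      rw [hX, Finset.mem_filter]
      obtain ⟨⟨_, hjK⟩, hjp, C', hjC', h⟩ := hj
      rcases h with ⟨h, h'⟩ | ⟨h, _⟩
      · have := huniq C' h
        subst this
        exact ⟨Finset.mem_univ _, hjC', hjK, fun hh => hjp (F.mem_P.1 hh), by omega⟩
      · exact absurd h (hnofar C')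
    have s3 : ∑ j ∈ J n K, F.c3 K j t = 0 := by
      apply Finset.sum_eq_zero
      intro j _
      unfold c3
      rw [if_neg (fun h => hnofar j (Or.inr h))]
    have s4 : F.nl K C t + F.fl K C t ≤ ∑ C : Fin n, (F.nl K C t + F.fl K C t) :=
      Finset.single_le_sum (f := fun C => F.nl K C t + F.fl K C t)
        (fun _ _ => Nat.zero_le _) (Finset.mem_univ C)
    have s5 : F.nl K C t = K - (lo (F.P t) C).card := by
      unfold nl
      rw [if_pos hC]
    rw [Finset.sum_add_distrib, Finset.sum_add_distrib]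
    omega
  · by_cases h2 : ∃ C, F.Ev C (t + H)
    · obtain ⟨C, hC⟩ := h2
      push Not at h1
      have huniq : ∀ j, F.Ev j (t + H) → j = C := by
        intro j hj
        exact (F.ev_uniq (m := 0) hj (by rw [mul_zero, add_zero]; exact hC)).1
      have hcl := claims_le (K := K) (F.P t) C (up (F.P t) (F.P (t + H)) C).card
      set X := (Finset.univ : Finset (Fin n)).filter (fun j => j < C ∧ j.val < K ∧ j ∉ F.P t ∧
        (mid (F.P t) j C).card + (up (F.P t) (F.P (t + H)) C).card < K - j.val) with hX
      have s1 : ∑ j ∈ J n K, F.c1 K j t = 0 := by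
        apply Finset.sum_eq_zero
        intro j _
        unfold c1
        rw [if_neg (h1 j)]
      have s2 : ∑ j ∈ J n K, F.c2 K j t ≤ X.card := by
        unfold c2
        rw [← Finset.sum_filter, Finset.sum_const, smul_eq_mul, mul_one]
        apply Finset.card_le_card
        intro j hj
        rw [Finset.mem_filter, J, Finset.mem_filter] at hj
        rw [hX, Finset.mem_filter]
        obtain ⟨⟨_, hjK⟩, hjp, C', hjC', h⟩ := hj
        rcases h with ⟨h, _⟩ | ⟨h, h'⟩
        · exact absurd h (h1 C')
        · have := huniq C' h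
          subst this
          exact ⟨Finset.mem_univ _, hjC', hjK, fun hh => hjp (F.mem_P.1 hh), h'⟩
      have s3 : ∑ j ∈ J n K, F.c3 K j t ≤ K - C.val - (up (F.P t) (F.P (t + H)) C).card := by
        calc ∑ j ∈ J n K, F.c3 K j t ≤
              ∑ j ∈ J n K, (if j = C then K - C.val - (up (F.P t) (F.P (t + H)) C).card
                else 0) := by
              apply Finset.sum_le_sum
              intro j _
              unfold c3
              by_cases hj : F.EndAt j (t + H)
              · have := huniq j (Or.inr hj)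
                subst this
                rw [if_pos hj, if_pos rfl]
              · rw [if_neg hj]
                exact Nat.zero_le _
          _ ≤ K - C.val - (up (F.P t) (F.P (t + H)) C).card := by
              rw [Finset.sum_ite_eq']
              split_ifs
              · exact le_rfl
              · exact Nat.zero_le _
      have s4 : F.nl K C t + F.fl K C t ≤ ∑ C : Fin n, (F.nl K C t + F.fl K C t) :=
        Finset.single_le_sum (f := fun C => F.nl K C t + F.fl K C t)
          (fun _ _ => Nat.zero_le _) (Finset.mem_univ C)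
      have s5 : F.fl K C t = K - (lo (F.P t) C).card - (up (F.P t) (F.P (t + H)) C).card := by
        unfold fl
        rw [if_pos hC]
      rw [Finset.sum_add_distrib, Finset.sum_add_distrib]
      omega
    · push Not at h1 h2
      have : ∑ j ∈ J n K, (F.c1 K j t + F.c2 K j t + F.c3 K j t) = 0 := by
        apply Finset.sum_eq_zero
        intro j _
        have e1 : F.c1 K j t = 0 := by
          unfold c1; rw [if_neg (h1 j)]
        have e2 : F.c2 K j t = 0 := by
          unfold c2
          rw [if_neg]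
          rintro ⟨_, C', _, h⟩
          rcases h with ⟨h, _⟩ | ⟨h, _⟩
          · exact h1 C' h
          · exact h2 C' h
        have e3 : F.c3 K j t = 0 := by
          unfold c3
          rw [if_neg (fun h => h2 j (Or.inr h))]
        omega
      rw [this]
      exact Nat.zero_le _

/-- number of distinct arcs of rank `> j` on the line on which `j` ends -/
noncomputable def mE (j : Fin n) : ℕ :=
  (up (F.P (F.E j - 1)) (F.P (F.E j - 1 + H)) j).card

open Classical in
/-- number of counted gap events of `j` in a period -/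
noncomputable def cE (K : ℕ) (j : Fin n) : ℕ :=
  ((Finset.Ico 0 (2 * H)).filter (fun t => F.EvE K j t)).card

theorem sum_c1 (K : ℕ) (j : Fin n) :
    ∑ t ∈ Finset.Ico 0 (2 * H), F.c1 K j t = 2 * (K - j.val) := by
  classical
  have h : ∀ t, F.c1 K j t = (if F.StartAt j t then K - j.val else 0) +
      (if F.EndAt j t then K - j.val else 0) := by
    intro t
    unfold c1 Ev
    by_cases hs : F.StartAt j t
    · rw [if_pos (Or.inl hs), if_pos hs, if_neg (fun he => F.not_start_end hs he), add_zero]
    · by_cases he : F.EndAt j t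
      · rw [if_pos (Or.inr he), if_neg hs, if_pos he, zero_add]
      · rw [if_neg (fun h => h.elim hs he), if_neg hs, if_neg he]
  rw [Finset.sum_congr rfl (fun t _ => h t), Finset.sum_add_distrib, ← Finset.sum_filter,
    ← Finset.sum_filter, Finset.sum_const, Finset.sum_const, F.card_start, F.card_end]
  simp only [smul_eq_mul]
  ring

theorem sum_c2 (K : ℕ) (j : Fin n) :
    ∑ t ∈ Finset.Ico 0 (2 * H), F.c2 K j t = F.cE K j := by
  classical
  unfold c2 cE
  rw [← Finset.sum_filter, Finset.sum_const, smul_eq_mul, mul_one]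

theorem sum_c3 (K : ℕ) (j : Fin n) :
    K - j.val - F.mE j ≤ ∑ t ∈ Finset.Ico 0 (2 * H), F.c3 K j t := by
  classical
  have hH := F.two_mul_H_pos
  set t0 := (F.E j - 1 - H) % (2 * H) with ht0
  have h3 := Int.emod_add_mul_ediv (F.E j - 1 - H) (2 * H)
  have hmem : t0 ∈ Finset.Ico 0 (2 * H) := by
    rw [Finset.mem_Ico]
    exact ⟨Int.emod_nonneg _ hH.ne', Int.emod_lt_of_pos _ hH⟩
  have hend : F.EndAt j (t0 + H) := by
    rw [F.endAt_iff]
    refine ⟨(F.E j - 1 - H) / (2 * H), ?_⟩
    rw [← ht0] at h3
    linarith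
  have e1 : F.P (t0 + H) = F.P (F.E j - 1) := by
    have := F.P_add (t0 + H) ((F.E j - 1 - H) / (2 * H))
    rw [← this]
    congr 1
    rw [← ht0] at h3
    linarith
  have e2 : F.P t0 = F.P (F.E j - 1 + H) := by
    have := F.P_add t0 ((F.E j - 1 - H) / (2 * H) + 1)
    rw [← this]
    congr 1
    rw [← ht0] at h3
    rw [mul_add]
    linarith
  have h4 : F.c3 K j t0 = K - j.val - F.mE j := by
    unfold c3 mE
    rw [if_pos hend, e1, e2, up_swap]
  rw [← h4]
  exact Finset.single_le_sum (f := fun t => F.c3 K j t) (fun _ _ => Nat.zero_le _) hmem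

theorem loss_bound (K : ℕ) :
    ∑ j ∈ J n K, (2 * (K - j.val) + F.cE K j + (K - j.val - F.mE j)) ≤
      ∑ t ∈ Finset.Ico 0 (2 * H), ∑ C : Fin n, (F.nl K C t + F.fl K C t) := by
  calc ∑ j ∈ J n K, (2 * (K - j.val) + F.cE K j + (K - j.val - F.mE j))
      ≤ ∑ j ∈ J n K, ∑ t ∈ Finset.Ico 0 (2 * H), (F.c1 K j t + F.c2 K j t + F.c3 K j t) := by
        apply Finset.sum_le_sum
        intro j _
        rw [Finset.sum_add_distrib, Finset.sum_add_distrib, F.sum_c1, F.sum_c2]
        have := F.sum_c3 K j
        omega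
    _ = ∑ t ∈ Finset.Ico 0 (2 * H), ∑ j ∈ J n K, (F.c1 K j t + F.c2 K j t + F.c3 K j t) :=
        Finset.sum_comm
    _ ≤ _ := by
        apply Finset.sum_le_sum
        intro t _
        exact F.claims_point K t

/-! ### persistent tokens -/

/-- persistent tokens over the gap of `j` -/
noncomputable def PG (K : ℕ) (j : Fin n) : Finset (Fin n × Prop) :=
  F.Pers (K - j.val) j (F.E j - 1) (F.S j + 2 * H)

theorem gap_tokens (K : ℕ) (j : Fin n) :
    min (K - j.val) (F.mE j) ≤ (F.PG K j).card + F.cE K j := by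
  classical
  have hH := F.two_mul_H_pos
  have hlt := F.lt j
  have hlen := F.len j
  set a := F.E j - 1 with ha
  have hi : a + ((F.S j + 2 * H - a).toNat : ℤ) = F.S j + 2 * H := by
    rw [Int.toNat_of_nonneg (by linarith)]
    ring
  have h1 := F.persist (K - j.val) j a (F.S j + 2 * H - a).toNat
  rw [hi] at h1
  have h2 : (F.T (K - j.val) j a).card = min (K - j.val) (F.mE j) := by
    unfold T mE
    rw [card_Tok]
  have h3 : F.cEv (K - j.val) j a (F.S j + 2 * H) ≤ F.cE K j := by
    unfold cEv cE
    have h4 : (Finset.Ico a (F.S j + 2 * H)).filter (fun t => F.EvT (K - j.val) j t) ⊆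
        (Finset.Ico a (F.S j + 2 * H)).filter (fun t => F.EvE K j t) := by
      intro t ht
      rw [Finset.mem_filter, Finset.mem_Ico] at ht ⊢
      refine ⟨ht.1, ?_, ht.2⟩
      -- no event of another arc at the end time of `j`
      rintro ⟨m, g1, g2⟩
      have hjend : F.Ev j a := Or.inr (by rw [F.endAt_iff]; exact ⟨0, by rw [ha]; ring⟩)
      by_cases hta : t = a
      · obtain ⟨C, hjC, hC⟩ := ht.2
        rw [hta] at hC
        rcases hC with ⟨hC, _⟩ | ⟨hC, _⟩
        · have := (F.ev_uniq (m := 0) hjend (by rw [mul_zero, add_zero]; exact hC)).1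
          exact hjC.ne this
        · have := (F.ev_uniq (m := 1) hjend (by rw [mul_one]; exact hC)).1
          exact hjC.ne this
      · have h5 : a < t := lt_of_le_of_ne ht.1.1 (Ne.symm hta)
        -- E j ≤ t < S j + 2H, so t is in the gap
        rcases lt_trichotomy m 0 with hm | hm | hm
        · have : 2 * H * m ≤ 2 * H * (-1) := mul_le_mul_of_nonneg_left (by omega) hH.le
          linarith [ht.1.2]
        · rw [hm, mul_zero, add_zero] at g2
          linarith
        · have : 2 * H * 1 ≤ 2 * H * m := mul_le_mul_of_nonneg_left (by omega) hH.le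
          linarith
    refine (Finset.card_le_card h4).trans ?_
    apply card_window_le hH
    · intro t m
      unfold EvE
      rw [F.pres_add, F.evT_add]
    · linarith
  have h5 : F.PG K j = F.Pers (K - j.val) j a (F.S j + 2 * H) := rfl
  rw [h5]
  omega

open Classical in
/-- the number of births of the pair `p` in a period -/
noncomputable def β (K : ℕ) (p : Fin n × Fin n) : ℕ :=
  ((Finset.Ico 0 (2 * H)).filter (fun t => F.Bi K p.1 p.2 t)).card

theorem sum_β (K : ℕ) :
    ∑ p : Fin n × Fin n, F.β K p = ∑ t ∈ Finset.Ico 0 (2 * H), F.G K t := by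
  classical
  have h1 : ∀ t, F.G K t = ∑ p : Fin n × Fin n, if F.Bi K p.1 p.2 t then 1 else 0 := by
    intro t
    unfold G births Bi
    rw [← Finset.sum_filter, Finset.sum_const, smul_eq_mul, mul_one]
  have h2 : ∀ p, F.β K p = ∑ t ∈ Finset.Ico 0 (2 * H), if F.Bi K p.1 p.2 t then 1 else 0 := by
    intro p
    unfold β
    rw [← Finset.sum_filter, Finset.sum_const, smul_eq_mul, mul_one]
  rw [Finset.sum_congr rfl (fun p _ => h2 p), Finset.sum_congr rfl (fun t _ => h1 t),
    Finset.sum_comm]

open Classical in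
/-- visible pairs -/
noncomputable def VP (K : ℕ) : Finset (Fin n × Fin n) :=
  Finset.univ.filter (fun p => ∃ t, F.V K p.1 p.2 t)

theorem emod_rep (t : ℤ) : ∃ m : ℤ, t % (2 * H) + 2 * H * m = t :=
  ⟨t / (2 * H), Int.emod_add_mul_ediv t (2 * H)⟩

theorem β_pos {K : ℕ} {p : Fin n × Fin n} (hp : p ∈ F.VP K) : 1 ≤ F.β K p := by
  classical
  have hH := F.two_mul_H_pos
  unfold VP at hp
  rw [Finset.mem_filter] at hp
  obtain ⟨_, t, ht⟩ := hp
  obtain ⟨t0, h1, h2, h3⟩ := F.exists_absent p.1 (t - 2 * H)
  obtain ⟨t1, g1, g2, g3, g4⟩ := exists_switch (fun t => F.V K p.1 p.2 t)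
    (show t0 ≤ t by linarith) (fun h => h3 h.2.1) ht
  have hB : F.Bi K p.1 p.2 t1 := ⟨g4, Or.inl g3⟩
  unfold β
  rw [Nat.one_le_iff_ne_zero, Ne, Finset.card_eq_zero]
  intro hempty
  have : t1 % (2 * H) ∈ (Finset.Ico 0 (2 * H)).filter (fun t => F.Bi K p.1 p.2 t) := by
    rw [Finset.mem_filter, Finset.mem_Ico]
    refine ⟨⟨Int.emod_nonneg _ hH.ne', Int.emod_lt_of_pos _ hH⟩, ?_⟩
    obtain ⟨m, hm⟩ := emod_rep (H := H) t1
    rw [← F.Bi_add K p.1 p.2 _ m, hm]
    exact hB
  rw [hempty] at this
  exact absurd this (Finset.notMem_empty _)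

theorem β_two {K : ℕ} {j y : Fin n} {a b : ℤ} (ha : F.Bi K j y a) (hb : F.Bi K j y b)
    (h1 : a < b) (h2 : b < a + 2 * H) : 2 ≤ F.β K (j, y) := by
  classical
  have hH := F.two_mul_H_pos
  unfold β
  have hm : ∀ c, F.Bi K j y c →
      c % (2 * H) ∈ (Finset.Ico 0 (2 * H)).filter (fun t => F.Bi K (j, y).1 (j, y).2 t) := by
    intro c hc
    rw [Finset.mem_filter, Finset.mem_Ico]
    refine ⟨⟨Int.emod_nonneg _ hH.ne', Int.emod_lt_of_pos _ hH⟩, ?_⟩
    obtain ⟨m, hm⟩ := emod_rep (H := H) c
    rw [← F.Bi_add K _ _ _ m, hm]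
    exact hc
  have hne : a % (2 * H) ≠ b % (2 * H) := by
    intro h
    have h3 := Int.emod_add_mul_ediv a (2 * H)
    have h4 := Int.emod_add_mul_ediv b (2 * H)
    have h5 : b - a = 2 * H * (b / (2 * H) - a / (2 * H)) := by rw [mul_sub]; linarith
    have h6 := step_pos hH (show 0 < 2 * H * (b / (2 * H) - a / (2 * H)) by linarith)
    linarith
  calc 2 = ({a % (2 * H), b % (2 * H)} : Finset ℤ).card := (Finset.card_pair hne).symm
    _ ≤ _ := Finset.card_le_card (by
      intro x hx
      rw [Finset.mem_insert, Finset.mem_singleton] at hx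
      rcases hx with rfl | rfl
      · exact hm a ha
      · exact hm b hb)

open Classical in
/-- the pairs which are born at least twice because of a persistent token -/
noncomputable def DP (K : ℕ) : Finset (Fin n × Fin n) :=
  (J n K).biUnion (fun j => (F.PG K j).image (fun x => (j, x.1)))

theorem DP_spec {K : ℕ} {p : Fin n × Fin n} (hp : p ∈ F.DP K) : p ∈ F.VP K ∧ 2 ≤ F.β K p := by
  classical
  unfold DP at hp
  rw [Finset.mem_biUnion] at hp
  obtain ⟨j, _, hp⟩ := hp
  rw [Finset.mem_image] at hp
  obtain ⟨⟨y, σ⟩, hx, rfl⟩ := hp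
  unfold PG at hx
  rw [F.mem_Pers] at hx
  obtain ⟨h1, t, h2, h3, h4⟩ := F.two_births (K := K) (j := j) (y := y) (σ := σ) hx.2
  refine ⟨?_, F.β_two h1 h4 h2 h3⟩
  unfold VP
  rw [Finset.mem_filter]
  exact ⟨Finset.mem_univ _, _, h1.1⟩

theorem DP_card (K : ℕ) : (F.DP K).card = ∑ j ∈ J n K, (F.PG K j).card := by
  classical
  unfold DP
  rw [Finset.card_biUnion]
  · apply Finset.sum_congr rfl
    intro j _
    rw [Finset.card_image_of_injOn]
    intro x hx y hy hxy
    rw [Finset.mem_coe] at hx hy
    unfold PG at hx hy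
    rw [F.mem_Pers] at hx hy
    have h1 := hx.1
    have h2 := hy.1
    unfold T at h1 h2
    rw [mem_Tok] at h1 h2
    have h3 : x.1 = y.1 := (Prod.ext_iff.1 hxy).2
    refine Prod.ext h3 ?_
    rw [h1.2.2, h2.2.2, h3]
  · intro j _ j' _ hjj'
    rw [Function.onFun, Finset.disjoint_left]
    intro p hp hp'
    rw [Finset.mem_image] at hp hp'
    obtain ⟨x, _, rfl⟩ := hp
    obtain ⟨y, _, hy⟩ := hp'
    exact hjj' (Prod.ext_iff.1 hy).1.symm

theorem VP_bound (K : ℕ) :
    (F.VP K).card + ∑ j ∈ J n K, (F.PG K j).card ≤ ∑ t ∈ Finset.Ico 0 (2 * H), F.G K t := by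
  classical
  rw [← F.sum_β, ← F.DP_card]
  have h1 : (F.VP K).card = ∑ p : Fin n × Fin n, if p ∈ F.VP K then 1 else 0 := by
    rw [← Finset.sum_filter, Finset.sum_const, smul_eq_mul, mul_one]
    congr 1
    ext p
    simp
  have h2 : (F.DP K).card = ∑ p : Fin n × Fin n, if p ∈ F.DP K then 1 else 0 := by
    rw [← Finset.sum_filter, Finset.sum_const, smul_eq_mul, mul_one]
    congr 1
    ext p
    simp
  rw [h1, h2, ← Finset.sum_add_distrib]
  apply Finset.sum_le_sum
  intro p _
  by_cases hD : p ∈ F.DP K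
  · have := F.DP_spec hD
    rw [if_pos hD, if_pos this.1]
    exact this.2
  · rw [if_neg hD]
    by_cases hV : p ∈ F.VP K
    · rw [if_pos hV]
      exact F.β_pos hV
    · rw [if_neg hV]
      exact Nat.zero_le _

theorem sum_J {K : ℕ} (hK : K ≤ n) : 2 * ∑ j ∈ J n K, (K - j.val) = K * (K + 1) := by
  have h1 : ∑ j ∈ J n K, (K - j.val) = ∑ i ∈ Finset.range K, (K - i) := by
    apply Finset.sum_bij (fun (j : Fin n) _ => j.val)
    · intro j hj
      rw [J, Finset.mem_filter] at hj
      rw [Finset.mem_range]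
      exact hj.2
    · intro a _ b _ h
      exact Fin.ext h
    · intro b hb
      rw [Finset.mem_range] at hb
      refine ⟨⟨b, by omega⟩, ?_, rfl⟩
      rw [J, Finset.mem_filter]
      exact ⟨Finset.mem_univ _, hb⟩
    · intro a _
      rfl
  rw [h1]
  have h2 : ∀ m : ℕ, 2 * ∑ i ∈ Finset.range m, (m - i) = m * (m + 1) := by
    intro m
    induction m with
    | zero => simp
    | succ m ih =>
      rw [Finset.sum_range_succ']
      have : ∑ i ∈ Finset.range m, (m + 1 - (i + 1)) = ∑ i ∈ Finset.range m, (m - i) :=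
        Finset.sum_congr rfl (fun i _ => by omega)
      rw [this, mul_add, ih, Nat.sub_zero]
      ring
  exact h2 K

/-- The edge bound for separated families. -/
theorem edge_bound {K : ℕ} (hfat : F.Fat K) (hK : K ≤ n) :
    2 * (F.VP K).card + 3 * (K * (K + 1)) ≤ 2 * (3 * K * n) := by
  have h1 := F.total_bound hfat
  rw [Finset.sum_add_distrib] at h1
  have h2 := F.loss_bound K
  have h3 := F.VP_bound K
  have h4 : ∑ j ∈ J n K, 3 * (K - j.val) ≤
      ∑ j ∈ J n K, (2 * (K - j.val) + F.cE K j + (K - j.val - F.mE j)) +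
      ∑ j ∈ J n K, (F.PG K j).card := by
    rw [← Finset.sum_add_distrib]
    apply Finset.sum_le_sum
    intro j _
    have := F.gap_tokens K j
    omega
  rw [← Finset.mul_sum] at h4
  have h5 := sum_J (n := n) hK
  omega

end Sep

end Pool.Agent.ArcVis
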