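import Pool.Agent.ArcVis.Defs
import Pool.Agent.ArcVis.SepBound

/-! # The edge bound for discrete families: extension and refinement -/

namespace Pool.Agent.ArcVis

open Finset

namespace Fam

variable {n N : ℕ} (F : Fam n N)

/-- arc `a` is on the line through ray `t` -/
def onl (a : Fin n) (t : ℤ) : Prop := ∃ m : ℤ, F.s a ≤ t + N * m ∧ t + N * m ≤ F.e a

theorem onl_iff (a : Fin n) (t : ℤ) : F.onl a t ↔ F.pres a t ∨ F.pres a (t + N) := by
  constructor
  · rintro ⟨m, h1, h2⟩
    rcases Int.even_or_odd' m with ⟨c, hc | hc⟩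
    · left
      refine ⟨c, ?_, ?_⟩ <;> rw [hc] at h1 h2
      · calc F.s a ≤ t + N * (2 * c) := h1
          _ = t + 2 * N * c := by ring
      · calc t + 2 * N * c = t + N * (2 * c) := by ring
          _ ≤ F.e a := h2
    · right
      refine ⟨c, ?_, ?_⟩ <;> rw [hc] at h1 h2
      · calc F.s a ≤ t + N * (2 * c + 1) := h1
          _ = t + N + 2 * N * c := by ring
      · calc t + N + 2 * N * c = t + N * (2 * c + 1) := by ring
          _ ≤ F.e a := h2
  · rintro (⟨m, h1, h2⟩ | ⟨m, h1, h2⟩)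
    · refine ⟨2 * m, ?_, ?_⟩
      · calc F.s a ≤ t + 2 * N * m := h1
          _ = t + N * (2 * m) := by ring
      · calc t + N * (2 * m) = t + 2 * N * m := by ring
          _ ≤ F.e a := h2
    · refine ⟨2 * m + 1, ?_, ?_⟩
      · calc F.s a ≤ t + N + 2 * N * m := h1
          _ = t + N * (2 * m + 1) := by ring
      · calc t + N * (2 * m + 1) = t + N + 2 * N * m := by ring
          _ ≤ F.e a := h2

theorem onl_add (a : Fin n) (t m : ℤ) : F.onl a (t + N * m) ↔ F.onl a t := by
  constructor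
  · rintro ⟨m', h1, h2⟩
    refine ⟨m + m', ?_, ?_⟩ <;> rw [mul_add] <;> linarith
  · rintro ⟨m', h1, h2⟩
    refine ⟨m' - m, ?_, ?_⟩ <;> rw [mul_sub] <;> linarith

theorem pres_add (a : Fin n) (t m : ℤ) : F.pres a (t + 2 * N * m) ↔ F.pres a t := by
  constructor
  · rintro ⟨m', h1, h2⟩
    refine ⟨m + m', ?_, ?_⟩ <;> rw [mul_add] <;> linarith
  · rintro ⟨m', h1, h2⟩
    refine ⟨m' - m, ?_, ?_⟩ <;> rw [mul_sub] <;> linarith

open Classical in
/-- arcs on the line through ray `t` -/
noncomputable def L (t : ℤ) : Finset (Fin n) := Finset.univ.filter (fun a => F.onl a t)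

theorem mem_L {a : Fin n} {t : ℤ} : a ∈ F.L t ↔ F.onl a t := by
  classical
  unfold L
  simp

/-- on a line with at most `k + 2` arcs all pairs are visible -/
theorem visAt_of_few {k : ℕ} {a b : Fin n} {t : ℤ} (hab : a < b) (ha : F.pres a t)
    (hb : F.pres b t ∨ F.pres b (t + N)) (hL : (F.L t).card ≤ k + 2) : F.visAt k a b t := by
  classical
  have haL : a ∈ F.L t := F.mem_L.2 ((F.onl_iff a t).2 (Or.inl ha))
  have hbL : b ∈ F.L t := F.mem_L.2 ((F.onl_iff b t).2 hb)
  have hcard : (((F.L t).erase a).erase b).card ≤ k := by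
    rw [Finset.card_erase_of_mem, Finset.card_erase_of_mem haL]
    · omega
    · rw [Finset.mem_erase]
      exact ⟨hab.ne', hbL⟩
  refine ⟨ha, ?_⟩
  rcases hb with hb | hb
  · left
    refine ⟨hb, le_trans ?_ hcard⟩
    rw [← Set.ncard_coe_finset]
    apply Set.ncard_le_ncard _ (Finset.finite_toSet _)
    rintro c ⟨h1, h2, h3⟩
    rw [Finset.mem_coe, Finset.mem_erase, Finset.mem_erase]
    exact ⟨h2.ne, h1.ne', F.mem_L.2 ((F.onl_iff c t).2 (Or.inl h3))⟩
  · right
    refine ⟨hb, le_trans ?_ hcard⟩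
    rw [← Set.ncard_coe_finset]
    apply Set.ncard_le_ncard _ (Finset.finite_toSet _)
    rintro c ⟨h1, h2, h3⟩
    rw [Finset.mem_coe, Finset.mem_erase, Finset.mem_erase]
    refine ⟨h2, h1, F.mem_L.2 ((F.onl_iff c t).2 ?_)⟩
    rcases h3 with h3 | h3
    · exact Or.inl h3.2
    · exact Or.inr h3.2

/-- the family with the end of arc `c` moved to `x` -/
def setEnd (c : Fin n) (x : ℤ) (h1 : F.s c ≤ x) (h2 : x ≤ F.s c + 2 * N - 2) : Fam n N where
  s := F.s
  e := fun a => if a = c then x else F.e a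
  le := by
    intro a
    by_cases h : a = c
    · rw [if_pos h, h]; exact h1
    · rw [if_neg h]; exact F.le a
  len := by
    intro a
    by_cases h : a = c
    · rw [if_pos h, h]; exact h2
    · rw [if_neg h]; exact F.len a

/-- One extension step. -/
theorem extend {k : ℕ} (hN : 1 ≤ N) (hn : k + 2 ≤ n) {t0 : ℤ} (ht0 : (F.L t0).card ≤ k + 1) :
    ∃ F' : Fam n N, F.edges k ⊆ F'.edges k ∧
      ∑ a, (F.e a - F.s a) < ∑ a, (F'.e a - F'.s a) := by
  classical
  have hNpos : (0 : ℤ) < N := by exact_mod_cast hN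
  -- existence of an arc not on the line
  obtain ⟨c0, hc0⟩ : ∃ c0 : Fin n, c0 ∉ F.L t0 := by
    by_contra hcon
    push Not at hcon
    have : (F.L t0) = Finset.univ := Finset.eq_univ_iff_forall.2 hcon
    rw [this, Finset.card_univ, Fintype.card_fin] at ht0
    omega
  have hex : ∃ d : ℕ, 1 ≤ d ∧ ∃ c, c ∉ F.L t0 ∧ ∃ m : ℤ, F.e c + d = t0 + N * m := by
    refine ⟨((t0 - F.e c0 - 1) % N).toNat + 1, by omega, c0, hc0, -((t0 - F.e c0 - 1) / N), ?_⟩
    have h1 := Int.emod_nonneg (t0 - F.e c0 - 1) hNpos.ne'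
    push_cast
    rw [Int.toNat_of_nonneg h1]
    have := Int.emod_add_mul_ediv (t0 - F.e c0 - 1) (N : ℤ)
    rw [mul_neg]
    linarith
  set d := Nat.find hex with hd
  obtain ⟨hd1, c, hc, m0, hm0⟩ := Nat.find_spec hex
  rw [← hd] at hd1 hm0
  have hmin : ∀ d' : ℕ, d' < d → 1 ≤ d' → ∀ b, b ∉ F.L t0 → ∀ m : ℤ,
      F.e b + d' ≠ t0 + N * m := by
    intro d' h1 h2 b hb m h3
    exact Nat.find_min hex h1 ⟨h2, b, hb, m, h3⟩
  set τ := F.e c + d with hτ
  have hcoff : ¬ F.onl c τ := by
    intro h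
    apply hc
    rw [F.mem_L, ← F.onl_add c t0 m0, ← hm0]
    exact h
  -- Claim 1
  have claim1 : ∀ i : ℕ, i < d → ∀ b, F.onl b (τ - i) → b ∈ F.L t0 := by
    rintro i hi b ⟨m', h1, h2⟩
    by_contra hb
    have h3 : ¬ F.onl b τ := by
      intro h
      apply hb
      rw [F.mem_L, ← F.onl_add b t0 m0, ← hm0]
      exact h
    have h4 : F.e b < τ + N * m' := by
      by_contra h5
      rw [not_lt] at h5
      exact h3 ⟨m', by linarith [Int.natCast_nonneg i], h5⟩
    have h5 : ((τ + N * m' - F.e b).toNat : ℤ) = τ + N * m' - F.e b :=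
      Int.toNat_of_nonneg (by linarith)
    refine hmin (τ + N * m' - F.e b).toNat ?_ ?_ b hb (m0 + m') ?_
    · have : ((τ + N * m' - F.e b).toNat : ℤ) < d := by
        rw [h5]
        have : (i : ℤ) < d := by exact_mod_cast hi
        linarith
      exact_mod_cast this
    · have : (1 : ℤ) ≤ ((τ + N * m' - F.e b).toNat : ℤ) := by
        rw [h5]; linarith
      exact_mod_cast this
    · rw [h5, mul_add]
      linarith
  -- d ≤ N
  have hdN : (d : ℤ) ≤ N := by
    by_contra hcon
    rw [not_le] at hcon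
    have h5 : (((d : ℤ) - N).toNat : ℤ) = d - N := Int.toNat_of_nonneg (by linarith)
    refine hmin ((d : ℤ) - N).toNat ?_ ?_ c hc (m0 - 1) ?_
    · have : (((d : ℤ) - N).toNat : ℤ) < d := by rw [h5]; linarith
      exact_mod_cast this
    · have : (1 : ℤ) ≤ (((d : ℤ) - N).toNat : ℤ) := by rw [h5]; linarith
      exact_mod_cast this
    · rw [h5, mul_sub, mul_one]
      linarith
  -- Claim 2
  have hτs : τ < F.s c + N := by
    by_contra hcon
    rw [not_lt] at hcon
    exact hcoff ⟨-1, by rw [mul_neg, mul_one]; linarith, by rw [mul_neg, mul_one]; linarith⟩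
  have hdpos : (1 : ℤ) ≤ d := by exact_mod_cast hd1
  have hx1 : F.s c ≤ τ := by have := F.le c; linarith
  have hx2 : τ ≤ F.s c + 2 * N - 2 := by linarith
  refine ⟨F.setEnd c τ hx1 hx2, ?_, ?_⟩
  · -- edges are preserved
    set F' := F.setEnd c τ hx1 hx2 with hF'
    have hs' : ∀ a, F'.s a = F.s a := fun a => rfl
    have he' : ∀ a, a ≠ c → F'.e a = F.e a := fun a h => if_neg h
    have hec' : F'.e c = τ := if_pos rfl
    have hmono : ∀ a t, F.pres a t → F'.pres a t := by
      rintro a t ⟨m, h1, h2⟩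
      refine ⟨m, h1, ?_⟩
      by_cases ha : a = c
      · subst ha; rw [hec']; linarith
      · rw [he' a ha]; exact h2
    have hnew : ∀ a t, F'.pres a t → ¬ F.pres a t →
        a = c ∧ ∃ (i : ℕ) (m : ℤ), i < d ∧ t + 2 * N * m = τ - i := by
      rintro a t ⟨m, h1, h2⟩ h3
      by_cases ha : a = c
      · subst ha
        refine ⟨rfl, ?_⟩
        rw [hec'] at h2
        rw [hs'] at h1
        have h4 : F.e a < t + 2 * N * m := by
          by_contra h5
          rw [not_lt] at h5
          exact h3 ⟨m, h1, h5⟩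
        have h5 : ((τ - (t + 2 * N * m)).toNat : ℤ) = τ - (t + 2 * N * m) :=
          Int.toNat_of_nonneg (by linarith)
        refine ⟨(τ - (t + 2 * N * m)).toNat, m, ?_, by rw [h5]; ring⟩
        have : ((τ - (t + 2 * N * m)).toNat : ℤ) < d := by rw [h5]; linarith
        exact_mod_cast this
      · exfalso
        rw [he' a ha] at h2
        exact h3 ⟨m, h1, h2⟩
    rintro ⟨a, b⟩ ⟨hab, t, hvis⟩
    simp only at hab hvis
    refine ⟨hab, t, ?_⟩
    simp only
    have hbon : F.pres b t ∨ F.pres b (t + N) := by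
      rcases hvis.2 with h | h
      · exact Or.inl h.1
      · exact Or.inr h.1
    by_cases haff : ∃ x, (F'.pres x t ∧ ¬ F.pres x t) ∨ (F'.pres x (t + N) ∧ ¬ F.pres x (t + N))
    · -- affected line: few arcs
      have hfew : ∀ b, F.onl b t → b ∈ F.L t0 := by
        obtain ⟨x, hx⟩ := haff
        rcases hx with ⟨h1, h2⟩ | ⟨h1, h2⟩
        · obtain ⟨_, i, m, hi, hm⟩ := hnew x t h1 h2
          intro y hy
          apply claim1 i hi y
          rw [← hm, show t + 2 * (N : ℤ) * m = t + N * (2 * m) by ring, F.onl_add]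
          exact hy
        · obtain ⟨_, i, m, hi, hm⟩ := hnew x (t + N) h1 h2
          intro y hy
          apply claim1 i hi y
          rw [← hm, show t + (N : ℤ) + 2 * (N : ℤ) * m = t + N * (1 + 2 * m) by ring, F.onl_add]
          exact hy
      have hL' : F'.L t ⊆ insert c (F.L t0) := by
        intro y hy
        rw [Finset.mem_insert]
        by_cases hyc : y = c
        · exact Or.inl hyc
        · right
          apply hfew
          rw [F'.mem_L] at hy
          obtain ⟨m, h1, h2⟩ := hy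
          exact ⟨m, h1, by rw [← he' y hyc]; exact h2⟩
      apply F'.visAt_of_few hab (hmono a t hvis.1)
      · exact hbon.imp (hmono b t) (hmono b (t + N))
      · have := (Finset.card_le_card hL').trans (Finset.card_insert_le _ _)
        omega
    · -- unaffected line
      have h1 : ∀ x, F'.pres x t ↔ F.pres x t := by
        intro x
        refine ⟨fun h => ?_, hmono x t⟩
        by_contra h2
        exact haff ⟨x, Or.inl ⟨h, h2⟩⟩
      have h2 : ∀ x, F'.pres x (t + N) ↔ F.pres x (t + N) := by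
        intro x
        refine ⟨fun h => ?_, hmono x (t + N)⟩
        by_contra h2
        exact haff ⟨x, Or.inr ⟨h, h2⟩⟩
      unfold visAt at hvis ⊢
      simp only [h1, h2]
      exact hvis
  · apply Finset.sum_lt_sum
    · intro a _
      by_cases ha : a = c
      · subst ha
        have : (F.setEnd a τ hx1 hx2).e a = τ := if_pos rfl
        rw [this]
        have : (F.setEnd a τ hx1 hx2).s a = F.s a := rfl
        rw [this]
        linarith
      · have : (F.setEnd c τ hx1 hx2).e a = F.e a := if_neg ha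
        rw [this]
        have : (F.setEnd c τ hx1 hx2).s a = F.s a := rfl
        rw [this]
    · refine ⟨c, Finset.mem_univ _, ?_⟩
      have : (F.setEnd c τ hx1 hx2).e c = τ := if_pos rfl
      rw [this]
      have : (F.setEnd c τ hx1 hx2).s c = F.s c := rfl
      rw [this]
      linarith

/-- Without loss of generality all lines carry at least `k + 2` arcs. -/
theorem exists_fat {k : ℕ} (hN : 1 ≤ N) (hn : k + 2 ≤ n) (F : Fam n N) :
    ∃ F' : Fam n N, F.edges k ⊆ F'.edges k ∧ ∀ t, k + 2 ≤ (F'.L t).card := by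
  classical
  have key : ∀ (M : ℕ) (F : Fam n N),
      ((n : ℤ) * (2 * N - 2) - ∑ a, (F.e a - F.s a)).toNat = M →
      ∃ F' : Fam n N, F.edges k ⊆ F'.edges k ∧ ∀ t, k + 2 ≤ (F'.L t).card := by
    intro M
    induction M using Nat.strong_induction_on with
    | _ M ih =>
      intro F hF
      by_cases hfat : ∀ t, k + 2 ≤ (F.L t).card
      · exact ⟨F, subset_rfl, hfat⟩
      · push Not at hfat
        obtain ⟨t0, ht0⟩ := hfat
        obtain ⟨F1, h1, h2⟩ := F.extend hN hn (show (F.L t0).card ≤ k + 1 by omega)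
        have hbound : ∀ G : Fam n N, ∑ a, (G.e a - G.s a) ≤ (n : ℤ) * (2 * N - 2) := by
          intro G
          calc ∑ a, (G.e a - G.s a) ≤ ∑ _a : Fin n, (2 * (N : ℤ) - 2) := by
                apply Finset.sum_le_sum
                intro a _
                have := G.len a
                linarith
            _ = (n : ℤ) * (2 * N - 2) := by
                rw [Finset.sum_const, Finset.card_univ, Fintype.card_fin, nsmul_eq_mul]
        have hlt : ((n : ℤ) * (2 * N - 2) - ∑ a, (F1.e a - F1.s a)).toNat < M := by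
          rw [← hF]
          have h3 := hbound F1
          have h4 := hbound F
          omega
        obtain ⟨F', h5, h6⟩ := ih _ hlt F1 rfl
        exact ⟨F', h1.trans h5, h6⟩
  exact key _ F rfl

/-! ### Refinement: one event at a time -/

theorem mod_aux {n : ℕ} {x y : ℤ} {q : ℤ} (h : 2 * (n : ℤ) * q = x - y) (hx : -(2 * n : ℤ) < x - y)
    (hy : x - y < 2 * n) : x = y := by
  have hn : (0 : ℤ) ≤ 2 * n := by positivity
  rcases lt_trichotomy q 0 with h1 | h1 | h1
  · have : 2 * (n : ℤ) * q ≤ 2 * n * (-1) := mul_le_mul_of_nonneg_left (by omega) hn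
    linarith
  · rw [h1, mul_zero] at h; linarith
  · have : 2 * (n : ℤ) * 1 ≤ 2 * n * q := mul_le_mul_of_nonneg_left (by omega) hn
    linarith

/-- the refined separated family -/
def toSep (hn : 1 ≤ n) (hN : 1 ≤ N) : Sep n (2 * n * N) where
  S := fun a => 2 * n * F.s a + a.val
  E := fun a => 2 * n * (F.e a + 1) + n + a.val
  hH := by
    have h1 : (1 : ℤ) ≤ n := by exact_mod_cast hn
    have h2 : (1 : ℤ) ≤ N := by exact_mod_cast hN
    positivity
  lt := by
    intro a
    have h1 : (1 : ℤ) ≤ n := by exact_mod_cast hn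
    have h2 := F.le a
    have h3 : 2 * (n : ℤ) * F.s a ≤ 2 * n * F.e a :=
      mul_le_mul_of_nonneg_left h2 (by positivity)
    rw [mul_add]
    linarith
  len := by
    intro a
    have h1 : (1 : ℤ) ≤ n := by exact_mod_cast hn
    have h2 := F.len a
    have h3 : 2 * (n : ℤ) * F.e a ≤ 2 * n * (F.s a + 2 * N - 2) :=
      mul_le_mul_of_nonneg_left h2 (by positivity)
    have h4 : 2 * (n : ℤ) * (F.s a + 2 * N - 2) = 2 * n * F.s a + 4 * n * N - 4 * n := by ring
    have h5 : 2 * (n : ℤ) * (F.e a + 1) = 2 * n * F.e a + 2 * n := by ring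
    have h6 : 2 * (2 * (n : ℤ) * N) = 4 * n * N := by ring
    rw [h5, h6]
    linarith
  sepS := by
    intro a b m h
    apply Fin.ext
    have ha := a.isLt
    have hb := b.isLt
    have h1 : 2 * (n : ℤ) * (F.s b + N * m - F.s a) = (a.val : ℤ) - b.val := by
      have : 2 * (n : ℤ) * (F.s b + N * m - F.s a) =
        2 * n * F.s b + 2 * n * N * m - 2 * n * F.s a := by ring
      rw [this]; linarith
    have := mod_aux h1 (by omega) (by omega)
    exact_mod_cast this
  sepE := by
    intro a b m h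
    apply Fin.ext
    have ha := a.isLt
    have hb := b.isLt
    have h1 : 2 * (n : ℤ) * (F.e b + N * m - F.e a) = (a.val : ℤ) - b.val := by
      have : 2 * (n : ℤ) * (F.e b + N * m - F.e a) =
        2 * n * (F.e b + 1) + 2 * n * N * m - 2 * n * (F.e a + 1) := by ring
      rw [this]; linarith
    have := mod_aux h1 (by omega) (by omega)
    exact_mod_cast this
  sepSE := by
    intro a b m h
    have ha := a.isLt
    have hb := b.isLt
    have h1 : 2 * (n : ℤ) * (F.e b + 1 + N * m - F.s a) = (a.val : ℤ) - (n + b.val) := by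
      have : 2 * (n : ℤ) * (F.e b + 1 + N * m - F.s a) =
        2 * n * (F.e b + 1) + 2 * n * N * m - 2 * n * F.s a := by ring
      rw [this]; linarith
    have := mod_aux h1 (by omega) (by omega)
    omega

theorem lin_le_iff {n : ℕ} {x y : ℤ} {p q : ℤ} (hp : 0 ≤ p) (hq : p ≤ q) (hqn : q < 2 * n) :
    2 * (n : ℤ) * x + p ≤ 2 * n * y + q ↔ x ≤ y := by
  have hn : (0 : ℤ) ≤ 2 * n := by positivity
  constructor
  · intro h
    by_contra hcon
    rw [not_le] at hcon
    have : 2 * (n : ℤ) * (y + 1) ≤ 2 * n * x := mul_le_mul_of_nonneg_left (by omega) hn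
    rw [mul_add] at this
    linarith
  · intro h
    have : 2 * (n : ℤ) * x ≤ 2 * n * y := mul_le_mul_of_nonneg_left h hn
    linarith

theorem toSep_pres (hn : 1 ≤ n) (hN : 1 ≤ N) (a : Fin n) (t : ℤ) :
    (F.toSep hn hN).pres a (2 * n * t + (2 * n - 1)) ↔ F.pres a t := by
  have ha := a.isLt
  have key : ∀ m : ℤ, ((F.toSep hn hN).S a ≤ 2 * n * t + (2 * n - 1) + 2 * (2 * n * N) * m ∧
      2 * n * t + (2 * n - 1) + 2 * (2 * n * N) * m < (F.toSep hn hN).E a) ↔
      (F.s a ≤ t + 2 * N * m ∧ t + 2 * N * m ≤ F.e a) := by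
    intro m
    have e1 : 2 * (n : ℤ) * t + (2 * n - 1) + 2 * (2 * n * N) * m =
        2 * n * (t + 2 * N * m) + (2 * n - 1) := by ring
    rw [e1]
    have e2 : (F.toSep hn hN).S a = 2 * n * F.s a + a.val := rfl
    have e3 : (F.toSep hn hN).E a = 2 * n * (F.e a + 1) + n + a.val := rfl
    rw [e2, e3, lin_le_iff (n := n) (by positivity) (by omega) (by omega)]
    apply and_congr_right
    intro _
    constructor
    · intro h
      by_contra hcon
      rw [not_le] at hcon
      have : 2 * (n : ℤ) * (F.e a + 1) ≤ 2 * n * (t + 2 * N * m) :=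
        mul_le_mul_of_nonneg_left (by omega) (by positivity)
      omega
    · intro h
      have : 2 * (n : ℤ) * (t + 2 * N * m) ≤ 2 * n * F.e a :=
        mul_le_mul_of_nonneg_left h (by positivity)
      have h2 : 2 * (n : ℤ) * (F.e a + 1) = 2 * n * F.e a + 2 * n := by ring
      rw [h2]
      omega
  constructor
  · rintro ⟨m, hm⟩
    exact ⟨m, (key m).1 hm⟩
  · rintro ⟨m, hm⟩
    exact ⟨m, (key m).2 hm⟩

/-- visibility on a line, in terms of `Vis` -/
theorem vis_of_visAt {k : ℕ} {a b : Fin n} {t : ℤ} {P Q : Finset (Fin n)}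
    (hP : ∀ x, x ∈ P ↔ F.pres x t) (hQ : ∀ x, x ∈ Q ↔ F.pres x (t + N)) (hab : a < b)
    (h : F.visAt k a b t) : Vis (k + 1) P Q a b := by
  classical
  obtain ⟨ha, h⟩ := h
  have hbU : b ∈ P ∪ Q := by
    rw [Finset.mem_union, hP, hQ]
    rcases h with h | h
    · exact Or.inl h.1
    · exact Or.inr h.1
  refine ⟨hab, (hP a).2 ha, hbU, ?_⟩
  rw [Nat.lt_succ_iff]
  by_cases hbP : b ∈ P
  · rw [dep_near hbP]
    rcases h with h | h
    · refine le_trans ?_ h.2
      rw [← Set.ncard_coe_finset]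
      apply Set.ncard_le_ncard _ (Set.toFinite _)
      intro c hc
      rw [Finset.mem_coe, mid, Finset.mem_filter, hP] at hc
      exact ⟨hc.2.1, hc.2.2, hc.1⟩
    · refine le_trans ?_ h.2
      rw [← Set.ncard_coe_finset]
      apply Set.ncard_le_ncard _ (Set.toFinite _)
      intro c hc
      rw [Finset.mem_coe, mid, Finset.mem_filter, hP] at hc
      exact ⟨hc.2.1.ne', hc.2.2.ne, Or.inl ⟨hc.2.1, hc.1⟩⟩
  · rcases h with h | h
    · exact absurd ((hP b).2 h.1) hbP
    · refine le_trans ?_ h.2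
      unfold dep
      rw [← Set.ncard_coe_finset]
      apply Set.ncard_le_ncard _ (Set.toFinite _)
      intro c hc
      rw [Finset.mem_coe, Finset.mem_filter, mem_up] at hc
      obtain ⟨⟨h1, h2⟩, h3⟩ := hc
      rw [key_of_notMem hbP] at h3
      refine ⟨h2.ne', ?_, ?_⟩
      · intro hcb
        rw [hcb, key_of_notMem hbP] at h3
        exact lt_irrefl _ h3
      · by_cases hcP : c ∈ P
        · exact Or.inl ⟨h2, (hP c).1 hcP⟩
        · right
          rw [key_of_notMem hcP] at h3
          refine ⟨?_, (hQ c).1 (h1.resolve_left hcP)⟩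
          rw [Fin.lt_def]
          omega

theorem toSep_fat {k : ℕ} (hn : 1 ≤ n) (hN : 1 ≤ N) (hfat : ∀ t, k + 2 ≤ (F.L t).card) :
    (F.toSep hn hN).Fat (k + 1) := by
  classical
  intro T
  have hnpos : (0 : ℤ) < 2 * n := by
    have : (1 : ℤ) ≤ n := by exact_mod_cast hn
    linarith
  set t := T / (2 * n) with ht
  set r := T % (2 * n) with hr
  have hT : r + 2 * n * t = T := Int.emod_add_mul_ediv T (2 * n)
  have hr0 : 0 ≤ r := Int.emod_nonneg _ hnpos.ne'
  have hr1 : r < 2 * n := Int.emod_lt_of_pos _ hnpos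
  -- general transfer
  have main : ∀ u : ℤ, (u = t - 1 ∧ r < n) ∨ (u = t ∧ n ≤ r) → ∀ a, F.onl a u →
      a ∈ (F.toSep hn hN).P T ∪ (F.toSep hn hN).P (T + 2 * n * N) := by
    intro u hu a ha
    have hal := a.isLt
    rw [Finset.mem_union, Sep.mem_P, Sep.mem_P]
    have step : ∀ u' : ℤ, (u' = t - 1 ∧ r < n) ∨ (u' = t ∧ n ≤ r) → ∀ m : ℤ, ∀ x : ℤ,
        F.s a ≤ u' + x → u' + x ≤ F.e a →
        2 * n * F.s a + a.val ≤ T + 2 * n * x ∧
        T + 2 * n * x < 2 * n * (F.e a + 1) + n + a.val := by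
      intro u' hu' _ x h1 h2
      have e2 : 2 * (n : ℤ) * (F.e a + 1) = 2 * n * F.e a + 2 * n := by ring
      have g1 : 2 * (n : ℤ) * F.s a ≤ 2 * n * (u' + x) :=
        mul_le_mul_of_nonneg_left h1 hnpos.le
      have g2 : 2 * (n : ℤ) * (u' + x) ≤ 2 * n * F.e a :=
        mul_le_mul_of_nonneg_left h2 hnpos.le
      rw [mul_add] at g1 g2
      rcases hu' with ⟨hu', hrn⟩ | ⟨hu', hrn⟩
      · rw [hu', mul_sub, mul_one] at g1 g2
        constructor
        · omega
        · rw [e2]; omega
      · rw [hu'] at g1 g2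
        constructor
        · omega
        · rw [e2]; omega
    rw [F.onl_iff] at ha
    rcases ha with ⟨m, h1, h2⟩ | ⟨m, h1, h2⟩
    · left
      have := step u hu m (2 * N * m) h1 h2
      refine ⟨m, ?_, ?_⟩
      · calc 2 * (n : ℤ) * F.s a + a.val ≤ T + 2 * n * (2 * N * m) := this.1
          _ = T + 2 * (2 * n * N) * m := by ring
      · calc T + 2 * (2 * (n : ℤ) * N) * m = T + 2 * n * (2 * N * m) := by ring
          _ < _ := this.2
    · right
      have := step u hu m (N + 2 * N * m) (by linarith) (by linarith)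
      refine ⟨m, ?_, ?_⟩
      · calc 2 * (n : ℤ) * F.s a + a.val ≤ T + 2 * n * (N + 2 * N * m) := this.1
          _ = T + 2 * n * N + 2 * (2 * n * N) * m := by ring
      · calc T + 2 * (n : ℤ) * N + 2 * (2 * n * N) * m = T + 2 * n * (N + 2 * N * m) := by ring
          _ < _ := this.2
  have hex : ∃ u : ℤ, (u = t - 1 ∧ r < n) ∨ (u = t ∧ n ≤ r) := by
    by_cases h : r < n
    · exact ⟨t - 1, Or.inl ⟨rfl, h⟩⟩
    · exact ⟨t, Or.inr ⟨rfl, not_lt.1 h⟩⟩
  obtain ⟨u, hu⟩ := hex
  refine le_trans (hfat u) (Finset.card_le_card ?_)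
  intro a ha
  exact main u hu a (F.mem_L.1 ha)

/-- **The edge bound for discrete families.** -/
theorem edges_bound {k : ℕ} (hN : 1 ≤ N) (hn : k + 2 ≤ n) (F : Fam n N) :
    2 * (F.edges k).ncard + 3 * ((k + 1) * (k + 2)) ≤ 2 * (3 * (k + 1) * n) := by
  classical
  obtain ⟨F', h1, h2⟩ := exists_fat hN hn F
  have hn1 : 1 ≤ n := by omega
  have hb := (F'.toSep hn1 hN).edge_bound (F'.toSep_fat hn1 hN h2) (show k + 1 ≤ n by omega)
  have hsub : F'.edges k ⊆ ((F'.toSep hn1 hN).VP (k + 1) : Set (Fin n × Fin n)) := by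
    rintro ⟨a, b⟩ ⟨hab, t, hvis⟩
    rw [Finset.mem_coe, Sep.VP, Finset.mem_filter]
    refine ⟨Finset.mem_univ _, 2 * n * t + (2 * n - 1), ?_⟩
    apply F'.vis_of_visAt (t := t) _ _ hab hvis
    · intro x
      rw [Sep.mem_P, F'.toSep_pres]
    · intro x
      rw [Sep.mem_P, show 2 * (n : ℤ) * t + (2 * n - 1) + 2 * n * N =
        2 * n * (t + N) + (2 * n - 1) by ring, F'.toSep_pres]
  have hc : (F.edges k).ncard ≤ ((F'.toSep hn1 hN).VP (k + 1)).card := by
    rw [← Set.ncard_coe_finset]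
    exact Set.ncard_le_ncard (h1.trans hsub) (Finset.finite_toSet _)
  have e1 : 3 * ((k + 1) * (k + 1 + 1)) = 3 * ((k + 1) * (k + 2)) := by ring
  rw [e1] at hb
  omega

end Fam

end Pool.Agent.ArcVis
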