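import Pool.Agent.ArcVis.Geom
import Pool.Agent.ArcVis.FamBound

/-!
# Arc `k`-visibility: transfer between geometric graphs and discrete families
-/

namespace Pool.Agent.ArcVis

open Complex

theorem KVisible.symm {n k : ℕ} {A : Fin n → Set ℂ} {i j : Fin n} (h : KVisible k A i j) :
    KVisible k A j i := by
  obtain ⟨R, S, T, h1, h2, h3⟩ := h
  refine ⟨R, S, T, h1, h2.symm, le_trans (Set.ncard_le_ncard ?_ (Set.toFinite _)) h3⟩
  rintro l ⟨a, b, c⟩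
  exact ⟨b, a, c⟩

theorem KVisible.comp {n k : ℕ} {A : Fin n → Set ℂ} (σ : Equiv.Perm (Fin n)) {a b : Fin n}
    (h : KVisible k A (σ a) (σ b)) : KVisible k (fun i => A (σ i)) a b := by
  obtain ⟨R, S, T, h1, h2, h3⟩ := h
  refine ⟨R, S, T, h1, h2, le_trans ?_ h3⟩
  rw [← Set.ncard_image_of_injective _ σ.injective]
  apply Set.ncard_le_ncard _ (Set.toFinite _)
  rintro _ ⟨l, ⟨ha, hb, hc⟩, rfl⟩
  exact ⟨fun h => ha (σ.injective h), fun h => hb (σ.injective h), hc⟩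

/-- every arc `k`-visibility graph is dominated by a discrete family -/
theorem exists_fam_of_graph {n k : ℕ} {G : SimpleGraph (Fin n)} (hG : IsArcVisGraph k G) :
    ∃ (N : ℕ) (F : Fam n N), 1 ≤ N ∧ G.edgeSet.ncard ≤ (F.edges k).ncard := by
  obtain ⟨A, hA, -, hadj⟩ := hG
  choose r α β hr hα0 hα1 hαβ hβα hAeq using hA
  set σ := Tuple.sort (fun i => - r i) with hσ
  have hmono := Tuple.monotone_sort (fun i => - r i)
  have hA' : A = fun i => arc (r i) (α i) (β i) := funext hAeq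
  obtain ⟨N, F, hN, hF⟩ := exists_fam (k := k) (r := fun a => r (σ a)) (α := fun a => α (σ a))
    (β := fun a => β (σ a)) (fun a => hr _)
    (fun a b hab => by have := hmono hab.le; simp only [Function.comp] at this; linarith)
    (fun a => hαβ _) (fun a => hβα _)
  refine ⟨N, F, hN, ?_⟩
  have hsub : G.edgeSet ⊆ (fun p : Fin n × Fin n => s(σ p.1, σ p.2)) '' (F.edges k) := by
    intro x hx
    induction x using Sym2.ind with
    | _ i j =>
      rw [SimpleGraph.mem_edgeSet] at hx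
      have hij : i ≠ j := hx.ne
      have hv := (hadj i j hij).mp hx
      obtain ⟨a, rfl⟩ := σ.surjective i
      obtain ⟨b, rfl⟩ := σ.surjective j
      have hab : a ≠ b := fun h => hij (by rw [h])
      rw [hA'] at hv
      rcases lt_or_gt_of_ne hab with h | h
      · exact ⟨(a, b), hF a b h (KVisible.comp (A := fun i => arc (r i) (α i) (β i)) σ hv), rfl⟩
      · exact ⟨(b, a), hF b a h (KVisible.comp (A := fun i => arc (r i) (α i) (β i)) σ hv.symm),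
          Sym2.eq_swap⟩
  exact (Set.ncard_le_ncard hsub (Set.toFinite _)).trans (Set.ncard_image_le (Set.toFinite _))

/-! ### From a discrete family to arcs -/

section Lower

variable {n N : ℕ} (F : Fam n N)

/-- start angle (in units of `π / N`), normalized to `[0, 2N)` -/
def Fam.s0 (a : Fin n) : ℤ := F.s a % (2 * N)

/-- the number of multiples of `2N` removed -/
def Fam.q (a : Fin n) : ℤ := F.s a / (2 * N)

/-- end -/
def Fam.e0 (a : Fin n) : ℤ := F.e a - 2 * N * F.q a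

theorem Fam.s_eq (a : Fin n) : F.s a = F.s0 a + 2 * N * F.q a := by
  unfold Fam.s0 Fam.q
  have := Int.emod_add_mul_ediv (F.s a) (2 * N)
  linarith

noncomputable def Fam.al (a : Fin n) : ℝ := (F.s0 a : ℝ) * Real.pi / N
noncomputable def Fam.be (a : Fin n) : ℝ := ((F.e0 a : ℝ) + 1 / 2) * Real.pi / N
noncomputable def Fam.ra (a : Fin n) : ℝ := (n : ℝ) - (a : ℕ)

theorem Fam.ra_pos (a : Fin n) : 0 < Fam.ra a := by
  unfold Fam.ra
  have : ((a : ℕ) : ℝ) < n := by exact_mod_cast a.isLt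
  linarith

theorem Fam.ra_le {a b : Fin n} : Fam.ra a ≤ Fam.ra b ↔ b ≤ a := by
  unfold Fam.ra
  constructor
  · intro h
    have : ((b : ℕ) : ℝ) ≤ (a : ℕ) := by linarith
    exact_mod_cast this
  · intro h
    have : ((b : ℕ) : ℝ) ≤ (a : ℕ) := by exact_mod_cast h
    linarith

theorem Fam.ra_inj {a b : Fin n} (h : Fam.ra a = Fam.ra b) : a = b :=
  le_antisymm (Fam.ra_le.mp h.ge) (Fam.ra_le.mp h.le)

theorem Fam.gp_iff (hN : 1 ≤ N) (a : Fin n) {t : ℤ} {u : ℝ} (h0 : 0 ≤ u) (h1 : u ≤ 1 / 2) :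
    gp (F.al a) (F.be a) (((t : ℝ) + u) * Real.pi / N) ↔ F.pres a t := by
  have hpi := Real.pi_pos
  have hNr : (0 : ℝ) < N := by exact_mod_cast hN
  unfold gp Fam.pres Fam.al Fam.be
  have hs := F.s_eq a
  constructor
  · rintro ⟨m, h2, h3⟩
    refine ⟨m + F.q a, ?_, ?_⟩
    · have h4 : (F.s0 a : ℝ) ≤ t + u + 2 * N * m := by
        have : (F.s0 a : ℝ) * Real.pi / N ≤ (t + u + 2 * N * m) * Real.pi / N := by
          refine h2.trans (le_of_eq ?_); field_simp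
        rwa [div_le_div_iff_of_pos_right hNr, mul_le_mul_iff_left₀ hpi] at this
      have h5 : (F.s0 a : ℝ) < ((t + 2 * N * m + 1 : ℤ) : ℝ) := by push_cast; linarith
      have h6 : F.s0 a < t + 2 * N * m + 1 := by exact_mod_cast h5
      rw [hs]; linarith [mul_add (2 * (N : ℤ)) m (F.q a)]
    · have h4 : (t + u + 2 * N * m : ℝ) ≤ F.e0 a + 1 / 2 := by
        have : (t + u + 2 * N * m) * Real.pi / N ≤ ((F.e0 a : ℝ) + 1 / 2) * Real.pi / N := by
          refine (le_of_eq ?_).trans h3; field_simp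
        rwa [div_le_div_iff_of_pos_right hNr, mul_le_mul_iff_left₀ hpi] at this
      have h5 : ((t + 2 * N * m : ℤ) : ℝ) < ((F.e0 a + 1 : ℤ) : ℝ) := by push_cast; linarith
      have h6 : t + 2 * N * m < F.e0 a + 1 := by exact_mod_cast h5
      unfold Fam.e0 at h6
      linarith [mul_add (2 * (N : ℤ)) m (F.q a)]
  · rintro ⟨m, h2, h3⟩
    refine ⟨m - F.q a, ?_, ?_⟩
    · have h4 : F.s0 a ≤ t + 2 * N * (m - F.q a) := by
        rw [hs] at h2; linarith [mul_sub (2 * (N : ℤ)) m (F.q a)]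
      have h5 : (F.s0 a : ℝ) ≤ t + 2 * N * (m - F.q a) := by exact_mod_cast h4
      have h6 : (F.s0 a : ℝ) * Real.pi / N ≤ (t + u + 2 * N * (m - F.q a)) * Real.pi / N := by
        rw [div_le_div_iff_of_pos_right hNr, mul_le_mul_iff_left₀ hpi]; linarith
      refine h6.trans (le_of_eq ?_)
      push_cast; field_simp
    · have h4 : t + 2 * N * (m - F.q a) ≤ F.e0 a := by
        unfold Fam.e0; linarith [mul_sub (2 * (N : ℤ)) m (F.q a)]
      have h5 : (t + 2 * N * (m - F.q a) : ℝ) ≤ F.e0 a := by exact_mod_cast h4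
      have h6 : (t + u + 2 * N * (m - F.q a)) * Real.pi / N ≤ ((F.e0 a : ℝ) + 1 / 2) * Real.pi / N := by
        rw [div_le_div_iff_of_pos_right hNr, mul_le_mul_iff_left₀ hpi]; linarith
      refine (le_of_eq ?_).trans h6
      push_cast; field_simp

/-- the arcs realizing a discrete family -/
noncomputable def Fam.arcs (a : Fin n) : Set ℂ := arc (Fam.ra a) (F.al a) (F.be a)

theorem Fam.isArc (hN : 1 ≤ N) (a : Fin n) : IsArc (F.arcs a) := by
  have hpi := Real.pi_pos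
  have hNr : (0 : ℝ) < N := by exact_mod_cast hN
  have h2N : (0 : ℤ) < 2 * N := by omega
  have hs0 : 0 ≤ F.s0 a := Int.emod_nonneg _ h2N.ne'
  have hs1 : F.s0 a < 2 * N := Int.emod_lt_of_pos _ h2N
  have hs := F.s_eq a
  have hle := F.le a
  have hlen := F.len a
  refine ⟨Fam.ra a, F.al a, F.be a, Fam.ra_pos a, ?_, ?_, ?_, ?_, rfl⟩
  · unfold Fam.al
    have : (0 : ℝ) ≤ F.s0 a := by exact_mod_cast hs0
    positivity
  · unfold Fam.al
    have : (F.s0 a : ℝ) < 2 * N := by exact_mod_cast hs1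
    rw [div_lt_iff₀ hNr]
    nlinarith
  · unfold Fam.al Fam.be
    have h : F.s0 a ≤ F.e0 a := by unfold Fam.e0; omega
    have : (F.s0 a : ℝ) ≤ F.e0 a := by exact_mod_cast h
    rw [div_le_div_iff_of_pos_right hNr, mul_le_mul_iff_left₀ hpi]; linarith
  · unfold Fam.al Fam.be
    have h : F.e0 a ≤ F.s0 a + 2 * N - 2 := by unfold Fam.e0; omega
    have : (F.e0 a : ℝ) ≤ F.s0 a + 2 * N - 2 := by exact_mod_cast h
    have h2 : (F.s0 a : ℝ) * Real.pi / N + 2 * Real.pi = ((F.s0 a : ℝ) + 2 * N) * Real.pi / N := by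
      field_simp
    rw [h2, div_lt_div_iff_of_pos_right hNr, mul_lt_mul_iff_left₀ hpi]; linarith

theorem Fam.arcs_disjoint {a b : Fin n} (hab : a ≠ b) : Disjoint (F.arcs a) (F.arcs b) := by
  rw [Set.disjoint_left]
  rintro z ⟨θ, -, -, rfl⟩ h2
  exact hab (Fam.ra_inj ((mem_arc_iff (Fam.ra_pos b) (Fam.ra_pos a)).mp h2).1)

theorem Fam.kvis_of_visAt {k : ℕ} (hN : 1 ≤ N) {a b : Fin n} (hab : a < b) {t : ℤ}
    (h : F.visAt k a b t) : KVisible k F.arcs a b := by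
  have hpi := Real.pi_pos
  have hNr : (0 : ℝ) < N := by exact_mod_cast hN
  have hN1 : (1 : ℝ) ≤ N := by exact_mod_cast hN
  obtain ⟨ha, h⟩ := h
  set θ₁ : ℝ := (t : ℝ) * Real.pi / N with hθ₁
  set θ₂ : ℝ := ((t : ℝ) + 1 / 2) * Real.pi / N with hθ₂
  have h12 : θ₁ < θ₂ := by
    rw [hθ₁, hθ₂, div_lt_div_iff_of_pos_right hNr, mul_lt_mul_iff_left₀ hpi]; linarith
  have h21 : θ₂ < θ₁ + Real.pi := by
    have h2 : θ₁ + Real.pi = ((t : ℝ) + N) * Real.pi / N := by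
      rw [hθ₁]; field_simp
    rw [h2, hθ₂, div_lt_div_iff_of_pos_right hNr, mul_lt_mul_iff_left₀ hpi]; linarith
  have hu : ∀ θ, θ₁ ≤ θ → θ ≤ θ₂ → ∃ u : ℝ, 0 ≤ u ∧ u ≤ 1 / 2 ∧ θ = ((t : ℝ) + u) * Real.pi / N ∧
      θ + Real.pi = (((t + N : ℤ) : ℝ) + u) * Real.pi / N := by
    intro θ h1 h2
    refine ⟨θ * N / Real.pi - t, ?_, ?_, ?_, ?_⟩
    · rw [hθ₁, div_le_iff₀ hNr] at h1
      rw [sub_nonneg, le_div_iff₀ hpi]; exact h1
    · rw [hθ₂, le_div_iff₀ hNr] at h2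
      rw [sub_le_iff_le_add, div_le_iff₀ hpi]; linarith
    · field_simp; ring
    · push_cast; field_simp; ring
  have hg : ∀ c θ, θ₁ ≤ θ → θ ≤ θ₂ → (gp (F.al c) (F.be c) θ ↔ F.pres c t) ∧
      (gp (F.al c) (F.be c) (θ + Real.pi) ↔ F.pres c (t + N)) := by
    intro c θ h1 h2
    obtain ⟨u, u0, u1, e1, e2⟩ := hu θ h1 h2
    exact ⟨by rw [e1]; exact F.gp_iff hN c u0 u1, by rw [e2]; exact F.gp_iff hN c u0 u1⟩
  have hrab : Fam.ra b < Fam.ra a := by
    rcases lt_or_ge (Fam.ra b) (Fam.ra a) with h | h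
    · exact h
    · exact absurd (Fam.ra_le.mp h) (not_le.mpr hab)
  rcases h with ⟨hb, hc⟩ | ⟨hb, hc⟩
  · refine ⟨_, _, _, Or.inl ⟨Fam.ra b, Fam.ra a, θ₁, θ₂, Fam.ra_pos b, hrab, h12,
      by linarith, rfl, rfl, rfl⟩, Or.inr ⟨?_, ?_⟩,
      le_trans (Set.ncard_le_ncard ?_ (Set.toFinite _)) hc⟩
    · rintro z ⟨θ, h1, h2, rfl⟩
      exact (mem_arc_iff (Fam.ra_pos b) (Fam.ra_pos b)).mpr ⟨rfl, ((hg b θ h1 h2).1).mpr hb⟩
    · rintro z ⟨θ, h1, h2, rfl⟩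
      exact (mem_arc_iff (Fam.ra_pos a) (Fam.ra_pos a)).mpr ⟨rfl, ((hg a θ h1 h2).1).mpr ha⟩
    · rintro c ⟨hca, hcb, z, hz, ρ, θ, h1, h2, h3, h4, rfl⟩
      obtain ⟨h5, h6⟩ := (mem_arc_iff (Fam.ra_pos c) ((Fam.ra_pos b).trans_le h1)).mp hz
      rw [h5] at h1 h2
      exact ⟨lt_of_le_of_ne (Fam.ra_le.mp h2) hca.symm, lt_of_le_of_ne (Fam.ra_le.mp h1) hcb,
        ((hg c θ h3 h4).1).mp h6⟩
  · refine ⟨_, _, _, Or.inr ⟨Fam.ra b, Fam.ra a, θ₁, θ₂, Fam.ra_pos b, Fam.ra_pos a, h12,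
      h21, rfl, rfl, rfl⟩, Or.inr ⟨?_, ?_⟩,
      le_trans (Set.ncard_le_ncard ?_ (Set.toFinite _)) hc⟩
    · rintro z ⟨θ, h1, h2, rfl⟩
      exact (mem_arc_iff_neg (Fam.ra_pos b) (Fam.ra_pos b)).mpr ⟨rfl, ((hg b θ h1 h2).2).mpr hb⟩
    · rintro z ⟨θ, h1, h2, rfl⟩
      exact (mem_arc_iff (Fam.ra_pos a) (Fam.ra_pos a)).mpr ⟨rfl, ((hg a θ h1 h2).1).mpr ha⟩
    · rintro c ⟨hca, hcb, z, hz, ρ, θ, h1, h2, h3, h4, rfl⟩
      refine ⟨hca, hcb, ?_⟩
      rcases lt_trichotomy ρ 0 with hρ | hρ | hρ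
      · right
        have hz' : pt (-(-ρ)) θ ∈ F.arcs c := by rwa [neg_neg]
        obtain ⟨h5, h6⟩ := (mem_arc_iff_neg (Fam.ra_pos c) (by linarith : 0 < -ρ)).mp hz'
        have h7 : Fam.ra c ≤ Fam.ra b := by linarith
        exact ⟨lt_of_le_of_ne (Fam.ra_le.mp h7) hcb.symm, ((hg c θ h3 h4).2).mp h6⟩
      · exfalso
        obtain ⟨θ', -, -, h5⟩ := hz
        have := congrArg norm h5
        rw [norm_pt, norm_pt, hρ, abs_zero, abs_of_pos (Fam.ra_pos c)] at this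
        exact absurd this (Fam.ra_pos c).ne
      · left
        obtain ⟨h5, h6⟩ := (mem_arc_iff (Fam.ra_pos c) hρ).mp hz
        rw [h5] at h2
        exact ⟨lt_of_le_of_ne (Fam.ra_le.mp h2) hca.symm, ((hg c θ h3 h4).1).mp h6⟩

/-- the graph of a discrete family -/
def Fam.graph (k : ℕ) : SimpleGraph (Fin n) where
  Adj a b := a ≠ b ∧ KVisible k F.arcs a b
  symm := ⟨fun _ _ h => ⟨h.1.symm, h.2.symm⟩⟩
  loopless := ⟨fun _ h => h.1 rfl⟩

theorem Fam.graph_isArcVis (k : ℕ) (hN : 1 ≤ N) : IsArcVisGraph k (F.graph k) :=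
  ⟨F.arcs, F.isArc hN, fun _ _ h => F.arcs_disjoint h, fun _ _ hij =>
    ⟨fun h => h.2, fun h => ⟨hij, h⟩⟩⟩

theorem Fam.edges_le (k : ℕ) (hN : 1 ≤ N) : (F.edges k).ncard ≤ (F.graph k).edgeSet.ncard := by
  have hinj : Set.InjOn (fun p : Fin n × Fin n => s(p.1, p.2)) (F.edges k) := by
    rintro ⟨a, b⟩ ⟨hab, -⟩ ⟨c, d⟩ ⟨hcd, -⟩ h
    simp only [Sym2.eq_iff] at h
    rcases h with ⟨rfl, rfl⟩ | ⟨rfl, rfl⟩
    · rfl
    · exact absurd hab (not_lt.mpr (le_of_lt hcd))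
  rw [← hinj.ncard_image]
  apply Set.ncard_le_ncard _ (Set.toFinite _)
  rintro _ ⟨⟨a, b⟩, ⟨hab, t, ht⟩, rfl⟩
  exact ⟨hab.ne, F.kvis_of_visAt hN hab ht⟩

end Lower

/-! ### Consequences for `eMax` -/

theorem edge_le_choose {n : ℕ} (G : SimpleGraph (Fin n)) : G.edgeSet.ncard ≤ n.choose 2 := by
  classical
  have := G.card_edgeFinset_le_card_choose_two
  rw [Fintype.card_fin] at this
  rwa [Set.ncard_eq_toFinset_card', ← SimpleGraph.edgeFinset]

theorem eMax_bdd (k n : ℕ) :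
    BddAbove {m : ℕ | ∃ G : SimpleGraph (Fin n), IsArcVisGraph k G ∧ m = G.edgeSet.ncard} := by
  refine ⟨n.choose 2, ?_⟩
  rintro m ⟨G, -, rfl⟩
  exact edge_le_choose G

/-- `eMax` is attained -/
theorem eMax_mem (k n : ℕ) :
    ∃ G : SimpleGraph (Fin n), IsArcVisGraph k G ∧ eMax k n = G.edgeSet.ncard := by
  have hne : {m : ℕ | ∃ G : SimpleGraph (Fin n), IsArcVisGraph k G ∧
      m = G.edgeSet.ncard}.Nonempty := by
    let F : Fam n 1 := ⟨fun _ => 0, fun _ => 0, fun _ => le_rfl, fun _ => by norm_num⟩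
    exact ⟨_, F.graph k, F.graph_isArcVis k le_rfl, rfl⟩
  exact Nat.sSup_mem hne (eMax_bdd k n)

theorem eMax_le_choose (k n : ℕ) : eMax k n ≤ n.choose 2 := by
  obtain ⟨G, -, h⟩ := eMax_mem k n
  rw [h]; exact edge_le_choose G

theorem eMax_upper {k n : ℕ} (hn : k + 2 ≤ n) :
    2 * eMax k n + 3 * ((k + 1) * (k + 2)) ≤ 2 * (3 * (k + 1) * n) := by
  obtain ⟨G, hG, h⟩ := eMax_mem k n
  obtain ⟨N, F, hN, hle⟩ := exists_fam_of_graph hG
  have := F.edges_bound hN hn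
  omega

theorem le_eMax {k n N : ℕ} (hN : 1 ≤ N) (F : Fam n N) : (F.edges k).ncard ≤ eMax k n :=
  (F.edges_le k hN).trans (le_csSup (eMax_bdd k n) ⟨_, F.graph_isArcVis k hN, rfl⟩)

end Pool.Agent.ArcVis
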