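import Mathlib

/-!
# Arc `k`-visibility: definitions (geometric and discrete)

Problem MP_f73b56_co.  Geometric part: arcs, cones, arc `k`-visibility graphs, `eMax k n`.
Discrete part: families of cyclic integer intervals (`Fam`), used for the upper and the lower bound.
-/

namespace Pool.Agent.ArcVis

open Complex

/-- The point with signed polar coordinates `(r, θ)`. -/
noncomputable def pt (r θ : ℝ) : ℂ := (r : ℂ) * Complex.exp ((θ : ℂ) * Complex.I)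

/-- An arc: `{(r, θ) : α₁ ≤ θ ≤ α₂}` with `r > 0`, `α₁ ∈ [0, 2π)` and `0 ≤ α₂ - α₁ < 2π`. -/
def IsArc (A : Set ℂ) : Prop :=
  ∃ r α₁ α₂ : ℝ, 0 < r ∧ 0 ≤ α₁ ∧ α₁ < 2 * Real.pi ∧ α₁ ≤ α₂ ∧ α₂ < α₁ + 2 * Real.pi ∧
    A = {z | ∃ θ : ℝ, α₁ ≤ θ ∧ θ ≤ α₂ ∧ z = pt r θ}

/-- `IsCone R S T`: the region `R` is a cone whose two circular sides are `S` and `T`.
Either both circular sides lie in the same angular interval `[θ₁, θ₂]`, at radii `ρ₁ < ρ₂`, or the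
two radial sides cross at the origin and the circular sides lie in opposite directions. -/
def IsCone (R S T : Set ℂ) : Prop :=
  (∃ ρ₁ ρ₂ θ₁ θ₂ : ℝ, 0 < ρ₁ ∧ ρ₁ < ρ₂ ∧ θ₁ < θ₂ ∧ θ₂ < θ₁ + 2 * Real.pi ∧
    R = {z | ∃ ρ θ : ℝ, ρ₁ ≤ ρ ∧ ρ ≤ ρ₂ ∧ θ₁ ≤ θ ∧ θ ≤ θ₂ ∧ z = pt ρ θ} ∧
    S = {z | ∃ θ : ℝ, θ₁ ≤ θ ∧ θ ≤ θ₂ ∧ z = pt ρ₁ θ} ∧
    T = {z | ∃ θ : ℝ, θ₁ ≤ θ ∧ θ ≤ θ₂ ∧ z = pt ρ₂ θ}) ∨
  (∃ ρ₁ ρ₂ θ₁ θ₂ : ℝ, 0 < ρ₁ ∧ 0 < ρ₂ ∧ θ₁ < θ₂ ∧ θ₂ < θ₁ + Real.pi ∧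
    R = {z | ∃ ρ θ : ℝ, -ρ₁ ≤ ρ ∧ ρ ≤ ρ₂ ∧ θ₁ ≤ θ ∧ θ ≤ θ₂ ∧ z = pt ρ θ} ∧
    S = {z | ∃ θ : ℝ, θ₁ ≤ θ ∧ θ ≤ θ₂ ∧ z = pt (-ρ₁) θ} ∧
    T = {z | ∃ θ : ℝ, θ₁ ≤ θ ∧ θ ≤ θ₂ ∧ z = pt ρ₂ θ})

/-- Arcs number `i` and `j` of the family `A` are `k`-visible: some cone has one circular side
contained in `A i`, the other one contained in `A j`, and meets at most `k` other arcs. -/
def KVisible {n : ℕ} (k : ℕ) (A : Fin n → Set ℂ) (i j : Fin n) : Prop :=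
  ∃ R S T : Set ℂ, IsCone R S T ∧ ((S ⊆ A i ∧ T ⊆ A j) ∨ (S ⊆ A j ∧ T ⊆ A i)) ∧
    {l : Fin n | l ≠ i ∧ l ≠ j ∧ (A l ∩ R).Nonempty}.ncard ≤ k

/-- `G` is an arc `k`-visibility graph. -/
def IsArcVisGraph {n : ℕ} (k : ℕ) (G : SimpleGraph (Fin n)) : Prop :=
  ∃ A : Fin n → Set ℂ, (∀ i, IsArc (A i)) ∧ (∀ i j, i ≠ j → Disjoint (A i) (A j)) ∧
    ∀ i j, i ≠ j → (G.Adj i j ↔ KVisible k A i j)

/-- `e_k(n)`: the maximum number of edges of an arc `k`-visibility graph on `n` vertices. -/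
noncomputable def eMax (k n : ℕ) : ℕ :=
  sSup {m : ℕ | ∃ G : SimpleGraph (Fin n), IsArcVisGraph k G ∧ m = G.edgeSet.ncard}

/-! ### Discrete families -/

/-- A discrete family: `n` cyclic integer intervals `[s a, e a]` modulo `2N`; `N` is the half
period, the index `a : Fin n` is the radial rank (`0` is the outermost arc). -/
structure Fam (n N : ℕ) where
  s : Fin n → ℤ
  e : Fin n → ℤ
  le : ∀ a, s a ≤ e a
  len : ∀ a, e a ≤ s a + 2 * N - 2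

namespace Fam

variable {n N : ℕ} (F : Fam n N)

/-- arc `a` is present on ray `t` -/
def pres (a : Fin n) (t : ℤ) : Prop :=
  ∃ m : ℤ, F.s a ≤ t + 2 * N * m ∧ t + 2 * N * m ≤ F.e a

/-- For `a < b`: the arcs `a` and `b` see each other on the line through rays `t` and `t + N`, with
`a` on ray `t`: either `b` is also on ray `t` (same side), or `b` is on ray `t + N`. At most `k`
distinct arcs other than `a`, `b` are met in between. -/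
def visAt (k : ℕ) (a b : Fin n) (t : ℤ) : Prop :=
  F.pres a t ∧
    ((F.pres b t ∧ {c : Fin n | a < c ∧ c < b ∧ F.pres c t}.ncard ≤ k) ∨
     (F.pres b (t + N) ∧ {c : Fin n | c ≠ a ∧ c ≠ b ∧
        ((a < c ∧ F.pres c t) ∨ (b < c ∧ F.pres c (t + N)))}.ncard ≤ k))

/-- the set of visible pairs `(a, b)`, `a < b` -/
def edges (k : ℕ) : Set (Fin n × Fin n) := {p | p.1 < p.2 ∧ ∃ t : ℤ, F.visAt k p.1 p.2 t}

end Fam

end Pool.Agent.ArcVis
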