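import Pool.Agent.ArcVis.Convert

/-!
# The five-block family

`n = 5K + s` arcs in radial order (outer to inner) `D (K), B (K), C (K+s), A (K), E (K)`.
-/

namespace Pool.Agent.ArcVis

theorem ncard_le_two {n k : ℕ} {S : Set (Fin n)} (lo hi lo' hi' : ℕ)
    (h : ∀ c ∈ S, (lo ≤ (c : ℕ) ∧ (c : ℕ) < hi) ∨ (lo' ≤ (c : ℕ) ∧ (c : ℕ) < hi'))
    (hk : (hi - lo) + (hi' - lo') ≤ k) : S.ncard ≤ k := by
  classical
  have h1 : S.ncard ≤ ((Finset.Ico lo hi ∪ Finset.Ico lo' hi' : Finset ℕ) : Set ℕ).ncard := by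
    refine Set.ncard_le_ncard_of_injOn (fun c : Fin n => (c : ℕ)) ?_ ?_ (Set.toFinite _)
    · intro c hc
      have := h c hc
      simp only [Finset.coe_union, Finset.coe_Ico, Set.mem_union, Set.mem_Ico]
      exact this
    · intro c _ d _ hcd
      exact Fin.ext hcd
  rw [Set.ncard_coe_finset] at h1
  refine h1.trans ((Finset.card_union_le _ _).trans ?_)
  rw [Nat.card_Ico, Nat.card_Ico]
  exact hk

theorem ncard_le_one {n k : ℕ} {S : Set (Fin n)} (lo hi : ℕ)
    (h : ∀ c ∈ S, (lo ≤ (c : ℕ) ∧ (c : ℕ) < hi)) (hk : hi - lo ≤ k) : S.ncard ≤ k :=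
  ncard_le_two lo hi 0 0 (fun c hc => Or.inl (h c hc)) (by omega)

theorem Fam.pres_iff {n N : ℕ} (F : Fam n N) {a : Fin n} {t : ℤ} (h1 : 0 ≤ F.s a)
    (h3 : F.e a < 4 * N) (h4 : 0 ≤ t) (h5 : t < 4 * N) :
    F.pres a t ↔ (F.s a ≤ t - 2 * N ∧ t - 2 * N ≤ F.e a) ∨ (F.s a ≤ t ∧ t ≤ F.e a) ∨
      (F.s a ≤ t + 2 * N ∧ t + 2 * N ≤ F.e a) := by
  unfold Fam.pres
  constructor
  · rintro ⟨m, h6, h7⟩
    have hN : (0 : ℤ) < N := by omega
    have hm1 : -2 < m := by nlinarith
    have hm2 : m < 2 := by nlinarith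
    have : m = -1 ∨ m = 0 ∨ m = 1 := by omega
    rcases this with rfl | rfl | rfl
    · left; constructor <;> linarith
    · right; left; constructor <;> linarith
    · right; right; constructor <;> linarith
  · rintro (⟨h6, h7⟩ | ⟨h6, h7⟩ | ⟨h6, h7⟩)
    · exact ⟨-1, by linarith, by linarith⟩
    · exact ⟨0, by linarith, by linarith⟩
    · exact ⟨1, by linarith, by linarith⟩

section Five

variable (K s : ℕ)

/-- first ray of the arc of index `x` -/
def st5 (x : ℕ) : ℤ :=
  if x < K then 8 * (K + s + 1) + x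
  else if x < 2 * K then 12 * (K + s + 1) + (x - K)
  else if x < 3 * K + s then 15 * (K + s + 1) + (x - 2 * K)
  else if x < 4 * K + s then 3 * (K + s + 1) + (x - 3 * K - s)
  else 4 * (K + s + 1) + (x - 4 * K - s)

/-- last ray of the arc of index `x` -/
def en5 (x : ℕ) : ℤ :=
  if x < K then 26 * (K + s + 1) + (K - 1 - x)
  else if x < 2 * K then 20 * (K + s + 1) + (x - K)
  else if x < 3 * K + s then 27 * (K + s + 1) + (3 * K + s - 1 - x)
  else if x < 4 * K + s then 9 * (K + s + 1) + (4 * K + s - 1 - x)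
  else 11 * (K + s + 1) + (x - 4 * K - s)

theorem spec5 (x : ℕ) :
    (x < K ∧ st5 K s x = 8 * (K + s + 1) + x ∧ en5 K s x = 26 * (K + s + 1) + (K - 1 - x)) ∨
    (K ≤ x ∧ x < 2 * K ∧ st5 K s x = 12 * (K + s + 1) + (x - K) ∧
      en5 K s x = 20 * (K + s + 1) + (x - K)) ∨
    (2 * K ≤ x ∧ x < 3 * K + s ∧ st5 K s x = 15 * (K + s + 1) + (x - 2 * K) ∧
      en5 K s x = 27 * (K + s + 1) + (3 * K + s - 1 - x)) ∨
    (3 * K + s ≤ x ∧ x < 4 * K + s ∧ st5 K s x = 3 * (K + s + 1) + (x - 3 * K - s) ∧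
      en5 K s x = 9 * (K + s + 1) + (4 * K + s - 1 - x)) ∨
    (4 * K + s ≤ x ∧ st5 K s x = 4 * (K + s + 1) + (x - 4 * K - s) ∧
      en5 K s x = 11 * (K + s + 1) + (x - 4 * K - s)) := by
  unfold st5 en5
  split_ifs <;> omega

def fam5 : Fam (5 * K + s) (10 * (K + s + 1)) where
  s a := st5 K s a
  e a := en5 K s a
  le a := by
    have := a.isLt
    rcases spec5 K s a with h | h | h | h | h <;> omega
  len a := by
    have := a.isLt
    rcases spec5 K s a with h | h | h | h | h <;> push_cast <;> omega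

theorem fam5_pres (a : Fin (5 * K + s)) {t : ℤ} (h4 : 0 ≤ t) (h5 : t < 40 * (K + s + 1)) :
    (fam5 K s).pres a t ↔
      (st5 K s a ≤ t - 20 * (K + s + 1) ∧ t - 20 * (K + s + 1) ≤ en5 K s a) ∨
      (st5 K s a ≤ t ∧ t ≤ en5 K s a) ∨
      (st5 K s a ≤ t + 20 * (K + s + 1) ∧ t + 20 * (K + s + 1) ≤ en5 K s a) := by
  have ha := a.isLt
  have hs : (fam5 K s).s a = st5 K s a := rfl
  have he : (fam5 K s).e a = en5 K s a := rfl
  rw [(fam5 K s).pres_iff (by rw [hs]; rcases spec5 K s a with h | h | h | h | h <;> omega)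
    (by rw [he]; push_cast; rcases spec5 K s a with h | h | h | h | h <;> omega) h4
    (by push_cast; omega), hs, he]
  push_cast
  constructor <;> rintro (h | h | h) <;> omega

variable {K s}

/-- same-side visibility -/
theorem vis5_same {k : ℕ} {a b : Fin (5 * K + s)} (t : ℤ)
    (ha : (fam5 K s).pres a t) (hb : (fam5 K s).pres b t)
    (lo hi : ℕ) (h : ∀ c : Fin (5 * K + s), (a : ℕ) < c → (c : ℕ) < b → (fam5 K s).pres c t →
      lo ≤ (c : ℕ) ∧ (c : ℕ) < hi) (hk : hi - lo ≤ k) : (fam5 K s).visAt k a b t :=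
  ⟨ha, Or.inl ⟨hb, ncard_le_one lo hi (fun c hc => h c hc.1 hc.2.1 hc.2.2) hk⟩⟩

/-- opposite-side visibility -/
theorem vis5_opp {k : ℕ} {a b : Fin (5 * K + s)} (t : ℤ)
    (ha : (fam5 K s).pres a t) (hb : (fam5 K s).pres b (t + 10 * (K + s + 1)))
    (lo hi lo' hi' : ℕ)
    (h : ∀ c : Fin (5 * K + s), (a : ℕ) < c → (fam5 K s).pres c t →
      (lo ≤ (c : ℕ) ∧ (c : ℕ) < hi) ∨ (lo' ≤ (c : ℕ) ∧ (c : ℕ) < hi'))
    (h' : ∀ c : Fin (5 * K + s), (b : ℕ) < c → (fam5 K s).pres c (t + 10 * (K + s + 1)) →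
      (lo ≤ (c : ℕ) ∧ (c : ℕ) < hi) ∨ (lo' ≤ (c : ℕ) ∧ (c : ℕ) < hi'))
    (hk : (hi - lo) + (hi' - lo') ≤ k) : (fam5 K s).visAt k a b t := by
  have e : t + ((10 * (K + s + 1) : ℕ) : ℤ) = t + 10 * (K + s + 1) := by push_cast; ring
  refine ⟨ha, Or.inr ⟨by rw [e]; exact hb, ncard_le_two lo hi lo' hi' (fun c hc => ?_) hk⟩⟩
  obtain ⟨-, -, hc⟩ := hc
  rw [e] at hc
  rcases hc with ⟨h1, h2⟩ | ⟨h1, h2⟩
  · exact h c h1 h2
  · exact h' c h1 h2

set_option maxHeartbeats 4000000 in
theorem vis5 {k : ℕ} (hk : K = k + 1) {a b : Fin (5 * K + s)} (hab : (a : ℕ) < b)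
    (m1 : ¬ ((a : ℕ) < K ∧ 3 * K ≤ (b : ℕ) ∧ (b : ℕ) < 3 * K + s ∧ (a : ℕ) + b + 2 ≤ 3 * K + s))
    (m2 : ¬ (K ≤ (a : ℕ) ∧ (a : ℕ) < 2 * K ∧ (a : ℕ) + K < b ∧ (b : ℕ) < 2 * K + s))
    (m3 : ¬ (2 * K ≤ (a : ℕ) ∧ (b : ℕ) < 3 * K + s ∧ (a : ℕ) + K < b)) :
    ∃ t, (fam5 K s).visAt k a b t := by
  have ha := a.isLt
  have hb := b.isLt
  rcases spec5 K s a with A | A | A | A | A <;> rcases spec5 K s b with B | B | B | B | B <;>
    (try (exfalso; omega))
  · -- DD
    exact ⟨0, vis5_same 0 ((fam5_pres _ _ _ (by omega) (by omega)).mpr (by omega)) ((fam5_pres _ _ _ (by omega) (by omega)).mpr (by omega)) (a + 1) b (fun c _ _ h3 => by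
          rw [fam5_pres _ _ _ (by omega) (by omega)] at h3
          have hc := c.isLt
          rcases spec5 K s c with h | h | h | h | h <;> omega) (by omega)⟩
  · -- DB
    exact ⟨(b : ℕ) - K, vis5_same _ ((fam5_pres _ _ _ (by omega) (by omega)).mpr (by omega)) ((fam5_pres _ _ _ (by omega) (by omega)).mpr (by omega)) (a + 1) K (fun c _ _ h3 => by
          rw [fam5_pres _ _ _ (by omega) (by omega)] at h3
          have hc := c.isLt
          rcases spec5 K s c with h | h | h | h | h <;> omega) (by omega)⟩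
  · -- DC
    by_cases h : (b : ℕ) < 3 * K
    · exact ⟨6 * (K + s + 1) + (K - 1 - (a : ℕ)), vis5_same _ ((fam5_pres _ _ _ (by omega) (by omega)).mpr (by omega)) ((fam5_pres _ _ _ (by omega) (by omega)).mpr (by omega)) (2 * K) b
        (fun c _ _ h3 => by
          rw [fam5_pres _ _ _ (by omega) (by omega)] at h3
          have hc := c.isLt
          rcases spec5 K s c with h | h | h | h | h <;> omega) (by omega)⟩
    · exact ⟨12 * (K + s + 1) - 1, vis5_opp _ ((fam5_pres _ _ _ (by omega) (by omega)).mpr (by omega)) ((fam5_pres _ _ _ (by omega) (by omega)).mpr (by omega)) (a + 1) K (b + 1) (3 * K + s)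
        (fun c _ h3 => by
          rw [fam5_pres _ _ _ (by omega) (by omega)] at h3
          have hc := c.isLt
          rcases spec5 K s c with h | h | h | h | h <;> omega) (fun c _ h3 => by
          rw [fam5_pres _ _ _ (by omega) (by omega)] at h3
          have hc := c.isLt
          rcases spec5 K s c with h | h | h | h | h <;> omega) (by omega)⟩
  · -- DA
    exact ⟨8 * (K + s + 1) + (a : ℕ), vis5_same _ ((fam5_pres _ _ _ (by omega) (by omega)).mpr (by omega)) ((fam5_pres _ _ _ (by omega) (by omega)).mpr (by omega)) (3 * K + s) b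
      (fun c _ _ h3 => by
          rw [fam5_pres _ _ _ (by omega) (by omega)] at h3
          have hc := c.isLt
          rcases spec5 K s c with h | h | h | h | h <;> omega) (by omega)⟩
  · -- DE
    exact ⟨11 * (K + s + 1) + ((b : ℕ) - 4 * K - s), vis5_same _ ((fam5_pres _ _ _ (by omega) (by omega)).mpr (by omega)) ((fam5_pres _ _ _ (by omega) (by omega)).mpr (by omega)) (a + 1) K
      (fun c _ _ h3 => by
          rw [fam5_pres _ _ _ (by omega) (by omega)] at h3
          have hc := c.isLt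
          rcases spec5 K s c with h | h | h | h | h <;> omega) (by omega)⟩
  · -- BB
    exact ⟨0, vis5_same 0 ((fam5_pres _ _ _ (by omega) (by omega)).mpr (by omega)) ((fam5_pres _ _ _ (by omega) (by omega)).mpr (by omega)) (a + 1) b (fun c _ _ h3 => by
          rw [fam5_pres _ _ _ (by omega) (by omega)] at h3
          have hc := c.isLt
          rcases spec5 K s c with h | h | h | h | h <;> omega) (by omega)⟩
  · -- BC
    by_cases h : (b : ℕ) ≤ a + K
    · exact ⟨0, vis5_same 0 ((fam5_pres _ _ _ (by omega) (by omega)).mpr (by omega)) ((fam5_pres _ _ _ (by omega) (by omega)).mpr (by omega)) (a + 1) b (fun c _ _ h3 => by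
          rw [fam5_pres _ _ _ (by omega) (by omega)] at h3
          have hc := c.isLt
          rcases spec5 K s c with h | h | h | h | h <;> omega) (by omega)⟩
    · exact ⟨12 * (K + s + 1) + ((a : ℕ) - K), vis5_opp _ ((fam5_pres _ _ _ (by omega) (by omega)).mpr (by omega)) ((fam5_pres _ _ _ (by omega) (by omega)).mpr (by omega)) 0 0 (b + 1)
        (3 * K + s) (fun c _ h3 => by
          rw [fam5_pres _ _ _ (by omega) (by omega)] at h3
          have hc := c.isLt
          rcases spec5 K s c with h | h | h | h | h <;> omega) (fun c _ h3 => by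
          rw [fam5_pres _ _ _ (by omega) (by omega)] at h3
          have hc := c.isLt
          rcases spec5 K s c with h | h | h | h | h <;> omega) (by omega)⟩
  · -- BA
    exact ⟨13 * (K + s + 1) + ((b : ℕ) - 3 * K - s), vis5_opp _ ((fam5_pres _ _ _ (by omega) (by omega)).mpr (by omega)) ((fam5_pres _ _ _ (by omega) (by omega)).mpr (by omega)) (a + 1) (2 * K)
      0 0 (fun c _ h3 => by
          rw [fam5_pres _ _ _ (by omega) (by omega)] at h3
          have hc := c.isLt
          rcases spec5 K s c with h | h | h | h | h <;> omega) (fun c _ h3 => by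
          rw [fam5_pres _ _ _ (by omega) (by omega)] at h3
          have hc := c.isLt
          rcases spec5 K s c with h | h | h | h | h <;> omega) (by omega)⟩
  · -- BE
    exact ⟨14 * (K + s + 1) + ((b : ℕ) - 4 * K - s), vis5_opp _ ((fam5_pres _ _ _ (by omega) (by omega)).mpr (by omega)) ((fam5_pres _ _ _ (by omega) (by omega)).mpr (by omega)) (a + 1) (2 * K)
      0 0 (fun c _ h3 => by
          rw [fam5_pres _ _ _ (by omega) (by omega)] at h3
          have hc := c.isLt
          rcases spec5 K s c with h | h | h | h | h <;> omega) (fun c _ h3 => by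
          rw [fam5_pres _ _ _ (by omega) (by omega)] at h3
          have hc := c.isLt
          rcases spec5 K s c with h | h | h | h | h <;> omega) (by omega)⟩
  · -- CC
    exact ⟨0, vis5_same 0 ((fam5_pres _ _ _ (by omega) (by omega)).mpr (by omega)) ((fam5_pres _ _ _ (by omega) (by omega)).mpr (by omega)) (a + 1) b (fun c _ _ h3 => by
          rw [fam5_pres _ _ _ (by omega) (by omega)] at h3
          have hc := c.isLt
          rcases spec5 K s c with h | h | h | h | h <;> omega) (by omega)⟩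
  · -- CA
    exact ⟨7 * (K + s + 1) + (3 * K + s - 1 - (a : ℕ)), vis5_same _ ((fam5_pres _ _ _ (by omega) (by omega)).mpr (by omega)) ((fam5_pres _ _ _ (by omega) (by omega)).mpr (by omega))
      (3 * K + s) b (fun c _ _ h3 => by
          rw [fam5_pres _ _ _ (by omega) (by omega)] at h3
          have hc := c.isLt
          rcases spec5 K s c with h | h | h | h | h <;> omega) (by omega)⟩
  · -- CE
    exact ⟨15 * (K + s + 1) + ((a : ℕ) - 2 * K), vis5_opp _ ((fam5_pres _ _ _ (by omega) (by omega)).mpr (by omega)) ((fam5_pres _ _ _ (by omega) (by omega)).mpr (by omega)) 0 0 (b + 1)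
      (5 * K + s) (fun c _ h3 => by
          rw [fam5_pres _ _ _ (by omega) (by omega)] at h3
          have hc := c.isLt
          rcases spec5 K s c with h | h | h | h | h <;> omega) (fun c _ h3 => by
          rw [fam5_pres _ _ _ (by omega) (by omega)] at h3
          have hc := c.isLt
          rcases spec5 K s c with h | h | h | h | h <;> omega) (by omega)⟩
  · -- AA
    exact ⟨5 * (K + s + 1), vis5_same _ ((fam5_pres _ _ _ (by omega) (by omega)).mpr (by omega)) ((fam5_pres _ _ _ (by omega) (by omega)).mpr (by omega)) (a + 1) b (fun c _ _ h3 => by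
          rw [fam5_pres _ _ _ (by omega) (by omega)] at h3
          have hc := c.isLt
          rcases spec5 K s c with h | h | h | h | h <;> omega) (by omega)⟩
  · -- AE
    exact ⟨9 * (K + s + 1) + (4 * K + s - 1 - (a : ℕ)), vis5_same _ ((fam5_pres _ _ _ (by omega) (by omega)).mpr (by omega)) ((fam5_pres _ _ _ (by omega) (by omega)).mpr (by omega))
      (4 * K + s) b (fun c _ _ h3 => by
          rw [fam5_pres _ _ _ (by omega) (by omega)] at h3
          have hc := c.isLt
          rcases spec5 K s c with h | h | h | h | h <;> omega) (by omega)⟩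
  · -- EE
    exact ⟨5 * (K + s + 1), vis5_same _ ((fam5_pres _ _ _ (by omega) (by omega)).mpr (by omega)) ((fam5_pres _ _ _ (by omega) (by omega)).mpr (by omega)) (a + 1) b (fun c _ _ h3 => by
          rw [fam5_pres _ _ _ (by omega) (by omega)] at h3
          have hc := c.isLt
          rcases spec5 K s c with h | h | h | h | h <;> omega) (by omega)⟩

end Five

end Pool.Agent.ArcVis
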