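import Pool.Agent.ArcVis.Five

/-!
# The five-block family: counting
-/

namespace Pool.Agent.ArcVis

theorem choose_two_le_ncard (n : ℕ) :
    n.choose 2 ≤ {p : Fin n × Fin n | (p.1 : ℕ) < p.2}.ncard := by
  classical
  have h := SimpleGraph.card_edgeFinset_top_eq_card_choose_two (V := Fin n)
  rw [Fintype.card_fin] at h
  rw [← h]
  have h2 : ((⊤ : SimpleGraph (Fin n)).edgeFinset : Set (Sym2 (Fin n))) ⊆
      (fun p : Fin n × Fin n => s(p.1, p.2)) '' {p : Fin n × Fin n | (p.1 : ℕ) < p.2} := by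
    intro x hx
    induction x using Sym2.ind with
    | _ i j =>
      rw [SimpleGraph.coe_edgeFinset, SimpleGraph.mem_edgeSet, SimpleGraph.top_adj] at hx
      rcases lt_or_gt_of_ne hx with h | h
      · exact ⟨(i, j), h, rfl⟩
      · exact ⟨(j, i), h, Sym2.eq_swap⟩
  rw [← Set.ncard_coe_finset]
  exact (Set.ncard_le_ncard h2 (Set.toFinite _)).trans (Set.ncard_image_le (Set.toFinite _))

theorem tri_small (j m : ℕ) (h : m ≤ j) :
    2 * (∑ i ∈ Finset.range m, (j - 1 - i)) + m * (m + 1) = 2 * m * j := by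
  induction m with
  | zero => simp
  | succ m ih =>
    rw [Finset.sum_range_succ]
    have := ih (by omega)
    obtain ⟨d, rfl⟩ := Nat.exists_eq_add_of_le h
    have e : m + 1 + d - 1 - m = d := by omega
    rw [e]
    nlinarith

theorem tri_large (j m : ℕ) (h : j ≤ m) :
    2 * (∑ i ∈ Finset.range m, (j - 1 - i)) + j = j * j := by
  induction m with
  | zero =>
    have : j = 0 := by omega
    subst this; simp
  | succ m ih =>
    rcases Nat.lt_or_ge m j with h1 | h1
    · have : j = m + 1 := by omega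
      subst this
      have := tri_small (m + 1) (m + 1) le_rfl
      nlinarith
    · rw [Finset.sum_range_succ]
      have := ih h1
      have e : j - 1 - m = 0 := by omega
      rw [e]; omega

/-- number of missing pairs with outer arc `a` (upper bound) -/
def miss5 (K s a : ℕ) : ℕ :=
  if a < K then s - 1 - a
  else if a < 2 * K then s - 1 - (a - K)
  else if a < 3 * K + s then s - 1 - (a - 2 * K)
  else 0

theorem sum_miss5 (K s : ℕ) :
    ∑ a ∈ Finset.range (5 * K + s), miss5 K s a =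
      2 * (∑ i ∈ Finset.range K, (s - 1 - i)) + ∑ i ∈ Finset.range (K + s), (s - 1 - i) := by
  have e : 5 * K + s = K + (K + ((K + s) + 2 * K)) := by ring
  rw [e, Finset.sum_range_add, Finset.sum_range_add, Finset.sum_range_add]
  have h1 : ∑ x ∈ Finset.range K, miss5 K s x = ∑ i ∈ Finset.range K, (s - 1 - i) := by
    apply Finset.sum_congr rfl
    intro x hx
    rw [Finset.mem_range] at hx
    unfold miss5
    rw [if_pos hx]
  have h2 : ∑ x ∈ Finset.range K, miss5 K s (K + x) = ∑ i ∈ Finset.range K, (s - 1 - i) := by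
    apply Finset.sum_congr rfl
    intro x hx
    rw [Finset.mem_range] at hx
    unfold miss5
    rw [if_neg (by omega), if_pos (by omega)]
    omega
  have h3 : ∑ x ∈ Finset.range (K + s), miss5 K s (K + (K + x)) =
      ∑ i ∈ Finset.range (K + s), (s - 1 - i) := by
    apply Finset.sum_congr rfl
    intro x hx
    rw [Finset.mem_range] at hx
    unfold miss5
    rw [if_neg (by omega), if_neg (by omega), if_pos (by omega)]
    omega
  have h4 : ∑ x ∈ Finset.range (2 * K), miss5 K s (K + (K + (K + s + x))) = 0 := by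
    apply Finset.sum_eq_zero
    intro x hx
    unfold miss5
    rw [if_neg (by omega), if_neg (by omega), if_neg (by omega)]
  rw [h1, h2, h3, h4]
  ring

def Miss5 (K s : ℕ) : Set (Fin (5 * K + s) × Fin (5 * K + s)) :=
  {p | (p.1 : ℕ) < p.2 ∧
    (((p.1 : ℕ) < K ∧ 3 * K ≤ (p.2 : ℕ) ∧ (p.2 : ℕ) < 3 * K + s ∧
      (p.1 : ℕ) + p.2 + 2 ≤ 3 * K + s) ∨
    (K ≤ (p.1 : ℕ) ∧ (p.1 : ℕ) < 2 * K ∧ (p.1 : ℕ) + K < p.2 ∧ (p.2 : ℕ) < 2 * K + s) ∨
    (2 * K ≤ (p.1 : ℕ) ∧ (p.2 : ℕ) < 3 * K + s ∧ (p.1 : ℕ) + K < p.2))}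

theorem Miss5_card (K s : ℕ) :
    (Miss5 K s).ncard ≤ ∑ a ∈ Finset.range (5 * K + s), miss5 K s a := by
  classical
  let f : Fin (5 * K + s) × Fin (5 * K + s) → (_ : ℕ) × ℕ := fun p =>
    ⟨(p.1 : ℕ), if (p.1 : ℕ) < K then (p.2 : ℕ) - 3 * K else (p.2 : ℕ) - p.1 - K - 1⟩
  have h : (Miss5 K s).ncard ≤
      (((Finset.range (5 * K + s)).sigma fun a => Finset.range (miss5 K s a)) :
        Set ((_ : ℕ) × ℕ)).ncard := by
    refine Set.ncard_le_ncard_of_injOn f ?_ ?_ (Set.toFinite _)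
    · rintro ⟨a, b⟩ ⟨hab, hm⟩
      have ha := a.isLt
      have hb := b.isLt
      simp only [Finset.coe_sigma, f, Set.mem_sigma_iff, Finset.coe_range, Set.mem_Iio, miss5]
      simp only at hab hm
      refine ⟨ha, ?_⟩
      rcases hm with hm | hm | hm <;> split_ifs <;> omega
    · rintro ⟨a, b⟩ ⟨hab, hm⟩ ⟨a', b'⟩ ⟨hab', hm'⟩ heq
      simp only [f, Sigma.mk.injEq, heq_eq_eq] at heq
      simp only at hab hm hab' hm'
      obtain ⟨h1, h2⟩ := heq
      rw [← h1] at h2
      have h3 : (b : ℕ) = b' := by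
        split_ifs at h2 <;> omega
      exact Prod.ext (Fin.ext h1) (Fin.ext h3)
  rw [Set.ncard_coe_finset, Finset.card_sigma] at h
  simpa using h

theorem five_count {k : ℕ} (s : ℕ) :
    (5 * (k + 1) + s).choose 2 ≤ eMax k (5 * (k + 1) + s) +
      (2 * (∑ i ∈ Finset.range (k + 1), (s - 1 - i)) +
        ∑ i ∈ Finset.range (k + 1 + s), (s - 1 - i)) := by
  have h1 := choose_two_le_ncard (5 * (k + 1) + s)
  have h2 : {p : Fin (5 * (k + 1) + s) × Fin (5 * (k + 1) + s) | (p.1 : ℕ) < p.2} ⊆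
      ((fam5 (k + 1) s).edges k) ∪ Miss5 (k + 1) s := by
    rintro ⟨a, b⟩ hab
    change (a : ℕ) < (b : ℕ) at hab
    by_cases hm : (a, b) ∈ Miss5 (k + 1) s
    · exact Or.inr hm
    · left
      have hm' : ¬ (((a : ℕ) < (k + 1) ∧ 3 * (k + 1) ≤ (b : ℕ) ∧ (b : ℕ) < 3 * (k + 1) + s ∧
          (a : ℕ) + b + 2 ≤ 3 * (k + 1) + s) ∨
        ((k + 1) ≤ (a : ℕ) ∧ (a : ℕ) < 2 * (k + 1) ∧ (a : ℕ) + (k + 1) < b ∧
          (b : ℕ) < 2 * (k + 1) + s) ∨
        (2 * (k + 1) ≤ (a : ℕ) ∧ (b : ℕ) < 3 * (k + 1) + s ∧ (a : ℕ) + (k + 1) < b)) :=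
        fun h => hm ⟨hab, h⟩
      rw [not_or, not_or] at hm'
      exact ⟨hab, vis5 rfl hab hm'.1 hm'.2.1 hm'.2.2⟩
  have h3 := (Set.ncard_le_ncard h2 (Set.toFinite _)).trans (Set.ncard_union_le _ _)
  have h4 := Miss5_card (k + 1) s
  rw [sum_miss5] at h4
  have h5 : ((fam5 (k + 1) s).edges k).ncard ≤ eMax k (5 * (k + 1) + s) :=
    le_eMax (by omega) (fam5 (k + 1) s)
  omega

/-- lower bound below the threshold `6(k+1)` -/
theorem eMax_window (k s : ℕ) (hs : s ≤ k + 1) :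
    (5 * (k + 1) + s).choose 2 ≤ eMax k (5 * (k + 1) + s) + 3 * s.choose 2 := by
  have h := five_count (k := k) s
  have h1 := tri_large s (k + 1) hs
  have h2 := tri_large s (k + 1 + s) (by omega)
  have h3 : 2 * s.choose 2 + s = s * s := by
    rw [Nat.choose_two_right]
    have := Nat.div_mul_cancel (Nat.even_mul_pred_self s).two_dvd
    rcases s with _ | s
    · simp
    · simp only [Nat.add_sub_cancel] at this ⊢
      nlinarith
  omega

/-- lower bound above the threshold `6(k+1)` -/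
theorem eMax_large_lower (k n : ℕ) (hn : 6 * (k + 1) ≤ n) :
    2 * (3 * (k + 1) * n) ≤ 2 * eMax k n + 3 * ((k + 1) * (k + 2)) := by
  obtain ⟨s, rfl⟩ : ∃ s, n = 5 * (k + 1) + s := ⟨n - 5 * (k + 1), by omega⟩
  have hs : k + 1 ≤ s := by omega
  have h := five_count (k := k) s
  have h1 := tri_small s (k + 1) hs
  have h2 := tri_large s (k + 1 + s) (by omega)
  have h3 : 2 * (5 * (k + 1) + s).choose 2 + (5 * (k + 1) + s) =
      (5 * (k + 1) + s) * (5 * (k + 1) + s) := by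
    rw [Nat.choose_two_right]
    set m := 5 * (k + 1) + s with hm
    have := Nat.div_mul_cancel (Nat.even_mul_pred_self m).two_dvd
    obtain ⟨m', hm'⟩ : ∃ m', m = m' + 1 := ⟨m - 1, by omega⟩
    rw [hm'] at this ⊢
    simp only [Nat.add_sub_cancel] at this ⊢
    nlinarith
  nlinarith

/-- restriction of a family to the `m` outermost arcs -/
def Fam.restrict {m n N : ℕ} (F : Fam n N) (h : m ≤ n) : Fam m N where
  s a := F.s (Fin.castLE h a)
  e a := F.e (Fin.castLE h a)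
  le a := F.le _
  len a := F.len _

theorem Fam.restrict_visAt {m n N k : ℕ} (F : Fam n N) (h : m ≤ n) {a b : Fin m} {t : ℤ}
    (hv : F.visAt k (Fin.castLE h a) (Fin.castLE h b) t) : (F.restrict h).visAt k a b t := by
  have hinj : Function.Injective (Fin.castLE h) := Fin.castLE_injective h
  obtain ⟨ha, ⟨hb, hc⟩ | ⟨hb, hc⟩⟩ := hv
  · refine ⟨ha, Or.inl ⟨hb, le_trans ?_ hc⟩⟩
    refine Set.ncard_le_ncard_of_injOn (Fin.castLE h) ?_ hinj.injOn (Set.toFinite _)
    rintro c ⟨h1, h2, h3⟩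
    exact ⟨h1, h2, h3⟩
  · refine ⟨ha, Or.inr ⟨hb, le_trans ?_ hc⟩⟩
    refine Set.ncard_le_ncard_of_injOn (Fin.castLE h) ?_ hinj.injOn (Set.toFinite _)
    rintro c ⟨h1, h2, h3⟩
    exact ⟨fun e => h1 (hinj e), fun e => h2 (hinj e), h3⟩

/-- up to `5(k+1)+1` vertices the complete graph is an arc `k`-visibility graph -/
theorem eMax_small (k : ℕ) {n : ℕ} (hn : n ≤ 5 * (k + 1) + 1) : eMax k n = n.choose 2 := by
  refine le_antisymm (eMax_le_choose k n) ?_
  refine (choose_two_le_ncard n).trans (le_trans (Set.ncard_le_ncard ?_ (Set.toFinite _))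
    (le_eMax (N := 10 * (k + 1 + 1 + 1)) (by omega) ((fam5 (k + 1) 1).restrict hn)))
  rintro ⟨a, b⟩ hab
  change (a : ℕ) < (b : ℕ) at hab
  have ha := a.isLt
  have hb := b.isLt
  obtain ⟨t, ht⟩ := vis5 (K := k + 1) (s := 1) (k := k) rfl (a := Fin.castLE hn a)
    (b := Fin.castLE hn b) hab (by simp only [Fin.val_castLE]; omega)
    (by simp only [Fin.val_castLE]; omega) (by simp only [Fin.val_castLE]; omega)
  exact ⟨hab, t, (fam5 (k + 1) 1).restrict_visAt hn ht⟩

end Pool.Agent.ArcVis
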