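import Pool.Agent.ArcVis.Defs

/-!
# Arc `k`-visibility: from geometric arcs to discrete families
-/

namespace Pool.Agent.ArcVis

open Complex

theorem norm_pt (r θ : ℝ) : ‖pt r θ‖ = |r| := by
  unfold pt
  rw [norm_mul, Complex.norm_exp_ofReal_mul_I, mul_one, Complex.norm_real, Real.norm_eq_abs]

theorem pt_add_pi (r θ : ℝ) : pt r (θ + Real.pi) = pt (-r) θ := by
  unfold pt
  have h : (((θ + Real.pi : ℝ) : ℂ)) * Complex.I = (θ : ℂ) * Complex.I + Real.pi * Complex.I := by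
    push_cast; ring
  rw [h, Complex.exp_add, Complex.exp_pi_mul_I]
  push_cast
  ring

theorem pt_eq_iff {r r' θ θ' : ℝ} (hr : 0 < r) (hr' : 0 < r') :
    pt r θ = pt r' θ' ↔ r = r' ∧ ∃ m : ℤ, θ' = θ + 2 * Real.pi * m := by
  constructor
  · intro h
    have h1 : r = r' := by
      have := congrArg norm h
      rw [norm_pt, norm_pt, abs_of_pos hr, abs_of_pos hr'] at this
      exact this
    refine ⟨h1, ?_⟩
    subst h1
    unfold pt at h
    have h2 : Complex.exp ((θ : ℂ) * Complex.I) = Complex.exp ((θ' : ℂ) * Complex.I) :=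
      mul_left_cancel₀ (by exact_mod_cast hr.ne') h
    obtain ⟨m, hm⟩ := Complex.exp_eq_exp_iff_exists_int.mp h2.symm
    refine ⟨m, ?_⟩
    have h3 : ((θ' : ℂ)) * Complex.I = ((θ : ℂ) + 2 * Real.pi * m) * Complex.I := by
      rw [hm]; ring
    have h4 := mul_right_cancel₀ Complex.I_ne_zero h3
    exact_mod_cast h4
  · rintro ⟨rfl, m, rfl⟩
    unfold pt
    congr 1
    rw [Complex.exp_eq_exp_iff_exists_int]
    refine ⟨-m, ?_⟩
    push_cast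
    ring

/-- presence of the arc with angular interval `[α, β]` in the direction `θ` -/
def gp (α β θ : ℝ) : Prop := ∃ m : ℤ, α ≤ θ + 2 * Real.pi * m ∧ θ + 2 * Real.pi * m ≤ β

theorem gp_add {α β θ : ℝ} (m : ℤ) : gp α β (θ + 2 * Real.pi * m) ↔ gp α β θ := by
  unfold gp
  constructor
  · rintro ⟨j, h1, h2⟩
    refine ⟨j + m, ?_, ?_⟩ <;> push_cast <;> linarith
  · rintro ⟨j, h1, h2⟩
    refine ⟨j - m, ?_, ?_⟩ <;> push_cast <;> linarith

/-- the arc of radius `r` and angular interval `[α, β]` -/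
def arc (r α β : ℝ) : Set ℂ := {z | ∃ θ : ℝ, α ≤ θ ∧ θ ≤ β ∧ z = pt r θ}

theorem mem_arc_iff {r α β ρ θ : ℝ} (hr : 0 < r) (hρ : 0 < ρ) :
    pt ρ θ ∈ arc r α β ↔ ρ = r ∧ gp α β θ := by
  unfold arc gp
  constructor
  · rintro ⟨θ', h1, h2, h3⟩
    obtain ⟨h4, m, h5⟩ := (pt_eq_iff hρ hr).mp h3
    exact ⟨h4, m, by rw [← h5]; exact h1, by rw [← h5]; exact h2⟩
  · rintro ⟨h4, m, h5, h6⟩
    exact ⟨_, h5, h6, (pt_eq_iff hρ hr).mpr ⟨h4, m, rfl⟩⟩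

theorem mem_arc_iff_neg {r α β ρ θ : ℝ} (hr : 0 < r) (hρ : 0 < ρ) :
    pt (-ρ) θ ∈ arc r α β ↔ ρ = r ∧ gp α β (θ + Real.pi) := by
  rw [← pt_add_pi, mem_arc_iff hr hρ]

/-- continuous analogue of `Fam.visAt` -/
def gvis {n : ℕ} (k : ℕ) (r α β : Fin n → ℝ) (i j : Fin n) (θ : ℝ) : Prop :=
  gp (α i) (β i) θ ∧
    ((gp (α j) (β j) θ ∧
        {c : Fin n | c ≠ i ∧ c ≠ j ∧ r j ≤ r c ∧ r c ≤ r i ∧ gp (α c) (β c) θ}.ncard ≤ k) ∨
     (gp (α j) (β j) (θ + Real.pi) ∧ {c : Fin n | c ≠ i ∧ c ≠ j ∧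
        ((r c ≤ r i ∧ gp (α c) (β c) θ) ∨ (r c ≤ r j ∧ gp (α c) (β c) (θ + Real.pi)))}.ncard ≤ k))

theorem gvis_of_kvis {n : ℕ} {k : ℕ} {r α β : Fin n → ℝ} (hr : ∀ i, 0 < r i) {i j : Fin n}
    (hle : r j ≤ r i) (h : KVisible k (fun i => arc (r i) (α i) (β i)) i j) :
    ∃ θ₁ θ₂ : ℝ, θ₁ < θ₂ ∧ ∀ θ, θ₁ ≤ θ → θ ≤ θ₂ → gvis k r α β i j θ := by
  obtain ⟨R, S, T, hcone, hST, hcard⟩ := h
  rcases hcone with ⟨ρ₁, ρ₂, θ₁, θ₂, h1, h2, h3, h4, rfl, rfl, rfl⟩ |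
      ⟨ρ₁, ρ₂, θ₁, θ₂, h1, h2, h3, h4, rfl, rfl, rfl⟩
  · have h2' : 0 < ρ₂ := h1.trans h2
    rcases hST with ⟨hS, hT⟩ | ⟨hS, hT⟩
    · -- S at radius ρ₁ in arc i, T at radius ρ₂ in arc j
      exfalso
      have e1 := (mem_arc_iff (hr i) h1).mp (hS ⟨θ₁, le_refl _, h3.le, rfl⟩)
      have e2 := (mem_arc_iff (hr j) h2').mp (hT ⟨θ₁, le_refl _, h3.le, rfl⟩)
      linarith [e1.1, e2.1]
    · refine ⟨θ₁, θ₂, h3, fun θ hθ1 hθ2 => ?_⟩
      have e1 := (mem_arc_iff (hr j) h1).mp (hS ⟨θ, hθ1, hθ2, rfl⟩)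
      have e2 := (mem_arc_iff (hr i) h2').mp (hT ⟨θ, hθ1, hθ2, rfl⟩)
      refine ⟨e2.2, Or.inl ⟨e1.2, le_trans (Set.ncard_le_ncard ?_ (Set.toFinite _)) hcard⟩⟩
      rintro c ⟨hc1, hc2, hc3, hc4, hc5⟩
      refine ⟨hc1, hc2, pt (r c) θ, (mem_arc_iff (hr c) (hr c)).mpr ⟨rfl, hc5⟩, ?_⟩
      exact ⟨r c, θ, by rw [e1.1]; exact hc3, by rw [e2.1]; exact hc4, hθ1, hθ2, rfl⟩
  · rcases hST with ⟨hS, hT⟩ | ⟨hS, hT⟩
    · -- S at radius -ρ₁ in arc i; T at radius ρ₂ in arc j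
      refine ⟨θ₁ + Real.pi, θ₂ + Real.pi, by linarith, fun θ' hθ1' hθ2' => ?_⟩
      obtain ⟨θ, rfl⟩ : ∃ θ, θ' = θ + Real.pi := ⟨θ' - Real.pi, by ring⟩
      have hθ1 : θ₁ ≤ θ := by linarith
      have hθ2 : θ ≤ θ₂ := by linarith
      have e1 := (mem_arc_iff_neg (hr i) h1).mp (hS ⟨θ, hθ1, hθ2, rfl⟩)
      have e2 := (mem_arc_iff (hr j) h2).mp (hT ⟨θ, hθ1, hθ2, rfl⟩)
      have hpp : ∀ c, gp (α c) (β c) (θ + Real.pi + Real.pi) ↔ gp (α c) (β c) θ := by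
        intro c
        have : θ + Real.pi + Real.pi = θ + 2 * Real.pi * ((1 : ℤ) : ℝ) := by push_cast; ring
        rw [this, gp_add]
      refine ⟨e1.2, Or.inr ⟨(hpp j).mpr e2.2,
        le_trans (Set.ncard_le_ncard ?_ (Set.toFinite _)) hcard⟩⟩
      rintro c ⟨hc1, hc2, hc3⟩
      refine ⟨hc1, hc2, ?_⟩
      rcases hc3 with ⟨hc3, hc4⟩ | ⟨hc3, hc4⟩
      · refine ⟨pt (-(r c)) θ, (mem_arc_iff_neg (hr c) (hr c)).mpr ⟨rfl, hc4⟩, ?_⟩
        exact ⟨-(r c), θ, by linarith [e1.1], by linarith [hr c], hθ1, hθ2, rfl⟩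
      · rw [hpp] at hc4
        refine ⟨pt (r c) θ, (mem_arc_iff (hr c) (hr c)).mpr ⟨rfl, hc4⟩, ?_⟩
        exact ⟨r c, θ, by linarith [hr c], by linarith [e2.1], hθ1, hθ2, rfl⟩
    · refine ⟨θ₁, θ₂, h3, fun θ hθ1 hθ2 => ?_⟩
      have e1 := (mem_arc_iff_neg (hr j) h1).mp (hS ⟨θ, hθ1, hθ2, rfl⟩)
      have e2 := (mem_arc_iff (hr i) h2).mp (hT ⟨θ, hθ1, hθ2, rfl⟩)
      refine ⟨e2.2, Or.inr ⟨e1.2, le_trans (Set.ncard_le_ncard ?_ (Set.toFinite _)) hcard⟩⟩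
      rintro c ⟨hc1, hc2, hc3⟩
      refine ⟨hc1, hc2, ?_⟩
      rcases hc3 with ⟨hc3, hc4⟩ | ⟨hc3, hc4⟩
      · refine ⟨pt (r c) θ, (mem_arc_iff (hr c) (hr c)).mpr ⟨rfl, hc4⟩, ?_⟩
        exact ⟨r c, θ, by linarith [hr c], by linarith [e2.1], hθ1, hθ2, rfl⟩
      · refine ⟨pt (-(r c)) θ, (mem_arc_iff_neg (hr c) (hr c)).mpr ⟨rfl, hc4⟩, ?_⟩
        exact ⟨-(r c), θ, by linarith [e1.1], by linarith [hr c], hθ1, hθ2, rfl⟩


/-- every nondegenerate interval contains a direction avoiding countably many ones -/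
theorem exists_generic {n : ℕ} (α β : Fin n → ℝ) {θ₁ θ₂ : ℝ} (h : θ₁ < θ₂) :
    ∃ θ, θ₁ ≤ θ ∧ θ ≤ θ₂ ∧ ∀ (c : Fin n) (m : ℤ), θ ≠ α c + Real.pi * m ∧ θ ≠ β c + Real.pi * m := by
  let B : Set ℝ := (Set.range fun p : Fin n × ℤ => α p.1 + Real.pi * p.2) ∪
    (Set.range fun p : Fin n × ℤ => β p.1 + Real.pi * p.2)
  have hB : B.Countable := (Set.countable_range _).union (Set.countable_range _)
  obtain ⟨θ, hθ, h1⟩ := (hB.dense_compl ℝ).exists_between h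
  refine ⟨θ, h1.1.le, h1.2.le, fun c m => ⟨fun h => hθ (Or.inl ⟨(c, m), h.symm⟩),
    fun h => hθ (Or.inr ⟨(c, m), h.symm⟩)⟩⟩

/-- the cell number -/
noncomputable def cell (N : ℕ) (θ : ℝ) : ℤ := ⌊(N : ℝ) * θ / Real.pi⌋

theorem cell_add {N : ℕ} (θ : ℝ) (m : ℤ) : cell N (θ + Real.pi * m) = cell N θ + N * m := by
  unfold cell
  have h : (N : ℝ) * (θ + Real.pi * m) / Real.pi = (N : ℝ) * θ / Real.pi + ((N * m : ℤ) : ℝ) := by
    push_cast
    field_simp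
  rw [h, Int.floor_add_intCast]

theorem cell_mono {N : ℕ} {x y : ℝ} (h : x ≤ y) : cell N x ≤ cell N y := by
  unfold cell
  apply Int.floor_le_floor
  have := Real.pi_pos
  gcongr

theorem lt_of_cell_lt {N : ℕ} {x y : ℝ} (h : cell N x < cell N y) : x < y := by
  by_contra hc
  exact absurd (cell_mono (N := N) (not_lt.mp hc)) (not_le.mpr h)

theorem cell_add_two {N : ℕ} (θ : ℝ) (m : ℤ) :
    cell N (θ + 2 * Real.pi * m) = cell N θ + 2 * N * m := by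
  have : θ + 2 * Real.pi * m = θ + Real.pi * ((2 * m : ℤ) : ℝ) := by push_cast; ring
  rw [this, cell_add]
  ring

theorem eventually_cell_ne {θ x : ℝ} (h : ∀ m : ℤ, θ ≠ x + Real.pi * m) :
    ∀ᶠ N : ℕ in Filter.atTop, ∀ m : ℤ, cell N θ + N * m ≠ cell N x := by
  have hpi := Real.pi_pos
  set y : ℝ := (θ - x) / Real.pi with hy
  have hpos : 0 < |y - round y| := by
    rw [abs_pos]
    intro h0
    apply h (round y)
    have : y = round y := by linarith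
    rw [← this, hy]
    field_simp
    ring
  obtain ⟨N0, hN0⟩ := exists_nat_gt (1 / |y - round y|)
  refine Filter.eventually_atTop.mpr ⟨N0, fun N hN m hm => ?_⟩
  have hNr : 1 / |y - round y| < (N : ℝ) := lt_of_lt_of_le hN0 (by exact_mod_cast hN)
  have h1 : 1 < (N : ℝ) * |y - round y| := by
    rwa [div_lt_iff₀ hpos] at hNr
  have h2 : |y - round y| ≤ |y - ((-m : ℤ) : ℝ)| := round_le y (-m)
  have h3 : (1 : ℝ) < N * |y - ((-m : ℤ) : ℝ)| :=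
    lt_of_lt_of_le h1 (by gcongr)
  unfold cell at hm
  have f1 := Int.floor_le ((N : ℝ) * θ / Real.pi)
  have f2 := Int.lt_floor_add_one ((N : ℝ) * θ / Real.pi)
  have f3 := Int.floor_le ((N : ℝ) * x / Real.pi)
  have f4 := Int.lt_floor_add_one ((N : ℝ) * x / Real.pi)
  have hm' : ((⌊(N : ℝ) * θ / Real.pi⌋ : ℤ) : ℝ) + N * m = (⌊(N : ℝ) * x / Real.pi⌋ : ℤ) := by
    exact_mod_cast hm
  have h4 : (N : ℝ) * (y - ((-m : ℤ) : ℝ)) = (N : ℝ) * θ / Real.pi - (N : ℝ) * x / Real.pi + N * m := by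
    rw [hy]; push_cast; ring
  have h5 : |(N : ℝ) * (y - ((-m : ℤ) : ℝ))| < 1 := by
    rw [h4, abs_lt]
    constructor <;> linarith
  rw [abs_mul, abs_of_nonneg (by positivity : (0 : ℝ) ≤ N)] at h5
  linarith

theorem eventually_cell_len {α β : ℝ} (h : β < α + 2 * Real.pi) :
    ∀ᶠ N : ℕ in Filter.atTop, cell N β ≤ cell N α + 2 * N - 2 := by
  have hpi := Real.pi_pos
  have hpos : 0 < 2 - (β - α) / Real.pi := by
    rw [sub_pos, div_lt_iff₀ hpi]; linarith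
  obtain ⟨N0, hN0⟩ := exists_nat_gt (2 / (2 - (β - α) / Real.pi))
  refine Filter.eventually_atTop.mpr ⟨N0, fun N hN => ?_⟩
  have hNr : 2 / (2 - (β - α) / Real.pi) < (N : ℝ) := lt_of_lt_of_le hN0 (by exact_mod_cast hN)
  have h1 : 2 < (N : ℝ) * (2 - (β - α) / Real.pi) := by
    rwa [div_lt_iff₀ hpos] at hNr
  have f3 := Int.floor_le ((N : ℝ) * β / Real.pi)
  have f4 := Int.lt_floor_add_one ((N : ℝ) * α / Real.pi)
  have h2 : (N : ℝ) * (2 - (β - α) / Real.pi) =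
      2 * N - (N : ℝ) * β / Real.pi + (N : ℝ) * α / Real.pi := by ring
  have h3 : ((cell N β : ℤ) : ℝ) < (cell N α : ℤ) + 2 * N - 1 := by
    unfold cell; linarith
  have h4 : cell N β < cell N α + 2 * N - 1 := by exact_mod_cast h3
  omega

theorem exists_fam {n : ℕ} {k : ℕ} {r α β : Fin n → ℝ} (hr : ∀ i, 0 < r i)
    (hanti : ∀ a b : Fin n, a < b → r b ≤ r a) (hαβ : ∀ i, α i ≤ β i)
    (hβα : ∀ i, β i < α i + 2 * Real.pi) :
    ∃ (N : ℕ) (F : Fam n N), 1 ≤ N ∧ ∀ a b : Fin n, a < b →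
      KVisible k (fun i => arc (r i) (α i) (β i)) a b → (a, b) ∈ F.edges k := by
  have key : ∀ a b : Fin n, a < b → KVisible k (fun i => arc (r i) (α i) (β i)) a b →
      ∃ θ, gvis k r α β a b θ ∧
        ∀ (c : Fin n) (m : ℤ), θ ≠ α c + Real.pi * m ∧ θ ≠ β c + Real.pi * m := by
    intro a b hab hv
    obtain ⟨θ₁, θ₂, h12, hg⟩ := gvis_of_kvis hr (hanti a b hab) hv
    obtain ⟨θ, h1, h2, h3⟩ := exists_generic α β h12
    exact ⟨θ, hg θ h1 h2, h3⟩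
  have ev : ∀ᶠ N : ℕ in Filter.atTop, 1 ≤ N ∧ (∀ a, cell N (β a) ≤ cell N (α a) + 2 * N - 2) ∧
      ∀ a b : Fin n, a < b → KVisible k (fun i => arc (r i) (α i) (β i)) a b →
        ∃ θ, gvis k r α β a b θ ∧ ∀ (c : Fin n), (∀ m : ℤ, cell N θ + N * m ≠ cell N (α c)) ∧
          (∀ m : ℤ, cell N θ + N * m ≠ cell N (β c)) := by
    refine (Filter.eventually_ge_atTop 1).and ((Filter.eventually_all.mpr
      fun a => eventually_cell_len (hβα a)).and ?_)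
    refine Filter.eventually_all.mpr fun a => Filter.eventually_all.mpr fun b => ?_
    by_cases hab : a < b ∧ KVisible k (fun i => arc (r i) (α i) (β i)) a b
    · obtain ⟨θ, h1, h2⟩ := key a b hab.1 hab.2
      have : ∀ᶠ N : ℕ in Filter.atTop, ∀ (c : Fin n), (∀ m : ℤ, cell N θ + N * m ≠ cell N (α c)) ∧
          (∀ m : ℤ, cell N θ + N * m ≠ cell N (β c)) :=
        Filter.eventually_all.mpr fun c => (eventually_cell_ne fun m => (h2 c m).1).and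
          (eventually_cell_ne fun m => (h2 c m).2)
      filter_upwards [this] with N hN _ _
      exact ⟨θ, h1, hN⟩
    · exact Filter.Eventually.of_forall fun N h1 h2 => absurd ⟨h1, h2⟩ hab
  obtain ⟨N, hN1, hlen, hvis⟩ := ev.exists
  let F : Fam n N :=
    { s := fun a => cell N (α a)
      e := fun a => cell N (β a)
      le := fun a => cell_mono (hαβ a)
      len := hlen }
  refine ⟨N, F, hN1, fun a b hab hv => ⟨hab, ?_⟩⟩
  obtain ⟨θ, hg, hgen⟩ := hvis a b hab hv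
  have P1 : ∀ (c : Fin n) (φ : ℝ), gp (α c) (β c) φ → F.pres c (cell N φ) := by
    rintro c φ ⟨m, h1, h2⟩
    refine ⟨m, ?_, ?_⟩
    · rw [← cell_add_two]; exact cell_mono h1
    · rw [← cell_add_two]; exact cell_mono h2
  have P2 : ∀ (c : Fin n) (j : ℤ), F.pres c (cell N θ + N * j) →
      gp (α c) (β c) (θ + Real.pi * j) := by
    rintro c j ⟨m, h1, h2⟩
    have e1 : cell N θ + N * j + 2 * N * m = cell N (θ + Real.pi * j + 2 * Real.pi * m) := by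
      rw [cell_add_two, cell_add]
    have g1 := (hgen c).1 (j + 2 * m)
    have g2 := (hgen c).2 (j + 2 * m)
    have e2 : cell N θ + N * (j + 2 * m) = cell N θ + N * j + 2 * N * m := by ring
    rw [e2] at g1 g2
    refine ⟨m, ?_, ?_⟩
    · apply le_of_lt
      apply lt_of_cell_lt (N := N)
      rw [← e1]
      exact lt_of_le_of_ne h1 g1.symm
    · apply le_of_lt
      apply lt_of_cell_lt (N := N)
      rw [← e1]
      exact lt_of_le_of_ne h2 g2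
  have P20 : ∀ (c : Fin n), F.pres c (cell N θ) → gp (α c) (β c) θ := by
    intro c hc
    have := P2 c 0
    simp only [mul_zero, add_zero, Int.cast_zero] at this
    exact this hc
  have P21 : ∀ (c : Fin n), F.pres c (cell N θ + N) → gp (α c) (β c) (θ + Real.pi) := by
    intro c hc
    have := P2 c 1
    simp only [mul_one, Int.cast_one] at this
    exact this hc
  have P11 : ∀ (c : Fin n), gp (α c) (β c) (θ + Real.pi) → F.pres c (cell N θ + N) := by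
    intro c hc
    have := P1 c _ hc
    have e : cell N (θ + Real.pi) = cell N θ + N := by
      have := cell_add (N := N) θ 1
      simpa using this
    rwa [e] at this
  refine ⟨cell N θ, P1 a θ hg.1, ?_⟩
  rcases hg.2 with ⟨h1, h2⟩ | ⟨h1, h2⟩
  · refine Or.inl ⟨P1 b θ h1, le_trans (Set.ncard_le_ncard ?_ (Set.toFinite _)) h2⟩
    rintro c ⟨hc1, hc2, hc3⟩
    exact ⟨hc1.ne', hc2.ne, hanti _ _ hc2, hanti _ _ hc1, P20 c hc3⟩
  · refine Or.inr ⟨P11 b h1, le_trans (Set.ncard_le_ncard ?_ (Set.toFinite _)) h2⟩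
    rintro c ⟨hc1, hc2, hc3⟩
    refine ⟨hc1, hc2, ?_⟩
    rcases hc3 with ⟨h3, h4⟩ | ⟨h3, h4⟩
    · exact Or.inl ⟨hanti _ _ h3, P20 c h4⟩
    · exact Or.inr ⟨hanti _ _ h3, P21 c h4⟩

end Pool.Agent.ArcVis
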