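import Mathlib

/-!
# Arc visibility: one line through the centre, and the four elementary transitions

A line through the centre is described by the finite set `P` of arcs on the near ray and the finite
set `Q` of arcs on the opposite ray; arcs are elements of `Fin n`, `0` being the outermost.
-/

namespace Pool.Agent.ArcVis

open Finset

/-- ranking lemma -/
theorem card_rank_lt {α : Type*} [DecidableEq α] (A : Finset α) (f : α → ℕ)
    (hf : ∀ x ∈ A, ∀ y ∈ A, f x = f y → x = y) (q : ℕ) :
    (A.filter (fun x => (A.filter (fun y => f y < f x)).card < q)).card = min q A.card := by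
  classical
  set g : α → ℕ := fun x => (A.filter (fun y => f y < f x)).card with hg
  have hmono : ∀ x ∈ A, ∀ y ∈ A, f x < f y → g x < g y := by
    intro x hx y hy hxy
    apply Finset.card_lt_card
    refine ⟨?_, ?_⟩
    · intro z hz
      rw [Finset.mem_filter] at hz ⊢
      exact ⟨hz.1, hz.2.trans hxy⟩
    · intro hsub
      have : x ∈ A.filter (fun z => f z < f x) := hsub (by
        rw [Finset.mem_filter]; exact ⟨hx, hxy⟩)
      rw [Finset.mem_filter] at this
      exact lt_irrefl _ this.2
  have hinj : ∀ x ∈ A, ∀ y ∈ A, g x = g y → x = y := by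
    intro x hx y hy hxy
    rcases lt_trichotomy (f x) (f y) with h | h | h
    · exact absurd hxy (hmono x hx y hy h).ne
    · exact hf x hx y hy h
    · exact absurd hxy (hmono y hy x hx h).ne'
  have himg : A.image g = Finset.range A.card := by
    apply Finset.eq_of_subset_of_card_le
    · intro z hz
      rw [Finset.mem_image] at hz
      obtain ⟨x, hx, rfl⟩ := hz
      rw [Finset.mem_range]
      apply Finset.card_lt_card
      refine ⟨Finset.filter_subset _ _, ?_⟩
      intro hsub
      have := hsub hx
      rw [Finset.mem_filter] at this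
      exact lt_irrefl _ this.2
    · rw [Finset.card_range, Finset.card_image_of_injOn]
      intro x hx y hy hxy
      exact hinj x hx y hy hxy
  have h1 : (A.filter (fun x => g x < q)).card = ((A.filter (fun x => g x < q)).image g).card := by
    rw [Finset.card_image_of_injOn]
    intro x hx y hy hxy
    rw [Finset.mem_coe, Finset.mem_filter] at hx hy
    exact hinj x hx.1 y hy.1 hxy
  have h2 : (A.filter (fun x => g x < q)).image g = (Finset.range A.card).filter (fun z => z < q) := by
    rw [← himg, Finset.filter_image]
  have h3 : (Finset.range A.card).filter (fun z => z < q) = Finset.range (min q A.card) := by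
    ext z
    simp only [Finset.mem_filter, Finset.mem_range, lt_min_iff]
    tauto
  rw [h1, h2, h3, Finset.card_range]

variable {n : ℕ}

/-- position key of an arc on the line: near arcs by increasing index, then the other ones by
decreasing index -/
def key (P : Finset (Fin n)) (b : Fin n) : ℕ := if b ∈ P then b.val else 2 * n - b.val

theorem key_inj (P : Finset (Fin n)) {a b : Fin n} (h : key P a = key P b) : a = b := by
  unfold key at h
  have ha := a.isLt
  have hb := b.isLt
  apply Fin.ext
  split_ifs at h <;> omega

/-- arcs of rank `> j` on the line -/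
def up (P Q : Finset (Fin n)) (j : Fin n) : Finset (Fin n) := (P ∪ Q).filter (fun c => j < c)

/-- number of arcs of rank `> j` on the line which come before `b` -/
def dep (P Q : Finset (Fin n)) (j b : Fin n) : ℕ :=
  ((up P Q j).filter (fun c => key P c < key P b)).card

/-- near arcs of rank `< C` -/
def lo (P : Finset (Fin n)) (C : Fin n) : Finset (Fin n) := P.filter (fun a => a < C)

/-- near arcs of rank strictly between `a` and `C` -/
def mid (P : Finset (Fin n)) (a C : Fin n) : Finset (Fin n) := P.filter (fun c => a < c ∧ c < C)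

/-- the arc `j` on the near ray sees the arc `b` of larger rank -/
def Vis (K : ℕ) (P Q : Finset (Fin n)) (j b : Fin n) : Prop :=
  j < b ∧ j ∈ P ∧ b ∈ P ∪ Q ∧ dep P Q j b < K

theorem mem_up {P Q : Finset (Fin n)} {j c : Fin n} : c ∈ up P Q j ↔ (c ∈ P ∨ c ∈ Q) ∧ j < c := by
  unfold up
  rw [Finset.mem_filter, Finset.mem_union]

theorem card_dep_lt (P Q : Finset (Fin n)) (j : Fin n) (q : ℕ) :
    ((up P Q j).filter (fun b => dep P Q j b < q)).card = min q (up P Q j).card := by
  classical
  exact card_rank_lt (up P Q j) (key P) (fun x _ y _ h => key_inj P h) q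

theorem dep_inj {P Q : Finset (Fin n)} {j b b' : Fin n} (hb : b ∈ up P Q j) (hb' : b' ∈ up P Q j)
    (h : dep P Q j b = dep P Q j b') : b = b' := by
  have key1 : ∀ x ∈ up P Q j, ∀ y ∈ up P Q j, key P x < key P y → dep P Q j x < dep P Q j y := by
    intro x hx y hy hxy
    apply Finset.card_lt_card
    refine ⟨?_, ?_⟩
    · intro z hz
      rw [Finset.mem_filter] at hz ⊢
      exact ⟨hz.1, hz.2.trans hxy⟩
    · intro hsub
      have : x ∈ (up P Q j).filter (fun z => key P z < key P x) := hsub (by
        rw [Finset.mem_filter]; exact ⟨hx, hxy⟩)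
      rw [Finset.mem_filter] at this
      exact lt_irrefl _ this.2
  rcases lt_trichotomy (key P b) (key P b') with h1 | h1 | h1
  · exact absurd h (key1 b hb b' hb' h1).ne
  · exact key_inj P h1
  · exact absurd h (key1 b' hb' b hb h1).ne'

theorem dep_lt_card {P Q : Finset (Fin n)} {j b : Fin n} (hb : b ∈ up P Q j) :
    dep P Q j b < (up P Q j).card := by
  apply Finset.card_lt_card
  refine ⟨Finset.filter_subset _ _, ?_⟩
  intro hsub
  have := hsub hb
  rw [Finset.mem_filter] at this
  exact lt_irrefl _ this.2

theorem dep_lt_dep {P Q : Finset (Fin n)} {j x y : Fin n} (hx : x ∈ up P Q j)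
    (hxy : key P x < key P y) : dep P Q j x < dep P Q j y := by
  apply Finset.card_lt_card
  refine ⟨?_, ?_⟩
  · intro z hz
    rw [Finset.mem_filter] at hz ⊢
    exact ⟨hz.1, hz.2.trans hxy⟩
  · intro hsub
    have : x ∈ (up P Q j).filter (fun z => key P z < key P x) := hsub (by
      rw [Finset.mem_filter]; exact ⟨hx, hxy⟩)
    rw [Finset.mem_filter] at this
    exact lt_irrefl _ this.2

/-- depth of a near arc -/
theorem dep_near {P Q : Finset (Fin n)} {a C : Fin n} (hC : C ∈ P) :
    dep P Q a C = (mid P a C).card := by
  unfold dep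
  congr 1
  ext c
  have hc := c.isLt
  have hC' := C.isLt
  simp only [Finset.mem_filter, mem_up, mid, key, if_pos hC]
  constructor
  · rintro ⟨⟨h1, h2⟩, h3⟩
    by_cases hcP : c ∈ P
    · rw [if_pos hcP] at h3
      exact ⟨hcP, h2, h3⟩
    · rw [if_neg hcP] at h3
      omega
  · rintro ⟨h1, h2, h3⟩
    refine ⟨⟨Or.inl h1, h2⟩, ?_⟩
    rw [if_pos h1]
    exact h3

/-- depth of an arc which is only on the far ray -/
theorem dep_far {P Q : Finset (Fin n)} {a C : Fin n} (hC : C ∉ P) (haC : a < C) :
    dep P Q a C = (mid P a C).card + (up P Q C).card := by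
  unfold dep
  rw [← Finset.card_union_of_disjoint]
  · congr 1
    ext c
    have hc := c.isLt
    have hC' := C.isLt
    simp only [Finset.mem_filter, mem_up, mid, key, if_neg hC, Finset.mem_union]
    constructor
    · rintro ⟨⟨h1, h2⟩, h3⟩
      by_cases hcP : c ∈ P
      · rcases lt_trichotomy c C with h | h | h
        · exact Or.inl ⟨hcP, h2, h⟩
        · exact absurd (h ▸ hcP) hC
        · exact Or.inr ⟨Or.inl hcP, h⟩
      · rw [if_neg hcP] at h3
        refine Or.inr ⟨h1, ?_⟩
        rw [Fin.lt_def]
        omega
    · rintro (⟨h1, h2, h3⟩ | ⟨h1, h2⟩)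
      · refine ⟨⟨Or.inl h1, h2⟩, ?_⟩
        rw [if_pos h1]
        omega
      · refine ⟨⟨h1, haC.trans h2⟩, ?_⟩
        rw [Fin.lt_def] at h2
        split_ifs <;> omega
  · rw [Finset.disjoint_left]
    intro c hc hc2
    rw [mid, Finset.mem_filter] at hc
    rw [mem_up] at hc2
    exact lt_asymm hc.2.2 hc2.2

/-- near arcs below `C` with fewer than `q` near arcs in between -/
theorem card_lo_mid (P : Finset (Fin n)) (C : Fin n) (q : ℕ) :
    ((lo P C).filter (fun a => (mid P a C).card < q)).card = min q (lo P C).card := by
  classical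
  have h := card_rank_lt (lo P C) (fun a => n - a.val) (by
    intro x _ y _ hxy
    have hx := x.isLt
    have hy := y.isLt
    apply Fin.ext
    omega) q
  rw [← h]
  congr 1
  apply Finset.filter_congr
  intro a ha
  have : mid P a C = (lo P C).filter (fun y => n - y.val < n - a.val) := by
    ext c
    have hc := c.isLt
    have ha' := a.isLt
    simp only [mid, lo, Finset.mem_filter]
    constructor
    · rintro ⟨h1, h2, h3⟩
      rw [Fin.lt_def] at h2
      exact ⟨⟨h1, h3⟩, by omega⟩
    · rintro ⟨⟨h1, h2⟩, h3⟩
      refine ⟨h1, ?_, h2⟩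
      rw [Fin.lt_def]
      omega
  rw [this]

/-! ### births -/

/-- The pair `(a, b)` is born between the line `(P, Q)` and the line `(P', Q')`. -/
def Birth (K : ℕ) (P Q P' Q' : Finset (Fin n)) (a b : Fin n) : Prop :=
  Vis K P' Q' a b ∧ (¬ Vis K P Q a b ∨ (b ∈ P' ∧ b ∉ P))

open Classical in
/-- the set of born pairs -/
noncomputable def births (K : ℕ) (P Q P' Q' : Finset (Fin n)) : Finset (Fin n × Fin n) :=
  Finset.univ.filter (fun p => Birth K P Q P' Q' p.1 p.2)

theorem mem_births {K : ℕ} {P Q P' Q' : Finset (Fin n)} {p : Fin n × Fin n} :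
    p ∈ births K P Q P' Q' ↔ Birth K P Q P' Q' p.1 p.2 := by
  classical
  unfold births
  simp

theorem up_insert_near {P Q : Finset (Fin n)} {C : Fin n} :
    up (insert C P) Q C = up P Q C := by
  ext c
  simp only [mem_up, Finset.mem_insert]
  constructor
  · rintro ⟨(rfl | h) | h, h2⟩
    · exact absurd h2 (lt_irrefl _)
    · exact ⟨Or.inl h, h2⟩
    · exact ⟨Or.inr h, h2⟩
  · rintro ⟨h | h, h2⟩
    · exact ⟨Or.inl (Or.inr h), h2⟩
    · exact ⟨Or.inr h, h2⟩

theorem up_insert_far {P Q : Finset (Fin n)} {C : Fin n} :
    up P (insert C Q) C = up P Q C := by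
  ext c
  simp only [mem_up, Finset.mem_insert]
  constructor
  · rintro ⟨h | (rfl | h), h2⟩
    · exact ⟨Or.inl h, h2⟩
    · exact absurd h2 (lt_irrefl _)
    · exact ⟨Or.inr h, h2⟩
  · rintro ⟨h | h, h2⟩
    · exact ⟨Or.inl h, h2⟩
    · exact ⟨Or.inr (Or.inr h), h2⟩

theorem mid_insert {P : Finset (Fin n)} {a C : Fin n} : mid (insert C P) a C = mid P a C := by
  ext c
  simp only [mid, Finset.mem_filter, Finset.mem_insert]
  constructor
  · rintro ⟨rfl | h, h2⟩
    · exact absurd h2.2 (lt_irrefl _)
    · exact ⟨h, h2⟩
  · rintro ⟨h, h2⟩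
    exact ⟨Or.inr h, h2⟩

/-- near start of `C` -/
theorem births_near_start {K : ℕ} {P Q : Finset (Fin n)} {C : Fin n} (hC : C ∉ P) :
    (births K P Q (insert C P) Q).card ≤ min K (up P Q C).card + min K (lo P C).card := by
  classical
  set A : Finset (Fin n × Fin n) :=
    ((up (insert C P) Q C).filter (fun b => dep (insert C P) Q C b < K)).image (fun b => (C, b))
    with hA
  set B : Finset (Fin n × Fin n) :=
    ((lo P C).filter (fun a => (mid P a C).card < K)).image (fun a => (a, C)) with hB
  have hsub : births K P Q (insert C P) Q ⊆ A ∪ B := by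
    rintro ⟨a, b⟩ hp
    rw [mem_births] at hp
    obtain ⟨⟨hab, haP, hbU, hd⟩, hor⟩ := hp
    simp only at hab haP hbU hd hor
    rw [Finset.mem_union]
    by_cases haC : a = C
    · subst haC
      left
      rw [hA, Finset.mem_image]
      refine ⟨b, ?_, rfl⟩
      rw [Finset.mem_filter, mem_up]
      rw [Finset.mem_union] at hbU
      exact ⟨⟨hbU, hab⟩, hd⟩
    · have haP' : a ∈ P := by
        rw [Finset.mem_insert] at haP
        exact haP.resolve_left haC
      by_cases hbC : b = C
      · subst hbC
        right
        rw [hB, Finset.mem_image]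
        refine ⟨a, ?_, rfl⟩
        rw [Finset.mem_filter, lo, Finset.mem_filter]
        rw [dep_near (Finset.mem_insert_self b P), mid_insert] at hd
        exact ⟨⟨haP', hab⟩, hd⟩
      · exfalso
        have hbPiff : b ∈ insert C P ↔ b ∈ P := by
          rw [Finset.mem_insert]
          exact ⟨fun h => h.resolve_left hbC, fun h => Or.inr h⟩
        rcases hor with hor | hor
        · apply hor
          refine ⟨hab, haP', ?_, lt_of_le_of_lt ?_ hd⟩
          · rw [Finset.mem_union] at hbU ⊢
            rw [hbPiff] at hbU
            exact hbU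
          · unfold dep
            apply Finset.card_le_card
            intro c hc
            rw [Finset.mem_filter, mem_up] at hc ⊢
            obtain ⟨⟨hc1, hc2⟩, hc3⟩ := hc
            have hcC : c ≠ C ∨ c = C := (em (c = C)).symm
            refine ⟨⟨?_, hc2⟩, ?_⟩
            · rcases hc1 with h | h
              · exact Or.inl (Finset.mem_insert_of_mem h)
              · exact Or.inr h
            · have hb := b.isLt
              have hcl := c.isLt
              have hkb : key (insert C P) b = key P b := by
                unfold key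
                by_cases hbP : b ∈ P
                · rw [if_pos hbP, if_pos (hbPiff.2 hbP)]
                · rw [if_neg hbP, if_neg (fun h => hbP (hbPiff.1 h))]
              rw [hkb]
              refine lt_of_le_of_lt ?_ hc3
              unfold key
              by_cases hcP : c ∈ P
              · rw [if_pos hcP, if_pos (Finset.mem_insert_of_mem hcP)]
              · rw [if_neg hcP]
                split_ifs <;> omega
        · exact hor.2 (hbPiff.1 hor.1)
  calc (births K P Q (insert C P) Q).card ≤ (A ∪ B).card := Finset.card_le_card hsub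
    _ ≤ A.card + B.card := Finset.card_union_le _ _
    _ ≤ _ := by
      refine Nat.add_le_add ?_ ?_
      · refine Finset.card_image_le.trans ?_
        rw [card_dep_lt, up_insert_near]
      · refine Finset.card_image_le.trans ?_
        rw [card_lo_mid]

/-- far start of `C` -/
theorem births_far_start {K : ℕ} {P Q : Finset (Fin n)} {C : Fin n} :
    (births K P Q P (insert C Q)).card ≤ min (K - (up P Q C).card) (lo P C).card := by
  classical
  set B : Finset (Fin n × Fin n) :=
    ((lo P C).filter (fun a => (mid P a C).card < K - (up P Q C).card)).image (fun a => (a, C))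
    with hB
  have hsub : births K P Q P (insert C Q) ⊆ B := by
    rintro ⟨a, b⟩ hp
    rw [mem_births] at hp
    obtain ⟨⟨hab, haP, hbU, hd⟩, hor⟩ := hp
    simp only at hab haP hbU hd hor
    have hor' : ¬ Vis K P Q a b := hor.resolve_right (fun h => h.2 h.1)
    have hmono : dep P Q a b ≤ dep P (insert C Q) a b := by
      unfold dep
      apply Finset.card_le_card
      intro c hc
      rw [Finset.mem_filter, mem_up] at hc ⊢
      refine ⟨⟨?_, hc.1.2⟩, hc.2⟩
      rcases hc.1.1 with h | h
      · exact Or.inl h
      · exact Or.inr (Finset.mem_insert_of_mem h)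
    have hbU' : b ∉ P ∪ Q := fun h => hor' ⟨hab, haP, h, lt_of_le_of_lt hmono hd⟩
    have hbC : b = C := by
      rw [Finset.mem_union, Finset.mem_insert] at hbU
      rw [Finset.mem_union, not_or] at hbU'
      rcases hbU with h | h | h
      · exact absurd h hbU'.1
      · exact h
      · exact absurd h hbU'.2
    subst hbC
    rw [hB, Finset.mem_image]
    refine ⟨a, ?_, rfl⟩
    rw [Finset.mem_filter, lo, Finset.mem_filter]
    refine ⟨⟨haP, hab⟩, ?_⟩
    have hbP : b ∉ P := fun h => hbU' (Finset.mem_union_left _ h)
    rw [dep_far hbP hab, up_insert_far] at hd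
    omega
  calc (births K P Q P (insert C Q)).card ≤ B.card := Finset.card_le_card hsub
    _ ≤ _ := by
      refine Finset.card_image_le.trans ?_
      rw [card_lo_mid]

/-- near end of `C` -/
theorem births_near_end {K : ℕ} {P Q : Finset (Fin n)} {C : Fin n} (hC : C ∈ P) :
    (births K P Q (P.erase C) Q).card ≤
      ((lo P C).filter (fun a => (mid P a C).card < K ∧ K + 1 ≤ (up P Q a).card)).card := by
  classical
  have key1 : ∀ a b, Birth K P Q (P.erase C) Q a b →
      a < b ∧ a ∈ P ∧ a < C ∧ b ∈ up P Q a ∧ dep P Q a b = K ∧ dep P Q a C < K := by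
    intro a b ⟨⟨hab, haP, hbU, hd⟩, hor⟩
    have haC : a ≠ C := fun h => by
      rw [h] at haP
      exact absurd haP (Finset.notMem_erase _ _)
    have haP' : a ∈ P := Finset.mem_of_mem_erase haP
    have hmid : mid (P.erase C) a C = mid P a C := by
      ext c
      simp only [mid, Finset.mem_filter, Finset.mem_erase]
      constructor
      · rintro ⟨⟨_, h⟩, h2⟩
        exact ⟨h, h2⟩
      · rintro ⟨h, h2⟩
        exact ⟨⟨h2.2.ne, h⟩, h2⟩
    by_cases hbC : b = C
    · exfalso
      subst hbC
      have hbn : b ∉ P.erase b := Finset.notMem_erase _ _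
      rw [dep_far hbn hab, hmid] at hd
      rcases hor with hor | hor
      · apply hor
        refine ⟨hab, haP', Finset.mem_union_left _ hC, ?_⟩
        rw [dep_near hC]
        omega
      · exact hbn hor.1
    · have hbPiff : b ∈ P.erase C ↔ b ∈ P := by
        rw [Finset.mem_erase]
        exact ⟨fun h => h.2, fun h => ⟨hbC, h⟩⟩
      have hbU' : b ∈ P ∪ Q := by
        rw [Finset.mem_union] at hbU ⊢
        rw [hbPiff] at hbU
        exact hbU
      have hbup : b ∈ up P Q a := by
        rw [mem_up]
        rw [Finset.mem_union] at hbU'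
        exact ⟨hbU', hab⟩
      have hnv : ¬ Vis K P Q a b := by
        rcases hor with hor | hor
        · exact hor
        · exact absurd (hbPiff.1 hor.1) hor.2
      have hdK : K ≤ dep P Q a b := by
        by_contra hlt
        exact hnv ⟨hab, haP', hbU', not_le.1 hlt⟩
      have hkb : key (P.erase C) b = key P b := by
        unfold key
        by_cases hbP : b ∈ P
        · rw [if_pos hbP, if_pos (hbPiff.2 hbP)]
        · rw [if_neg hbP, if_neg (fun h => hbP (hbPiff.1 h))]
      -- the filter sets differ at most in `C`
      have hsub : (up P Q a).filter (fun c => key P c < key P b) ⊆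
          insert C ((up (P.erase C) Q a).filter
            (fun c => key (P.erase C) c < key (P.erase C) b)) := by
        intro c hc
        rw [Finset.mem_filter, mem_up] at hc
        rw [Finset.mem_insert]
        by_cases hcC : c = C
        · exact Or.inl hcC
        · right
          rw [Finset.mem_filter, mem_up, Finset.mem_erase]
          refine ⟨⟨?_, hc.1.2⟩, ?_⟩
          · rcases hc.1.1 with h | h
            · exact Or.inl ⟨hcC, h⟩
            · exact Or.inr h
          · rw [hkb]
            have : key (P.erase C) c = key P c := by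
              unfold key
              by_cases hcP : c ∈ P
              · rw [if_pos hcP, if_pos (Finset.mem_erase.2 ⟨hcC, hcP⟩)]
              · rw [if_neg hcP, if_neg (fun h => hcP (Finset.mem_of_mem_erase h))]
            rw [this]
            exact hc.2
      have hcard := (Finset.card_le_card hsub).trans (Finset.card_insert_le _ _)
      have hd' : dep P Q a b ≤ dep (P.erase C) Q a b + 1 := hcard
      have hdeq : dep P Q a b = K := by omega
      -- `C` really comes before `b`
      have hCin : C ∈ (up P Q a).filter (fun c => key P c < key P b) := by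
        by_contra hCn
        have hsub2 : (up P Q a).filter (fun c => key P c < key P b) ⊆
            (up (P.erase C) Q a).filter (fun c => key (P.erase C) c < key (P.erase C) b) := by
          intro c hc
          have hcC : c ≠ C := fun h => hCn (h ▸ hc)
          have := hsub hc
          rw [Finset.mem_insert] at this
          exact this.resolve_left hcC
        have := Finset.card_le_card hsub2
        have h3 : dep P Q a b ≤ dep (P.erase C) Q a b := this
        omega
      rw [Finset.mem_filter, mem_up] at hCin
      have hCup : C ∈ up P Q a := by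
        rw [mem_up]; exact hCin.1
      refine ⟨hab, haP', hCin.1.2, hbup, hdeq, ?_⟩
      rw [← hdeq]
      exact dep_lt_dep hCup hCin.2
  have hinj : Set.InjOn (fun p : Fin n × Fin n => p.1) (births K P Q (P.erase C) Q) := by
    rintro ⟨a, b⟩ hp ⟨a', b'⟩ hp' h
    rw [Finset.mem_coe, mem_births] at hp hp'
    simp only at h
    subst h
    have h1 := key1 _ _ hp
    have h2 := key1 _ _ hp'
    have : b = b' := dep_inj h1.2.2.2.1 h2.2.2.2.1 (by rw [h1.2.2.2.2.1, h2.2.2.2.2.1])
    rw [this]
  rw [← Finset.card_image_of_injOn hinj]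
  apply Finset.card_le_card
  intro a ha
  rw [Finset.mem_image] at ha
  obtain ⟨⟨a', b⟩, hp, rfl⟩ := ha
  rw [mem_births] at hp
  obtain ⟨hab, haP, haC, hbup, hdK, hdC⟩ := key1 _ _ hp
  rw [Finset.mem_filter, lo, Finset.mem_filter]
  refine ⟨⟨haP, haC⟩, ?_, ?_⟩
  · rw [dep_near hC] at hdC
    exact hdC
  · have := dep_lt_card hbup
    rw [hdK] at this
    exact this

/-- far end of `C` -/
theorem births_far_end {K : ℕ} {P Q : Finset (Fin n)} {C : Fin n} :
    (births K P Q P (Q.erase C)).card ≤
      ((lo P C).filter (fun a => (mid P a C).card + (up P Q C).card < K ∧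
        K + 1 ≤ (up P Q a).card)).card := by
  classical
  have key1 : ∀ a b, Birth K P Q P (Q.erase C) a b →
      a < b ∧ a ∈ P ∧ a < C ∧ b ∈ up P Q a ∧ dep P Q a b = K ∧ dep P Q a C < K ∧ C ∉ P := by
    intro a b ⟨⟨hab, haP, hbU, hd⟩, hor⟩
    have hnv : ¬ Vis K P Q a b := hor.resolve_right (fun h => h.2 h.1)
    have hbU' : b ∈ P ∪ Q := by
      rw [Finset.mem_union] at hbU ⊢
      exact hbU.imp id Finset.mem_of_mem_erase
    have hbup : b ∈ up P Q a := by
      rw [mem_up]
      rw [Finset.mem_union] at hbU'
      exact ⟨hbU', hab⟩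
    have hdK : K ≤ dep P Q a b := by
      by_contra hlt
      exact hnv ⟨hab, haP, hbU', not_le.1 hlt⟩
    have hsub : (up P Q a).filter (fun c => key P c < key P b) ⊆
        insert C ((up P (Q.erase C) a).filter (fun c => key P c < key P b)) := by
      intro c hc
      rw [Finset.mem_filter, mem_up] at hc
      rw [Finset.mem_insert]
      by_cases hcC : c = C
      · exact Or.inl hcC
      · right
        rw [Finset.mem_filter, mem_up, Finset.mem_erase]
        refine ⟨⟨?_, hc.1.2⟩, hc.2⟩
        rcases hc.1.1 with h | h
        · exact Or.inl h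
        · exact Or.inr ⟨hcC, h⟩
    have hcard := (Finset.card_le_card hsub).trans (Finset.card_insert_le _ _)
    have hd' : dep P Q a b ≤ dep P (Q.erase C) a b + 1 := hcard
    have hdeq : dep P Q a b = K := by omega
    have hCn : ∀ (hh : C ∉ (up P Q a).filter (fun c => key P c < key P b) ∨
        C ∈ (up P (Q.erase C) a).filter (fun c => key P c < key P b)), False := by
      intro hh
      have hsub2 : (up P Q a).filter (fun c => key P c < key P b) ⊆
          (up P (Q.erase C) a).filter (fun c => key P c < key P b) := by
        intro c hc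
        have := hsub hc
        rw [Finset.mem_insert] at this
        rcases this with h | h
        · rcases hh with h' | h'
          · exact absurd (h ▸ hc) h'
          · rw [h]; exact h'
        · exact h
      have := Finset.card_le_card hsub2
      have h3 : dep P Q a b ≤ dep P (Q.erase C) a b := this
      omega
    have hCin : C ∈ (up P Q a).filter (fun c => key P c < key P b) := by
      by_contra h
      exact hCn (Or.inl h)
    have hCP : C ∉ P := by
      intro h
      apply hCn
      right
      rw [Finset.mem_filter, mem_up] at hCin ⊢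
      exact ⟨⟨Or.inl h, hCin.1.2⟩, hCin.2⟩
    rw [Finset.mem_filter, mem_up] at hCin
    have hCup : C ∈ up P Q a := by
      rw [mem_up]; exact hCin.1
    refine ⟨hab, haP, hCin.1.2, hbup, hdeq, ?_, hCP⟩
    rw [← hdeq]
    exact dep_lt_dep hCup hCin.2
  have hinj : Set.InjOn (fun p : Fin n × Fin n => p.1) (births K P Q P (Q.erase C)) := by
    rintro ⟨a, b⟩ hp ⟨a', b'⟩ hp' h
    rw [Finset.mem_coe, mem_births] at hp hp'
    simp only at h
    subst h
    have h1 := key1 _ _ hp
    have h2 := key1 _ _ hp'
    have : b = b' := dep_inj h1.2.2.2.1 h2.2.2.2.1 (by rw [h1.2.2.2.2.1, h2.2.2.2.2.1])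
    rw [this]
  rw [← Finset.card_image_of_injOn hinj]
  apply Finset.card_le_card
  intro a ha
  rw [Finset.mem_image] at ha
  obtain ⟨⟨a', b⟩, hp, rfl⟩ := ha
  rw [mem_births] at hp
  obtain ⟨hab, haP, haC, hbup, hdK, hdC, hCP⟩ := key1 _ _ hp
  rw [Finset.mem_filter, lo, Finset.mem_filter]
  refine ⟨⟨haP, haC⟩, ?_, ?_⟩
  · rw [dep_far hCP haC] at hdC
    exact hdC
  · have := dep_lt_card hbup
    rw [hdK] at this
    exact this

end Pool.Agent.ArcVis
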