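import Pool.Agent.ArcVis.Combo

/-! # Separated families: one event at a time; total number of births -/

namespace Pool.Agent.ArcVis

open Finset

/-- A separated family: `n` cyclic intervals `[S a, E a)` modulo `2H`, all endpoints distinct
modulo `H`. -/
structure Sep (n : ℕ) (H : ℤ) where
  S : Fin n → ℤ
  E : Fin n → ℤ
  hH : 0 < H
  lt : ∀ a, S a < E a
  len : ∀ a, E a < S a + 2 * H
  sepS : ∀ a b (m : ℤ), S a = S b + H * m → a = b
  sepE : ∀ a b (m : ℤ), E a = E b + H * m → a = b
  sepSE : ∀ a b (m : ℤ), S a ≠ E b + H * m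

namespace Sep

variable {n : ℕ} {H : ℤ} (F : Sep n H)

/-- arc `a` is present on ray `t` -/
def pres (a : Fin n) (t : ℤ) : Prop := ∃ m : ℤ, F.S a ≤ t + 2 * H * m ∧ t + 2 * H * m < F.E a

theorem pres_add (a : Fin n) (t m : ℤ) : F.pres a (t + 2 * H * m) ↔ F.pres a t := by
  constructor
  · rintro ⟨m', h1, h2⟩
    refine ⟨m + m', ?_, ?_⟩
    · rw [mul_add]; linarith
    · rw [mul_add]; linarith
  · rintro ⟨m', h1, h2⟩
    refine ⟨m' - m, ?_, ?_⟩
    · rw [mul_sub]; linarith
    · rw [mul_sub]; linarith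

def StartAt (a : Fin n) (t : ℤ) : Prop := ¬ F.pres a t ∧ F.pres a (t + 1)
def EndAt (a : Fin n) (t : ℤ) : Prop := F.pres a t ∧ ¬ F.pres a (t + 1)
def Ev (a : Fin n) (t : ℤ) : Prop := F.StartAt a t ∨ F.EndAt a t

include F in
theorem two_mul_H_pos : 0 < 2 * H := by have := F.hH; linarith

theorem step_pos {H m : ℤ} (hH : 0 < 2 * H) (h : 0 < 2 * H * m) : 2 * H ≤ 2 * H * m := by
  have hm : 0 < m := by
    by_contra hc
    rw [not_lt] at hc
    have := mul_nonpos_of_nonneg_of_nonpos hH.le hc
    linarith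
  nlinarith

theorem startAt_iff (a : Fin n) (t : ℤ) :
    F.StartAt a t ↔ ∃ m : ℤ, t + 1 + 2 * H * m = F.S a := by
  have hH := F.two_mul_H_pos
  have hlen := F.len a
  have hlt := F.lt a
  constructor
  · rintro ⟨h1, m, h2, h3⟩
    refine ⟨m, ?_⟩
    by_contra hne
    apply h1
    refine ⟨m, ?_, by linarith⟩
    rcases lt_or_eq_of_le h2 with h | h
    · linarith
    · exact absurd h.symm hne
  · rintro ⟨m, hm⟩
    refine ⟨?_, m, by linarith, by linarith⟩
    rintro ⟨m', h1, h2⟩
    have h3 : 0 < 2 * H * (m' - m) := by rw [mul_sub]; linarith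
    have h4 := step_pos hH h3
    rw [mul_sub] at h4
    linarith

theorem endAt_iff (a : Fin n) (t : ℤ) :
    F.EndAt a t ↔ ∃ m : ℤ, t + 1 + 2 * H * m = F.E a := by
  have hH := F.two_mul_H_pos
  have hlen := F.len a
  have hlt := F.lt a
  constructor
  · rintro ⟨⟨m, h2, h3⟩, h1⟩
    refine ⟨m, ?_⟩
    by_contra hne
    apply h1
    refine ⟨m, by linarith, ?_⟩
    rcases lt_or_eq_of_le (show t + 1 + 2 * H * m ≤ F.E a by linarith) with h | h
    · exact h
    · exact absurd h hne
  · rintro ⟨m, hm⟩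
    refine ⟨⟨m, by linarith, by linarith⟩, ?_⟩
    rintro ⟨m', h1, h2⟩
    have h3 : 0 < 2 * H * (m - m') := by rw [mul_sub]; linarith
    have h4 := step_pos hH h3
    rw [mul_sub] at h4
    linarith

theorem startAt_add (a : Fin n) (t m : ℤ) : F.StartAt a (t + 2 * H * m) ↔ F.StartAt a t := by
  unfold StartAt
  rw [pres_add, show t + 2 * H * m + 1 = t + 1 + 2 * H * m by ring, pres_add]

theorem endAt_add (a : Fin n) (t m : ℤ) : F.EndAt a (t + 2 * H * m) ↔ F.EndAt a t := by
  unfold EndAt
  rw [pres_add, show t + 2 * H * m + 1 = t + 1 + 2 * H * m by ring, pres_add]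

theorem ev_add (a : Fin n) (t m : ℤ) : F.Ev a (t + 2 * H * m) ↔ F.Ev a t := by
  unfold Ev
  rw [startAt_add, endAt_add]

theorem ev_uniq {a b : Fin n} {t m : ℤ} (h1 : F.Ev a t) (h2 : F.Ev b (t + H * m)) :
    a = b ∧ ∃ m', m = 2 * m' := by
  have hH := F.hH
  unfold Ev at h1 h2
  rw [startAt_iff, endAt_iff] at h1 h2
  rcases h1 with ⟨m1, h1⟩ | ⟨m1, h1⟩ <;> rcases h2 with ⟨m2, h2⟩ | ⟨m2, h2⟩
  · have hab : b = a := F.sepS b a (m + 2 * m2 - 2 * m1) (by rw [← h1, ← h2]; ring)
    subst hab
    refine ⟨rfl, m1 - m2, ?_⟩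
    have : H * m = H * (2 * (m1 - m2)) := by linarith
    exact mul_left_cancel₀ hH.ne' this
  · exact absurd (show F.S a = F.E b + H * (2 * m1 - 2 * m2 - m) by rw [← h1, ← h2]; ring)
      (F.sepSE a b _)
  · exact absurd (show F.S b = F.E a + H * (m + 2 * m2 - 2 * m1) by rw [← h1, ← h2]; ring)
      (F.sepSE b a _)
  · have hab : b = a := F.sepE b a (m + 2 * m2 - 2 * m1) (by rw [← h1, ← h2]; ring)
    subst hab
    refine ⟨rfl, m1 - m2, ?_⟩
    have : H * m = H * (2 * (m1 - m2)) := by linarith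
    exact mul_left_cancel₀ hH.ne' this

theorem not_start_end {a : Fin n} {t : ℤ} (h1 : F.StartAt a t) (h2 : F.EndAt a t) : False :=
  h1.1 h2.1

theorem pres_iff_of_not_ev {a : Fin n} {t : ℤ} (h : ¬ F.Ev a t) :
    F.pres a (t + 1) ↔ F.pres a t := by
  unfold Ev StartAt EndAt at h
  tauto

open Classical in
/-- the set of arcs present on ray `t` -/
noncomputable def P (t : ℤ) : Finset (Fin n) := Finset.univ.filter (fun a => F.pres a t)

theorem mem_P {a : Fin n} {t : ℤ} : a ∈ F.P t ↔ F.pres a t := by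
  classical
  unfold P
  simp

theorem P_add (t m : ℤ) : F.P (t + 2 * H * m) = F.P t := by
  ext a
  rw [mem_P, mem_P, pres_add]

theorem P_add' (t : ℤ) : F.P (t + H + H) = F.P t := by
  rw [show t + H + H = t + 2 * H * 1 by ring, P_add]

/-- near event: far side unchanged -/
theorem P_far_of_near {C : Fin n} {t : ℤ} (h : F.Ev C t) : F.P (t + 1 + H) = F.P (t + H) := by
  ext a
  rw [mem_P, mem_P, show t + 1 + H = t + H + 1 by ring]
  apply F.pres_iff_of_not_ev
  intro h2
  have := F.ev_uniq (m := 1) h (by rw [mul_one]; exact h2)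
  obtain ⟨_, m', hm'⟩ := this
  omega

theorem P_near_of_far {C : Fin n} {t : ℤ} (h : F.Ev C (t + H)) : F.P (t + 1) = F.P t := by
  ext a
  rw [mem_P, mem_P]
  apply F.pres_iff_of_not_ev
  intro h2
  have := F.ev_uniq (m := 1) h2 (by rw [mul_one]; exact h)
  obtain ⟨_, m', hm'⟩ := this
  omega

theorem P_start {C : Fin n} {t : ℤ} (h : F.StartAt C t) :
    C ∉ F.P t ∧ F.P (t + 1) = insert C (F.P t) := by
  refine ⟨fun hc => h.1 (F.mem_P.1 hc), ?_⟩
  ext a
  rw [Finset.mem_insert, mem_P, mem_P]
  by_cases ha : a = C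
  · subst ha
    exact ⟨fun _ => Or.inl rfl, fun _ => h.2⟩
  · rw [F.pres_iff_of_not_ev]
    · exact ⟨fun h => Or.inr h, fun h => h.resolve_left ha⟩
    · intro h2
      exact ha (F.ev_uniq (m := 0) h2 (by rw [mul_zero, add_zero]; exact Or.inl h)).1

theorem P_end {C : Fin n} {t : ℤ} (h : F.EndAt C t) :
    C ∈ F.P t ∧ F.P (t + 1) = (F.P t).erase C := by
  refine ⟨F.mem_P.2 h.1, ?_⟩
  ext a
  rw [Finset.mem_erase, mem_P, mem_P]
  by_cases ha : a = C
  · subst ha
    exact ⟨fun h2 => absurd h2 h.2, fun h2 => absurd rfl h2.1⟩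
  · rw [F.pres_iff_of_not_ev]
    · exact ⟨fun h => ⟨ha, h⟩, fun h => h.2⟩
    · intro h2
      exact ha (F.ev_uniq (m := 0) h2 (by rw [mul_zero, add_zero]; exact Or.inr h)).1

/-- number of births at time `t` -/
noncomputable def G (K : ℕ) (t : ℤ) : ℕ :=
  (births K (F.P t) (F.P (t + H)) (F.P (t + 1)) (F.P (t + 1 + H))).card

theorem G_near_start {K : ℕ} {C : Fin n} {t : ℤ} (h : F.StartAt C t) :
    F.G K t ≤ min K (up (F.P t) (F.P (t + H)) C).card + min K (lo (F.P t) C).card := by
  unfold G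
  rw [(F.P_start h).2, F.P_far_of_near (Or.inl h)]
  exact births_near_start (F.P_start h).1

theorem G_far_start {K : ℕ} {C : Fin n} {t : ℤ} (h : F.StartAt C (t + H)) :
    F.G K t ≤ min (K - (up (F.P t) (F.P (t + H)) C).card) (lo (F.P t) C).card := by
  unfold G
  rw [F.P_near_of_far (Or.inl h), show t + 1 + H = t + H + 1 by ring, (F.P_start h).2]
  exact births_far_start

theorem G_near_end {K : ℕ} {C : Fin n} {t : ℤ} (h : F.EndAt C t) :
    F.G K t ≤ ((lo (F.P t) C).filter (fun a => (mid (F.P t) a C).card < K ∧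
      K + 1 ≤ (up (F.P t) (F.P (t + H)) a).card)).card := by
  unfold G
  rw [(F.P_end h).2, F.P_far_of_near (Or.inr h)]
  exact births_near_end (F.P_end h).1

theorem G_far_end {K : ℕ} {C : Fin n} {t : ℤ} (h : F.EndAt C (t + H)) :
    F.G K t ≤ ((lo (F.P t) C).filter (fun a => (mid (F.P t) a C).card +
      (up (F.P t) (F.P (t + H)) C).card < K ∧
      K + 1 ≤ (up (F.P t) (F.P (t + H)) a).card)).card := by
  unfold G
  rw [F.P_near_of_far (Or.inr h), show t + 1 + H = t + H + 1 by ring, (F.P_end h).2]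
  exact births_far_end

theorem G_none {K : ℕ} {t : ℤ} (h1 : ∀ C, ¬ F.Ev C t) (h2 : ∀ C, ¬ F.Ev C (t + H)) :
    F.G K t = 0 := by
  unfold G
  have e1 : F.P (t + 1) = F.P t := by
    ext a
    rw [mem_P, mem_P]
    exact F.pres_iff_of_not_ev (h1 a)
  have e2 : F.P (t + 1 + H) = F.P (t + H) := by
    ext a
    rw [mem_P, mem_P, show t + 1 + H = t + H + 1 by ring]
    exact F.pres_iff_of_not_ev (h2 a)
  rw [e1, e2, Finset.card_eq_zero, Finset.eq_empty_iff_forall_notMem]
  rintro p hp
  rw [mem_births] at hp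
  rcases hp.2 with h | h
  · exact h hp.1
  · exact h.2 h.1

open Classical in
noncomputable def nb (K : ℕ) (C : Fin n) (t : ℤ) : ℕ :=
  if F.StartAt C t then
    min K (up (F.P t) (F.P (t + H)) C).card + min K (lo (F.P t) C).card
  else if F.EndAt C t then
    ((lo (F.P t) C).filter (fun a => (mid (F.P t) a C).card < K ∧
      K + 1 ≤ (up (F.P t) (F.P (t + H)) a).card)).card
  else 0

open Classical in
noncomputable def fb (K : ℕ) (C : Fin n) (t : ℤ) : ℕ :=
  if F.StartAt C (t + H) then
    min (K - (up (F.P t) (F.P (t + H)) C).card) (lo (F.P t) C).card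
  else if F.EndAt C (t + H) then
    ((lo (F.P t) C).filter (fun a => (mid (F.P t) a C).card +
      (up (F.P t) (F.P (t + H)) C).card < K ∧
      K + 1 ≤ (up (F.P t) (F.P (t + H)) a).card)).card
  else 0

open Classical in
noncomputable def nl (K : ℕ) (C : Fin n) (t : ℤ) : ℕ :=
  if F.Ev C t then K - (lo (F.P t) C).card else 0

open Classical in
noncomputable def fl (K : ℕ) (C : Fin n) (t : ℤ) : ℕ :=
  if F.Ev C (t + H) then K - (lo (F.P t) C).card - (up (F.P t) (F.P (t + H)) C).card else 0

theorem G_le (K : ℕ) (t : ℤ) : F.G K t ≤ ∑ C : Fin n, (F.nb K C t + F.fb K C t) := by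
  classical
  by_cases h1 : ∃ C, F.Ev C t
  · obtain ⟨C, hC⟩ := h1
    have h2 : F.G K t ≤ F.nb K C t + F.fb K C t := by
      unfold nb
      rcases hC with h | h
      · rw [if_pos h]
        have := F.G_near_start (K := K) h
        omega
      · rw [if_neg (fun h' => F.not_start_end h' h), if_pos h]
        have := F.G_near_end (K := K) h
        omega
    exact h2.trans (Finset.single_le_sum (f := fun C => F.nb K C t + F.fb K C t)
      (fun _ _ => Nat.zero_le _) (Finset.mem_univ C))
  · by_cases h3 : ∃ C, F.Ev C (t + H)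
    · obtain ⟨C, hC⟩ := h3
      have h2 : F.G K t ≤ F.nb K C t + F.fb K C t := by
        unfold fb
        rcases hC with h | h
        · rw [if_pos h]
          have := F.G_far_start (K := K) h
          omega
        · rw [if_neg (fun h' => F.not_start_end h' h), if_pos h]
          have := F.G_far_end (K := K) h
          omega
      exact h2.trans (Finset.single_le_sum (f := fun C => F.nb K C t + F.fb K C t)
        (fun _ _ => Nat.zero_le _) (Finset.mem_univ C))
    · push Not at h1 h3
      rw [F.G_none h1 h3]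
      exact Nat.zero_le _

theorem sum_Ico_split (f : ℤ → ℕ) {a b c : ℤ} (h1 : a ≤ b) (h2 : b ≤ c) :
    ∑ t ∈ Finset.Ico a c, f t = ∑ t ∈ Finset.Ico a b, f t + ∑ t ∈ Finset.Ico b c, f t := by
  rw [← Finset.Ico_union_Ico_eq_Ico h1 h2,
    Finset.sum_union (Finset.Ico_disjoint_Ico_consecutive a b c)]

include F in
/-- shift of a periodic sum -/
theorem sum_shift (f : ℤ → ℕ) (hf : ∀ t, f (t + 2 * H) = f t) :
    ∑ t ∈ Finset.Ico 0 (2 * H), f (t + H) = ∑ t ∈ Finset.Ico 0 (2 * H), f t := by
  have hH := F.hH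
  have e1 : ∑ t ∈ Finset.Ico 0 (2 * H), f (t + H) =
      ∑ t ∈ Finset.Ico (0 + H) (2 * H + H), f t := Finset.sum_Ico_add' f 0 (2 * H) H
  have e2 : ∑ t ∈ Finset.Ico (2 * H) (2 * H + H), f t = ∑ t ∈ Finset.Ico 0 H, f t := by
    have := Finset.sum_Ico_add' f 0 H (2 * H)
    rw [zero_add, add_comm H (2 * H)] at this
    rw [← this]
    exact Finset.sum_congr rfl (fun t _ => hf t)
  rw [e1, zero_add, sum_Ico_split f (show H ≤ 2 * H by linarith) (show 2 * H ≤ 2 * H + H by linarith),
    e2, sum_Ico_split f (show (0 : ℤ) ≤ H by linarith) (show H ≤ 2 * H by linarith), add_comm]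

/-- in a period there is exactly one solution -/
theorem card_solutions {T : ℤ} (hT : 0 < T) (x : ℤ) (p : ℤ → Prop) [DecidablePred p]
    (hp : ∀ t, p t ↔ ∃ m : ℤ, t + 1 + T * m = x) :
    ((Finset.Ico 0 T).filter p).card = 1 := by
  rw [Finset.card_eq_one]
  refine ⟨(x - 1) % T, ?_⟩
  ext t
  rw [Finset.mem_filter, Finset.mem_Ico, Finset.mem_singleton, hp]
  constructor
  · rintro ⟨⟨h1, h2⟩, m, hm⟩
    have : x - 1 = t + T * m := by linarith
    rw [this, Int.add_mul_emod_self_left, Int.emod_eq_of_lt h1 h2]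
  · rintro rfl
    refine ⟨⟨Int.emod_nonneg _ hT.ne', Int.emod_lt_of_pos _ hT⟩, (x - 1) / T, ?_⟩
    have := Int.emod_add_mul_ediv (x - 1) T
    linarith

open Classical in
theorem card_start (C : Fin n) :
    ((Finset.Ico 0 (2 * H)).filter (fun t => F.StartAt C t)).card = 1 :=
  card_solutions F.two_mul_H_pos (F.S C) _ (fun t => F.startAt_iff C t)

open Classical in
theorem card_end (C : Fin n) :
    ((Finset.Ico 0 (2 * H)).filter (fun t => F.EndAt C t)).card = 1 :=
  card_solutions F.two_mul_H_pos (F.E C) _ (fun t => F.endAt_iff C t)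

/-- all lines carry at least `K + 1` arcs -/
def Fat (K : ℕ) : Prop := ∀ t, K + 1 ≤ (F.P t ∪ F.P (t + H)).card

theorem fb_add (K : ℕ) (C : Fin n) (t : ℤ) : F.fb K C (t + 2 * H) = F.fb K C t := by
  classical
  unfold fb
  have e1 : F.P (t + 2 * H) = F.P t := by
    have := F.P_add t 1; rwa [mul_one] at this
  have e2 : F.P (t + 2 * H + H) = F.P (t + H) := by
    have := F.P_add (t + H) 1
    rw [mul_one] at this
    rw [← this]; congr 1; ring
  have e3 : F.StartAt C (t + 2 * H + H) ↔ F.StartAt C (t + H) := by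
    have := F.startAt_add C (t + H) 1
    rw [mul_one] at this
    rw [← this, show t + 2 * H + H = t + H + 2 * H by ring]
  have e4 : F.EndAt C (t + 2 * H + H) ↔ F.EndAt C (t + H) := by
    have := F.endAt_add C (t + H) 1
    rw [mul_one] at this
    rw [← this, show t + 2 * H + H = t + H + 2 * H by ring]
  rw [e1, e2]
  simp only [e3, e4]

theorem fl_add (K : ℕ) (C : Fin n) (t : ℤ) : F.fl K C (t + 2 * H) = F.fl K C t := by
  classical
  unfold fl
  have e1 : F.P (t + 2 * H) = F.P t := by
    have := F.P_add t 1; rwa [mul_one] at this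
  have e2 : F.P (t + 2 * H + H) = F.P (t + H) := by
    have := F.P_add (t + H) 1
    rw [mul_one] at this
    rw [← this]; congr 1; ring
  have e3 : F.Ev C (t + 2 * H + H) ↔ F.Ev C (t + H) := by
    have := F.ev_add C (t + H) 1
    rw [mul_one] at this
    rw [← this, show t + 2 * H + H = t + H + 2 * H by ring]
  rw [e1, e2]
  simp only [e3]

open Classical in
theorem point_bound {K : ℕ} (hfat : F.Fat K) (C : Fin n) (t : ℤ) :
    F.nb K C t + F.fb K C (t + H) + F.nl K C t + F.fl K C (t + H) ≤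
      (if F.StartAt C t then 2 * K else 0) + (if F.EndAt C t then K else 0) := by
  have e0 : F.P (t + H + H) = F.P t := F.P_add' t
  have e3 : F.StartAt C (t + H + H) ↔ F.StartAt C t := by
    have := F.startAt_add C t 1
    rw [mul_one] at this
    rw [← this, show t + H + H = t + 2 * H by ring]
  have e4 : F.EndAt C (t + H + H) ↔ F.EndAt C t := by
    have := F.endAt_add C t 1
    rw [mul_one] at this
    rw [← this, show t + H + H = t + 2 * H by ring]
  have e5 : F.Ev C (t + H + H) ↔ F.Ev C t := by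
    unfold Ev; rw [e3, e4]
  unfold nb fb nl fl
  rw [e0]
  simp only [e3, e4, e5]
  have hup := up_swap (F.P t) (F.P (t + H))
  simp only [hup]
  by_cases hs : F.StartAt C t
  · have he : ¬ F.EndAt C t := fun h => F.not_start_end hs h
    have hev : F.Ev C t := Or.inl hs
    rw [if_pos hs, if_pos hs, if_pos hev, if_pos hev, if_pos hs, if_neg he]
    have := start_combo K (up (F.P t) (F.P (t + H)) C).card (lo (F.P t) C).card
      (lo (F.P (t + H)) C).card
    omega
  · rw [if_neg hs, if_neg hs, if_neg hs]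
    by_cases he : F.EndAt C t
    · have hev : F.Ev C t := Or.inr he
      rw [if_pos he, if_pos he, if_pos hev, if_pos hev, if_pos he]
      have := end_combo (K := K) (P := F.P t) (Q := F.P (t + H)) (C := C) (hfat t)
      omega
    · have hev : ¬ F.Ev C t := fun h => h.elim hs he
      rw [if_neg he, if_neg he, if_neg hev, if_neg hev, if_neg he]

/-- Total births plus losses. -/
theorem total_bound {K : ℕ} (hfat : F.Fat K) :
    ∑ t ∈ Finset.Ico 0 (2 * H), (F.G K t + ∑ C : Fin n, (F.nl K C t + F.fl K C t)) ≤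
      3 * K * n := by
  classical
  calc ∑ t ∈ Finset.Ico 0 (2 * H), (F.G K t + ∑ C : Fin n, (F.nl K C t + F.fl K C t))
      ≤ ∑ t ∈ Finset.Ico 0 (2 * H), ∑ C : Fin n,
          ((F.nb K C t + F.nl K C t) + (F.fb K C t + F.fl K C t)) := by
        apply Finset.sum_le_sum
        intro t _
        have := F.G_le K t
        have h2 : ∑ C : Fin n, ((F.nb K C t + F.nl K C t) + (F.fb K C t + F.fl K C t)) =
            ∑ C : Fin n, (F.nb K C t + F.fb K C t) + ∑ C : Fin n, (F.nl K C t + F.fl K C t) := by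
          rw [← Finset.sum_add_distrib]
          exact Finset.sum_congr rfl (fun C _ => by ring)
        rw [h2]
        omega
    _ = ∑ C : Fin n, ∑ t ∈ Finset.Ico 0 (2 * H),
          ((F.nb K C t + F.nl K C t) + (F.fb K C t + F.fl K C t)) := Finset.sum_comm
    _ ≤ ∑ _C : Fin n, 3 * K := by
        apply Finset.sum_le_sum
        intro C _
        rw [Finset.sum_add_distrib,
          ← F.sum_shift (fun t => F.fb K C t + F.fl K C t)
            (fun t => by rw [F.fb_add, F.fl_add]), ← Finset.sum_add_distrib]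
        calc ∑ t ∈ Finset.Ico 0 (2 * H), ((F.nb K C t + F.nl K C t) +
              (F.fb K C (t + H) + F.fl K C (t + H)))
            ≤ ∑ t ∈ Finset.Ico 0 (2 * H),
              ((if F.StartAt C t then 2 * K else 0) + (if F.EndAt C t then K else 0)) := by
              apply Finset.sum_le_sum
              intro t _
              have := F.point_bound hfat C t
              omega
          _ = 3 * K := by
              rw [Finset.sum_add_distrib, ← Finset.sum_filter, ← Finset.sum_filter,
                Finset.sum_const, Finset.sum_const, F.card_start, F.card_end]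
              simp only [smul_eq_mul]
              ring
    _ = 3 * K * n := by
        rw [Finset.sum_const, Finset.card_univ, Fintype.card_fin, smul_eq_mul]
        ring

end Sep

end Pool.Agent.ArcVis
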