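import Pool.Agent.ArcVis.Combo

/-! # Tokens: the first `q` arcs of rank `> j` on a line, with the side of their closest entry -/

namespace Pool.Agent.ArcVis

open Finset

variable {n : ℕ}

open Classical in
/-- tokens -/
noncomputable def Tok (q : ℕ) (P Q : Finset (Fin n)) (j : Fin n) : Finset (Fin n × Prop) :=
  ((up P Q j).filter (fun b => dep P Q j b < q)).image (fun b => (b, b ∈ P))

theorem mem_Tok {q : ℕ} {P Q : Finset (Fin n)} {j : Fin n} {x : Fin n × Prop} :
    x ∈ Tok q P Q j ↔ x.1 ∈ up P Q j ∧ dep P Q j x.1 < q ∧ x.2 = (x.1 ∈ P) := by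
  classical
  unfold Tok
  rw [Finset.mem_image]
  constructor
  · rintro ⟨b, hb, rfl⟩
    rw [Finset.mem_filter] at hb
    exact ⟨hb.1, hb.2, rfl⟩
  · rintro ⟨h1, h2, h3⟩
    refine ⟨x.1, ?_, ?_⟩
    · rw [Finset.mem_filter]; exact ⟨h1, h2⟩
    · rw [← h3]

theorem card_Tok (q : ℕ) (P Q : Finset (Fin n)) (j : Fin n) :
    (Tok q P Q j).card = min q (up P Q j).card := by
  classical
  unfold Tok
  rw [Finset.card_image_of_injective, card_dep_lt]
  intro a b h
  exact (Prod.ext_iff.1 h).1

theorem key_insert_of_ne {P : Finset (Fin n)} {C b : Fin n} (h : b ≠ C) :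
    key (insert C P) b = key P b := by
  unfold key
  by_cases hb : b ∈ P
  · rw [if_pos hb, if_pos (Finset.mem_insert_of_mem hb)]
  · rw [if_neg hb, if_neg]
    rw [Finset.mem_insert]
    tauto

theorem key_of_mem {P : Finset (Fin n)} {b : Fin n} (h : b ∈ P) : key P b = b.val := if_pos h
theorem key_of_notMem {P : Finset (Fin n)} {b : Fin n} (h : b ∉ P) :
    key P b = 2 * n - b.val := if_neg h

theorem mid_sub_before {P Q : Finset (Fin n)} {j C b : Fin n} (h : C.val < key P b) :
    (mid P j C).card ≤ dep P Q j b := by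
  apply Finset.card_le_card
  intro c hc
  rw [mid, Finset.mem_filter] at hc
  rw [Finset.mem_filter, mem_up]
  refine ⟨⟨Or.inl hc.1, hc.2.1⟩, ?_⟩
  rw [key_of_mem hc.1]
  have := hc.2.2
  rw [Fin.lt_def] at this
  omega

/-- Two families of tokens related by: outside `C`, same arcs, same types, same order. -/
structure Rel (P Q P' Q' : Finset (Fin n)) (C : Fin n) : Prop where
  nearIff : ∀ b, b ≠ C → (b ∈ P' ↔ b ∈ P)
  farIff : ∀ b, b ≠ C → (b ∈ Q' ↔ b ∈ Q)

theorem Rel.key_eq {P Q P' Q' : Finset (Fin n)} {C : Fin n} (h : Rel P Q P' Q' C) {b : Fin n}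
    (hb : b ≠ C) : key P' b = key P b := by
  unfold key
  by_cases hbP : b ∈ P
  · rw [if_pos hbP, if_pos ((h.nearIff b hb).2 hbP)]
  · rw [if_neg hbP, if_neg (fun h' => hbP ((h.nearIff b hb).1 h'))]

theorem Rel.mem_up_iff {P Q P' Q' : Finset (Fin n)} {C : Fin n} (h : Rel P Q P' Q' C)
    {b j : Fin n} (hb : b ≠ C) : b ∈ up P' Q' j ↔ b ∈ up P Q j := by
  rw [mem_up, mem_up, h.nearIff b hb, h.farIff b hb]

theorem Rel.symm {P Q P' Q' : Finset (Fin n)} {C : Fin n} (h : Rel P Q P' Q' C) :
    Rel P' Q' P Q C := ⟨fun b hb => (h.nearIff b hb).symm, fun b hb => (h.farIff b hb).symm⟩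

/-- `C` comes before `b` among the arcs of rank `> j` -/
def Bef (P Q : Finset (Fin n)) (j C b : Fin n) : Prop := C ∈ up P Q j ∧ key P C < key P b

theorem Rel.dep_le {P Q P' Q' : Finset (Fin n)} {C : Fin n} (h : Rel P Q P' Q' C)
    {b j : Fin n} (hb : b ≠ C) (hB : Bef P Q j C b → Bef P' Q' j C b) :
    dep P Q j b ≤ dep P' Q' j b := by
  apply Finset.card_le_card
  intro c hc
  rw [Finset.mem_filter] at hc ⊢
  by_cases hcC : c = C
  · subst hcC
    exact hB hc
  · rw [h.mem_up_iff hcC, h.key_eq hcC, h.key_eq hb]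
    exact hc

theorem Rel.dep_le_succ {P Q P' Q' : Finset (Fin n)} {C : Fin n} (h : Rel P Q P' Q' C)
    {b j : Fin n} (hb : b ≠ C) : dep P' Q' j b ≤ dep P Q j b + 1 := by
  classical
  have hsub : (up P' Q' j).filter (fun c => key P' c < key P' b) ⊆
      insert C ((up P Q j).filter (fun c => key P c < key P b)) := by
    intro c hc
    rw [Finset.mem_insert]
    by_cases hcC : c = C
    · exact Or.inl hcC
    · right
      rw [Finset.mem_filter] at hc ⊢
      rw [h.mem_up_iff hcC, h.key_eq hcC, h.key_eq hb] at hc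
      exact hc
  exact (Finset.card_le_card hsub).trans (Finset.card_insert_le _ _)

/-- General step lemma. `hA`: `C` comes before `b` earlier implies also later (insertion type). -/
theorem tok_insert {q : ℕ} {P Q P' Q' : Finset (Fin n)} {C j : Fin n} (h : Rel P Q P' Q' C) :
    (Tok q P Q j \ Tok q P' Q' j).card ≤ 1 := by
  classical
  rw [Finset.card_le_one]
  -- description of a removed token different from `C`
  have key1 : ∀ x : Fin n × Prop, x ∈ Tok q P Q j \ Tok q P' Q' j → x.1 ≠ C →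
      x.1 ∈ up P Q j ∧ dep P Q j x.1 + 1 = q ∧ ¬ Bef P Q j C x.1 ∧ Bef P' Q' j C x.1 := by
    intro x hx hxC
    rw [Finset.mem_sdiff, mem_Tok, mem_Tok] at hx
    obtain ⟨⟨h1, h2, h3⟩, h4⟩ := hx
    have h5 : ¬ dep P' Q' j x.1 < q := by
      intro h5
      apply h4
      refine ⟨(h.mem_up_iff hxC).2 h1, h5, ?_⟩
      rw [h3]
      exact propext (h.nearIff _ hxC).symm
    have h6 := h.dep_le_succ (j := j) hxC
    have h7 : ¬ (Bef P' Q' j C x.1 → Bef P Q j C x.1) := by
      intro h7
      have := h.symm.dep_le (j := j) hxC h7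
      omega
    rw [Classical.not_imp] at h7
    exact ⟨h1, by omega, h7.2, h7.1⟩
  have key2 : ∀ x y : Fin n × Prop, x ∈ Tok q P Q j \ Tok q P' Q' j →
      y ∈ Tok q P Q j \ Tok q P' Q' j → x.1 = y.1 → x = y := by
    intro x y hx hy hxy
    rw [Finset.mem_sdiff, mem_Tok] at hx hy
    refine Prod.ext hxy ?_
    rw [hx.1.2.2, hy.1.2.2, hxy]
  intro x hx y hy
  apply key2 x y hx hy
  by_cases hxC : x.1 = C
  · by_cases hyC : y.1 = C
    · rw [hxC, hyC]
    · exfalso
      have hy1 := key1 y hy hyC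
      rw [Finset.mem_sdiff, mem_Tok] at hx
      obtain ⟨⟨h1, h2, h3⟩, h4⟩ := hx
      rw [hxC] at h1 h2
      have h5 : dep P Q j C ≠ dep P Q j y.1 := fun h5 => hyC (dep_inj h1 hy1.1 h5).symm
      have h6 : dep P Q j C < dep P Q j y.1 := by omega
      have h7 : key P C < key P y.1 := by
        rcases lt_trichotomy (key P C) (key P y.1) with h | h | h
        · exact h
        · exact absurd (key_inj P h).symm hyC
        · have := dep_lt_dep hy1.1 h
          omega
      exact hy1.2.2.1 ⟨h1, h7⟩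
  · by_cases hyC : y.1 = C
    · exfalso
      have hy1 := key1 x hx hxC
      rw [Finset.mem_sdiff, mem_Tok] at hy
      obtain ⟨⟨h1, h2, h3⟩, h4⟩ := hy
      rw [hyC] at h1 h2
      have h5 : dep P Q j C ≠ dep P Q j x.1 := fun h5 => hxC (dep_inj h1 hy1.1 h5).symm
      have h6 : dep P Q j C < dep P Q j x.1 := by omega
      have h7 : key P C < key P x.1 := by
        rcases lt_trichotomy (key P C) (key P x.1) with h | h | h
        · exact h
        · exact absurd (key_inj P h).symm hxC
        · have := dep_lt_dep hy1.1 h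
          omega
      exact hy1.2.2.1 ⟨h1, h7⟩
    · have hx1 := key1 x hx hxC
      have hy1 := key1 y hy hyC
      exact dep_inj hx1.1 hy1.1 (by omega)

/-- if `C` is not one of the first `q` arcs, before or after, then no token is removed -/
theorem tok_sub {q : ℕ} {P Q P' Q' : Finset (Fin n)} {C j : Fin n} (h : Rel P Q P' Q' C)
    (h1 : C ∈ up P Q j → q ≤ dep P Q j C) (h2 : C ∈ up P' Q' j → q ≤ dep P' Q' j C) :
    Tok q P Q j ⊆ Tok q P' Q' j := by
  classical
  intro x hx
  rw [mem_Tok] at hx ⊢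
  obtain ⟨h3, h4, h5⟩ := hx
  have hxC : x.1 ≠ C := by
    intro hxC
    rw [hxC] at h3 h4
    have := h1 h3
    omega
  refine ⟨(h.mem_up_iff hxC).2 h3, ?_, ?_⟩
  · -- `C` is not before `x` later
    by_contra h6
    rw [not_lt] at h6
    have h7 : ¬ (Bef P' Q' j C x.1 → Bef P Q j C x.1) := by
      intro h7
      have := h.symm.dep_le (j := j) hxC h7
      omega
    rw [Classical.not_imp] at h7
    have h8 := h2 h7.1.1
    -- all arcs before `C` later are before `x` earlier
    have h9 : dep P' Q' j C ≤ dep P Q j x.1 := by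
      apply Finset.card_le_card
      intro c hc
      rw [Finset.mem_filter] at hc ⊢
      have hcC : c ≠ C := by
        intro hcC
        rw [hcC] at hc
        exact lt_irrefl _ hc.2
      rw [h.mem_up_iff hcC, h.key_eq hcC] at hc
      refine ⟨hc.1, hc.2.trans ?_⟩
      rw [← h.key_eq hxC]
      exact h7.1.2
    omega
  · rw [h5]
    exact propext (h.nearIff _ hxC).symm

end Pool.Agent.ArcVis
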