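import Pool.Agent.ArcVis.Sep
import Pool.Agent.ArcVis.Token

/-! # Losses, persistent tokens, and the final count for separated families -/

namespace Pool.Agent.ArcVis

open Finset

namespace Sep

variable {n : ℕ} {H : ℤ} (F : Sep n H)

/-! ### discrete intermediate value -/

theorem exists_switch (p : ℤ → Prop) {a b : ℤ} (hab : a ≤ b) (ha : ¬ p a) (hb : p b) :
    ∃ t, a ≤ t ∧ t < b ∧ ¬ p t ∧ p (t + 1) := by
  by_contra hcon
  push Not at hcon
  have key : ∀ k : ℕ, a + k ≤ b → ¬ p (a + k) := by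
    intro k
    induction k with
    | zero => intro _; simpa using ha
    | succ k ih =>
      intro hk
      push_cast at hk ⊢
      have h1 := ih (by linarith)
      have h2 := hcon (a + k) (by linarith [Int.natCast_nonneg k]) (by linarith) h1
      rw [← add_assoc]
      exact h2
  have := key (b - a).toNat (by rw [Int.toNat_of_nonneg (by linarith)]; linarith)
  rw [Int.toNat_of_nonneg (by linarith)] at this
  apply this
  rw [show a + (b - a) = b by ring]
  exact hb

/-- counting a periodic predicate on a window -/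
theorem card_window_le {T : ℤ} (hT : 0 < T) (p : ℤ → Prop) [DecidablePred p]
    (hp : ∀ t m : ℤ, p (t + T * m) ↔ p t) {a b : ℤ} (hb : b ≤ a + T) :
    ((Finset.Ico a b).filter p).card ≤ ((Finset.Ico 0 T).filter p).card := by
  apply Finset.card_le_card_of_injOn (fun t => t % T)
  · intro t ht
    rw [Finset.mem_coe, Finset.mem_filter, Finset.mem_Ico] at ht
    rw [Finset.mem_coe, Finset.mem_filter, Finset.mem_Ico]
    refine ⟨⟨Int.emod_nonneg _ hT.ne', Int.emod_lt_of_pos _ hT⟩, ?_⟩
    have := Int.emod_add_mul_ediv t T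
    rw [← hp (t % T) (t / T), this]
    exact ht.2
  · intro t ht t' ht' h
    rw [Finset.mem_coe, Finset.mem_filter, Finset.mem_Ico] at ht ht'
    simp only at h
    have h1 := Int.emod_add_mul_ediv t T
    have h2 := Int.emod_add_mul_ediv t' T
    have h3 : t - t' = T * (t / T - t' / T) := by rw [mul_sub]; linarith
    have h4 : t / T - t' / T = 0 := by
      by_contra h5
      rcases lt_or_gt_of_ne h5 with h6 | h6
      · have : T * (t / T - t' / T) ≤ T * (-1) :=
          mul_le_mul_of_nonneg_left (by omega) hT.le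
        linarith [ht.1.1, ht'.1.2]
      · have : T * 1 ≤ T * (t / T - t' / T) :=
          mul_le_mul_of_nonneg_left (by omega) hT.le
        linarith [ht.1.2, ht'.1.1]
    rw [h4, mul_zero] at h3
    linarith

/-! ### events in gaps -/

/-- an event of an arc of rank `> j` among the first `q` arcs of rank `> j` -/
def EvT (q : ℕ) (j : Fin n) (t : ℤ) : Prop :=
  ∃ C, j < C ∧ ((F.Ev C t ∧ (mid (F.P t) j C).card < q) ∨
    (F.Ev C (t + H) ∧ (mid (F.P t) j C).card + (up (F.P t) (F.P (t + H)) C).card < q))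

theorem evT_add (q : ℕ) (j : Fin n) (t m : ℤ) : F.EvT q j (t + 2 * H * m) ↔ F.EvT q j t := by
  unfold EvT
  rw [F.P_add, show t + 2 * H * m + H = t + H + 2 * H * m by ring, F.P_add]
  simp only [F.ev_add]

noncomputable def T (q : ℕ) (j : Fin n) (t : ℤ) : Finset (Fin n × Prop) :=
  Tok q (F.P t) (F.P (t + H)) j

theorem rel_near {C : Fin n} {t : ℤ} (h : F.Ev C t) :
    Rel (F.P t) (F.P (t + H)) (F.P (t + 1)) (F.P (t + 1 + H)) C := by
  refine ⟨fun b hb => ?_, fun b _ => ?_⟩
  · rw [F.mem_P, F.mem_P]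
    apply F.pres_iff_of_not_ev
    intro h2
    exact hb (F.ev_uniq (m := 0) h2 (by rw [mul_zero, add_zero]; exact h)).1
  · rw [F.P_far_of_near h]

theorem rel_far {C : Fin n} {t : ℤ} (h : F.Ev C (t + H)) :
    Rel (F.P t) (F.P (t + H)) (F.P (t + 1)) (F.P (t + 1 + H)) C := by
  refine ⟨fun b _ => ?_, fun b hb => ?_⟩
  · rw [F.P_near_of_far h]
  · rw [F.mem_P, F.mem_P, show t + 1 + H = t + H + 1 by ring]
    apply F.pres_iff_of_not_ev
    intro h2
    exact hb (F.ev_uniq (m := 0) h2 (by rw [mul_zero, add_zero]; exact h)).1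

theorem P_const {t : ℤ} (h1 : ∀ C, ¬ F.Ev C t) (h2 : ∀ C, ¬ F.Ev C (t + H)) :
    F.P (t + 1) = F.P t ∧ F.P (t + 1 + H) = F.P (t + H) := by
  constructor
  · ext a
    rw [mem_P, mem_P]
    exact F.pres_iff_of_not_ev (h1 a)
  · ext a
    rw [mem_P, mem_P, show t + 1 + H = t + H + 1 by ring]
    exact F.pres_iff_of_not_ev (h2 a)

theorem T_step_card (q : ℕ) (j : Fin n) (t : ℤ) : (F.T q j t \ F.T q j (t + 1)).card ≤ 1 := by
  classical
  unfold T
  by_cases h1 : ∃ C, F.Ev C t
  · obtain ⟨C, hC⟩ := h1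
    exact tok_insert (F.rel_near hC)
  · by_cases h2 : ∃ C, F.Ev C (t + H)
    · obtain ⟨C, hC⟩ := h2
      exact tok_insert (F.rel_far hC)
    · push Not at h1 h2
      rw [(F.P_const h1 h2).1, (F.P_const h1 h2).2, Finset.sdiff_self]
      simp

theorem mid_near_eq {j C : Fin n} {t : ℤ} (h : F.Ev C t) :
    mid (F.P (t + 1)) j C = mid (F.P t) j C := by
  ext c
  rw [mid, mid, Finset.mem_filter, Finset.mem_filter]
  constructor
  · rintro ⟨h1, h2⟩
    exact ⟨((F.rel_near h).nearIff c h2.2.ne).1 h1, h2⟩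
  · rintro ⟨h1, h2⟩
    exact ⟨((F.rel_near h).nearIff c h2.2.ne).2 h1, h2⟩

theorem up_far_eq {C : Fin n} {t : ℤ} (h : F.Ev C (t + H)) :
    up (F.P (t + 1)) (F.P (t + 1 + H)) C = up (F.P t) (F.P (t + H)) C := by
  ext c
  rw [mem_up, mem_up]
  constructor
  · rintro ⟨h1, h2⟩
    refine ⟨?_, h2⟩
    rwa [(F.rel_far h).nearIff c h2.ne', (F.rel_far h).farIff c h2.ne'] at h1
  · rintro ⟨h1, h2⟩
    refine ⟨?_, h2⟩
    rwa [(F.rel_far h).nearIff c h2.ne', (F.rel_far h).farIff c h2.ne']

theorem T_step_sub {q : ℕ} {j : Fin n} {t : ℤ} (h : ¬ F.EvT q j t) :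
    F.T q j t ⊆ F.T q j (t + 1) := by
  classical
  unfold T
  by_cases h1 : ∃ C, F.Ev C t
  · obtain ⟨C, hC⟩ := h1
    have hmid : j < C → q ≤ (mid (F.P t) j C).card := by
      intro hjC
      by_contra hlt
      rw [not_le] at hlt
      exact h ⟨C, hjC, Or.inl ⟨hC, hlt⟩⟩
    have hgen : ∀ P Q : Finset (Fin n), j < C → (mid P j C).card ≤ dep P Q j C := by
      intro P Q hjC
      by_cases hCP : C ∈ P
      · rw [dep_near hCP]
      · rw [dep_far hCP hjC]
        omega
    apply tok_sub (F.rel_near hC)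
    · intro hu
      rw [mem_up] at hu
      exact (hmid hu.2).trans (hgen _ _ hu.2)
    · intro hu
      rw [mem_up] at hu
      have h3 := hgen (F.P (t + 1)) (F.P (t + 1 + H)) hu.2
      rw [F.mid_near_eq hC] at h3
      exact (hmid hu.2).trans h3
  · by_cases h2 : ∃ C, F.Ev C (t + H)
    · obtain ⟨C, hC⟩ := h2
      have hP := F.P_near_of_far hC
      by_cases hCP : C ∈ F.P t
      · -- nothing changes
        have hup : up (F.P (t + 1)) (F.P (t + 1 + H)) j = up (F.P t) (F.P (t + H)) j := by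
          ext c
          by_cases hcC : c = C
          · subst hcC
            rw [mem_up, mem_up, hP]
            exact ⟨fun h => ⟨Or.inl hCP, h.2⟩, fun h => ⟨Or.inl hCP, h.2⟩⟩
          · exact (F.rel_far hC).mem_up_iff hcC
        intro x hx
        rw [mem_Tok] at hx ⊢
        rw [hup, hP]
        refine ⟨hx.1, ?_, hx.2.2⟩
        have hd : dep (F.P t) (F.P (t + 1 + H)) j x.1 = dep (F.P t) (F.P (t + H)) j x.1 := by
          unfold dep
          rw [hP] at hup
          rw [hup]
        rw [hd]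
        exact hx.2.1
      · have hdep : j < C → q ≤ (mid (F.P t) j C).card +
            (up (F.P t) (F.P (t + H)) C).card := by
          intro hjC
          by_contra hlt
          rw [not_le] at hlt
          exact h ⟨C, hjC, Or.inr ⟨hC, hlt⟩⟩
        apply tok_sub (F.rel_far hC)
        · intro hu
          rw [mem_up] at hu
          rw [dep_far hCP hu.2]
          exact hdep hu.2
        · intro hu
          rw [mem_up] at hu
          have hCP' : C ∉ F.P (t + 1) := by rw [hP]; exact hCP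
          rw [dep_far hCP' hu.2, F.up_far_eq hC, hP]
          exact hdep hu.2
    · push Not at h1 h2
      rw [(F.P_const h1 h2).1, (F.P_const h1 h2).2]

open Classical in
/-- persistent tokens from time `a` up to time `b` -/
noncomputable def Pers (q : ℕ) (j : Fin n) (a b : ℤ) : Finset (Fin n × Prop) :=
  (F.T q j a).filter (fun x => ∀ t : ℤ, a ≤ t → t ≤ b → x ∈ F.T q j t)

open Classical in
/-- number of events among the first `q` arcs of rank `> j` at the times `a ≤ t < b` -/
noncomputable def cEv (q : ℕ) (j : Fin n) (a b : ℤ) : ℕ :=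
  ((Finset.Ico a b).filter (fun t => F.EvT q j t)).card

theorem mem_Pers {q : ℕ} {j : Fin n} {a b : ℤ} {x : Fin n × Prop} :
    x ∈ F.Pers q j a b ↔ x ∈ F.T q j a ∧ ∀ t : ℤ, a ≤ t → t ≤ b → x ∈ F.T q j t := by
  classical
  unfold Pers
  rw [Finset.mem_filter]

theorem persist (q : ℕ) (j : Fin n) (a : ℤ) (i : ℕ) :
    (F.T q j a).card ≤ (F.Pers q j a (a + i)).card + F.cEv q j a (a + i) := by
  classical
  induction i with
  | zero =>
    have : F.Pers q j a (a + ((0 : ℕ) : ℤ)) = F.T q j a := by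
      ext x
      rw [mem_Pers]
      refine ⟨fun h => h.1, fun hx => ⟨hx, fun t h1 h2 => ?_⟩⟩
      have : t = a := by
        push_cast at h2
        linarith
      rw [this]
      exact hx
    rw [this]
    omega
  | succ i ih =>
    set A := F.Pers q j a (a + (i : ℤ)) with hA
    set B := F.Pers q j a (a + ((i + 1 : ℕ) : ℤ)) with hB
    have hAB : A \ B ⊆ F.T q j (a + i) \ F.T q j (a + i + 1) := by
      intro x hx
      rw [Finset.mem_sdiff, hA, hB, mem_Pers, mem_Pers] at hx
      rw [Finset.mem_sdiff]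
      refine ⟨hx.1.2 (a + i) (by linarith [Int.natCast_nonneg i]) le_rfl, ?_⟩
      intro h
      apply hx.2
      refine ⟨hx.1.1, ?_⟩
      intro t h1 h2
      push_cast at h2
      rcases lt_or_eq_of_le h2 with h3 | h3
      · exact hx.1.2 t h1 (by linarith)
      · rw [h3, ← add_assoc]
        exact h
    have hcard : A.card ≤ B.card + (A \ B).card := by
      have h1 := Finset.card_le_card (show A ⊆ B ∪ (A \ B) by
        intro x hx
        rw [Finset.mem_union, Finset.mem_sdiff]
        by_cases hxB : x ∈ B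
        · exact Or.inl hxB
        · exact Or.inr ⟨hx, hxB⟩)
      exact h1.trans (Finset.card_union_le _ _)
    have hIco : Finset.Ico a (a + ((i + 1 : ℕ) : ℤ)) = insert (a + i) (Finset.Ico a (a + i)) := by
      ext t
      rw [Finset.mem_insert, Finset.mem_Ico, Finset.mem_Ico]
      push_cast
      have := Int.natCast_nonneg i
      omega
    have hnot : (a + i : ℤ) ∉ (Finset.Ico a (a + i)).filter (fun t => F.EvT q j t) := by
      rw [Finset.mem_filter, Finset.mem_Ico]
      rintro ⟨⟨_, h⟩, _⟩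
      exact lt_irrefl _ h
    by_cases hev : F.EvT q j (a + i)
    · have h2 : (A \ B).card ≤ 1 := (Finset.card_le_card hAB).trans (F.T_step_card q j _)
      have h3 : F.cEv q j a (a + ((i + 1 : ℕ) : ℤ)) = F.cEv q j a (a + i) + 1 := by
        unfold cEv
        rw [hIco, Finset.filter_insert, if_pos hev, Finset.card_insert_of_notMem hnot]
      omega
    · have h2 : (A \ B).card = 0 := by
        rw [Finset.card_eq_zero, Finset.eq_empty_iff_forall_notMem]
        intro x hx
        have h3 := hAB hx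
        rw [Finset.mem_sdiff] at h3
        exact h3.2 (F.T_step_sub hev h3.1)
      have h3 : F.cEv q j a (a + ((i + 1 : ℕ) : ℤ)) = F.cEv q j a (a + i) := by
        unfold cEv
        rw [hIco, Finset.filter_insert, if_neg hev]
      omega

/-! ### the two distinct births of a persistent token -/

/-- `j` sees `y` at time `t` -/
def V (K : ℕ) (j y : Fin n) (t : ℤ) : Prop := Vis K (F.P t) (F.P (t + H)) j y

/-- birth of the pair `(j, y)` between `t` and `t + 1` -/
def Bi (K : ℕ) (j y : Fin n) (t : ℤ) : Prop :=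
  Birth K (F.P t) (F.P (t + H)) (F.P (t + 1)) (F.P (t + 1 + H)) j y

theorem V_add (K : ℕ) (j y : Fin n) (t m : ℤ) : F.V K j y (t + 2 * H * m) ↔ F.V K j y t := by
  unfold V
  rw [F.P_add, show t + 2 * H * m + H = t + H + 2 * H * m by ring, F.P_add]

theorem Bi_add (K : ℕ) (j y : Fin n) (t m : ℤ) : F.Bi K j y (t + 2 * H * m) ↔ F.Bi K j y t := by
  unfold Bi
  rw [F.P_add, show t + 2 * H * m + H = t + H + 2 * H * m by ring, F.P_add,
    show t + 2 * H * m + 1 = t + 1 + 2 * H * m by ring, F.P_add,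
    show t + 1 + 2 * H * m + H = t + 1 + H + 2 * H * m by ring, F.P_add]

theorem exists_absent (y : Fin n) (a : ℤ) : ∃ t, a ≤ t ∧ t < a + 2 * H ∧ y ∉ F.P t := by
  have hH := F.two_mul_H_pos
  have h1 : y ∉ F.P (F.E y) := by
    rw [F.mem_P]
    have : F.EndAt y (F.E y - 1) := by
      rw [F.endAt_iff]
      exact ⟨0, by ring⟩
    have h2 := this.2
    rwa [sub_add_cancel] at h2
  refine ⟨a + (F.E y - a) % (2 * H), ?_, ?_, ?_⟩
  · have := Int.emod_nonneg (F.E y - a) hH.ne'
    linarith
  · have := Int.emod_lt_of_pos (F.E y - a) hH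
    linarith
  · have h3 := Int.emod_add_mul_ediv (F.E y - a) (2 * H)
    have h4 : F.E y = a + (F.E y - a) % (2 * H) + 2 * H * ((F.E y - a) / (2 * H)) := by linarith
    rw [h4, F.P_add] at h1
    exact h1

/-- start and end times of arc `j` -/
theorem two_births {K : ℕ} {j y : Fin n} {σ : Prop} (hx : ∀ t : ℤ, F.E j - 1 ≤ t →
    t ≤ F.S j + 2 * H → (y, σ) ∈ F.T (K - j.val) j t) :
    F.Bi K j y (F.S j + 2 * H - 1) ∧
      ∃ t, F.S j + 2 * H - 1 < t ∧ t < F.S j + 2 * H - 1 + 2 * H ∧ F.Bi K j y t := by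
  have hH := F.two_mul_H_pos
  have hlt := F.lt j
  have hlen := F.len j
  set a := F.E j - 1 with ha
  set b := F.S j + 2 * H - 1 with hb
  have hab : a ≤ b := by linarith
  -- facts about `j`
  have hjend : F.EndAt j a := by rw [F.endAt_iff]; exact ⟨0, by rw [ha]; ring⟩
  have hjstart : F.StartAt j b := by
    rw [F.startAt_iff]; exact ⟨-1, by rw [hb]; ring⟩
  have hxx : ∀ t, a ≤ t → t ≤ b + 1 → y ∈ up (F.P t) (F.P (t + H)) j ∧
      dep (F.P t) (F.P (t + H)) j y < K - j.val ∧ (σ ↔ y ∈ F.P t) := by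
    intro t h1 h2
    have := hx t h1 (by linarith)
    unfold T at this
    rw [mem_Tok] at this
    exact ⟨this.1, this.2.1, by rw [← this.2.2]⟩
  have hVa : F.V K j y a := by
    have := hxx a le_rfl (by linarith)
    rw [mem_up] at this
    refine ⟨this.1.2, F.mem_P.2 hjend.1, ?_, by omega⟩
    rw [Finset.mem_union]; exact this.1.1
  have hVb : F.V K j y (b + 1) := by
    have := hxx (b + 1) (by linarith) le_rfl
    rw [mem_up] at this
    refine ⟨this.1.2, F.mem_P.2 hjstart.2, ?_, by omega⟩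
    rw [Finset.mem_union]; exact this.1.1
  have hnVb : ¬ F.V K j y b := fun h => hjstart.1 (F.mem_P.1 h.2.1)
  have hBb : F.Bi K j y b := ⟨hVb, Or.inl hnVb⟩
  have hVa2 : F.V K j y (a + 2 * H) := by
    have := F.V_add K j y a 1
    rw [mul_one] at this
    exact this.2 hVa
  refine ⟨hBb, ?_⟩
  by_cases hσ : σ
  · -- same side token
    obtain ⟨t0, h1, h2, h3⟩ := F.exists_absent y (b + 1)
    have ht0 : t0 < a + 2 * H := by
      by_contra hcon
      rw [not_lt] at hcon
      have h4 := (hxx (t0 - 2 * H) (by linarith) (by linarith)).2.2.1 hσ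
      have h5 := F.P_add (t0 - 2 * H) 1
      rw [mul_one, sub_add_cancel] at h5
      rw [h5] at h3
      exact h3 h4
    obtain ⟨t1, g1, g2, g3, g4⟩ := exists_switch (fun t => F.V K j y t ∧ y ∈ F.P t)
      ht0.le (fun h => h3 h.2) ⟨hVa2, by
        have h5 := F.P_add a 1
        rw [mul_one] at h5
        rw [h5]
        exact (hxx a le_rfl (by linarith)).2.2.1 hσ⟩
    refine ⟨t1, by linarith, by linarith, g4.1, ?_⟩
    by_cases hV : F.V K j y t1
    · exact Or.inr ⟨g4.2, fun h => g3 ⟨hV, h⟩⟩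
    · exact Or.inl hV
  · -- opposite side token
    have hno : ∀ t, a ≤ t → t ≤ b + 1 → y ∉ F.P t := fun t h1 h2 h3 =>
      hσ ((hxx t h1 h2).2.2.2 h3)
    have hyes : ∀ t, a ≤ t → t ≤ b + 1 → y ∈ F.P (t + H) := by
      intro t h1 h2
      have := (hxx t h1 h2).1
      rw [mem_up] at this
      exact this.1.resolve_left (hno t h1 h2)
    have hHpos := F.hH
    have hshort : b - a < H := by
      by_contra hcon
      rw [not_lt] at hcon
      exact hno (a + H) (by linarith) (by linarith) (hyes a le_rfl (by linarith))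
    obtain ⟨t1, g1, g2, g3, g4⟩ := exists_switch (fun t => F.V K j y t ∧ y ∉ F.P t)
      (show b + H ≤ a + 2 * H by linarith) (fun h => h.2 (hyes b hab (by linarith))) ⟨hVa2, by
        have h5 := F.P_add a 1
        rw [mul_one] at h5
        rw [h5]
        exact hno a le_rfl (by linarith)⟩
    by_cases hV : F.V K j y t1
    · have hyP : y ∈ F.P t1 := by
        by_contra h
        exact g3 ⟨hV, h⟩
      obtain ⟨t2, k1, k2, k3, k4⟩ := exists_switch (fun t => F.V K j y t ∧ y ∈ F.P t)
        (show b + 1 ≤ t1 by linarith) (fun h => hno (b + 1) (by linarith) le_rfl h.2) ⟨hV, hyP⟩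
      refine ⟨t2, by linarith, by linarith, k4.1, ?_⟩
      by_cases hV2 : F.V K j y t2
      · exact Or.inr ⟨k4.2, fun h => k3 ⟨hV2, h⟩⟩
      · exact Or.inl hV2
    · exact ⟨t1, by linarith, by linarith, g4.1, Or.inl hV⟩

end Sep

end Pool.Agent.ArcVis
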